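import Mathlib
import Pool.Agent.TH35.MG.TwDef

set_option autoImplicit false

/-! The group generated by the twists about `a_i`, `b_i` and the band sums of `a_i` and `a_{i+1}`:
definitions. -/

namespace Pool.Agent.Q290.MG

open Pool.Agent.H29R2.MG Pool.Agent.TH35.MG

/-- the values on the generators of the twist about `a_k`: `b_k ↦ b_k a_k` -/
def valA (g k : ℕ) : Fin g ⊕ Fin g → SurfaceGroup g
  | Sum.inl i => gen (Sum.inl i)
  | Sum.inr i => if (i : ℕ) = k then gen (Sum.inr i) * gen (Sum.inl i) else gen (Sum.inr i)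

/-- the values on the generators of the twist about `b_k`: `a_k ↦ a_k b_k⁻¹` -/
def valB (g k : ℕ) : Fin g ⊕ Fin g → SurfaceGroup g
  | Sum.inl i => if (i : ℕ) = k then gen (Sum.inl i) * (gen (Sum.inr i))⁻¹ else gen (Sum.inl i)
  | Sum.inr i => gen (Sum.inr i)

/-- the commutator `[a_k, b_k]` -/
def comK (g k : ℕ) (h : k < g) : SurfaceGroup g :=
  gen (Sum.inl ⟨k, h⟩) * gen (Sum.inr ⟨k, h⟩) * (gen (Sum.inl ⟨k, h⟩))⁻¹ *
    (gen (Sum.inr ⟨k, h⟩))⁻¹

/-- `u = [a_k, b_k] a_{k+1} [a_k, b_k]⁻¹ a_k`: a simple loop homologous to `a_k + a_{k+1}` -/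
def loopU (g k : ℕ) (h : k + 1 < g) : SurfaceGroup g :=
  comK g k (by omega) * gen (Sum.inl ⟨k + 1, h⟩) * (comK g k (by omega))⁻¹ *
    gen (Sum.inl ⟨k, by omega⟩)

/-- `p = [a_k, b_k]⁻¹ a_k [a_k, b_k] a_{k+1}`: a conjugate of `u` -/
def loopP (g k : ℕ) (h : k + 1 < g) : SurfaceGroup g :=
  (comK g k (by omega))⁻¹ * gen (Sum.inl ⟨k, by omega⟩) * comK g k (by omega) *
    gen (Sum.inl ⟨k + 1, h⟩)

/-- the values on the generators of the twist about the loop `u`:
`a_k ↦ u⁻¹ a_k u`, `b_k ↦ b_k u`, `a_{k+1} ↦ p⁻¹ a_{k+1} p`, `b_{k+1} ↦ b_{k+1} p` -/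
def valT (g k : ℕ) (h : k + 1 < g) : Fin g ⊕ Fin g → SurfaceGroup g
  | Sum.inl i => if (i : ℕ) = k then (loopU g k h)⁻¹ * gen (Sum.inl i) * loopU g k h else
      if (i : ℕ) = k + 1 then (loopP g k h)⁻¹ * gen (Sum.inl i) * loopP g k h
      else gen (Sum.inl i)
  | Sum.inr i => if (i : ℕ) = k then gen (Sum.inr i) * loopU g k h else
      if (i : ℕ) = k + 1 then gen (Sum.inr i) * loopP g k h else gen (Sum.inr i)

/-- `T` is one of the `3g - 1` Dehn twists about `a_k`, `b_k` (`k < g`) and the band sums of `a_k`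
and `a_{k+1}` (`k + 1 < g`) -/
def IsHumph (g : ℕ) (T : Mod g) : Prop :=
  ∃ τ : orientedAut g, classOf g τ = T ∧
    ((∃ k < g, ∀ j, applyAut g τ (gen j) = valA g k j) ∨
      (∃ k < g, ∀ j, applyAut g τ (gen j) = valB g k j) ∨
      (∃ k, ∃ h : k + 1 < g, ∀ j, applyAut g τ (gen j) = valT g k h j))

/-- The subgroup of the mapping class group generated by these twists. (By the theorem of
Lickorish it is the whole mapping class group; this is not used.) -/
def Gam (g : ℕ) : Subgroup (Mod g) := Subgroup.closure {T | IsHumph g T}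

end Pool.Agent.Q290.MG
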