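import Mathlib
import Pool.Agent.Q290.MG.GamDef

set_option autoImplicit false

/-! Representations of the group generated by the twists: definitions. -/

namespace Pool.Agent.Q290.MG

open Pool.Agent.H29R2.MG Pool.Agent.TH35.MG Module

section
variable {K V : Type*} [Field K] [AddCommGroup V] [Module K V] {g : ℕ}

/-- every invariant subspace has an invariant complement -/
def ComplRed {G : Type*} [Group G] (σ : G →* Module.End K V) : Prop :=
  ∀ W : Submodule K V, (∀ γ, ∀ x ∈ W, σ γ x ∈ W) →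
    ∃ W' : Submodule K V, (∀ γ, ∀ x ∈ W', σ γ x ∈ W') ∧ W ⊔ W' = ⊤ ∧ W ⊓ W' = ⊥

/-- the representation is not zero and the only invariant subspaces are `0` and `V` -/
def Irred {G : Type*} [Group G] (σ : G →* Module.End K V) : Prop :=
  (∃ x : V, x ≠ 0) ∧ ∀ W : Submodule K V, (∀ γ, ∀ x ∈ W, σ γ x ∈ W) → W = ⊥ ∨ W = ⊤

/-- the elements of `Γ` act on the vectors `v_j` as on the basis of `H_1(Σ_g; K)` given by the
classes of `a_j`, `b_j`: if `γ` is the class of the automorphism `τ`, and the homology class of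
`τ(gen j)` is `∑ u_i [gen i]`, then `ρ(γ) v_j = ∑ u_i v_i` -/
def HomBlock (ρ : Gam g →* Module.End K V) (v : Fin g ⊕ Fin g → V) : Prop :=
  ∀ (γ : Gam g) (τ : orientedAut g), classOf g τ = γ → ∀ j,
    ρ γ (v j) = ∑ i, homologyClass (applyAut g τ (gen j)) i • v i

/-- `ρ` is a direct sum of `b` copies of the representation on `H_1(Σ_g; K)` and `a` copies of the
trivial representation -/
def StdSum (ρ : Gam g →* Module.End K V) : Prop :=
  ∃ (a b : ℕ) (v : Basis ((Fin b × (Fin g ⊕ Fin g)) ⊕ Fin a) K V),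
    (∀ k, HomBlock ρ fun j => v (Sum.inl (k, j))) ∧ ∀ k γ, ρ γ (v (Sum.inr k)) = v (Sum.inr k)

/-- `ρ` is trivial on the elements of `Γ` which act trivially on `H_1(Σ_g; ℤ)` -/
def TorelliTrivial (ρ : Gam g →* Module.End K V) : Prop :=
  ∀ (γ : Gam g) (τ : orientedAut g), classOf g τ = γ →
    (∀ j, homologyClass (applyAut g τ (gen j)) = homologyClass (gen j)) → ρ γ = 1

/-- `ρ` is the trivial representation of dimension one -/
def TrivRep (ρ : Gam g →* Module.End K V) : Prop := finrank K V = 1 ∧ ∀ γ, ρ γ = 1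

/-- `ρ` is the representation on `H_1(Σ_g; K)` -/
def HomRep (ρ : Gam g →* Module.End K V) : Prop :=
  ∃ v : Basis (Fin g ⊕ Fin g) K V, HomBlock ρ v

end

end Pool.Agent.Q290.MG
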