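import Mathlib
import Pool.Agent.Q290.MG.StdDef

set_option autoImplicit false

/-! Congruence subgroups of the mapping class group: definitions. -/

namespace Pool.Agent.Q290.MG

open Pool.Agent.H29R2.MG Pool.Agent.TH35.MG

/-- `T` acts trivially on `H_1(Σ_g; ℤ/p)` (for `p = 0`: on `H_1(Σ_g; ℤ)`): it is the class of an
automorphism `τ` of the surface group with `[τ(x)] = [x]` modulo `p` for all `x` -/
def ActsTrivMod (g p : ℕ) (T : Mod g) : Prop :=
  ∃ τ : orientedAut g, classOf g τ = T ∧
    ∀ (x : SurfaceGroup g) (i : Fin g ⊕ Fin g),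
      (p : ℤ) ∣ homologyClass (applyAut g τ x) i - homologyClass x i

/-- `T` lies in the kernel of `Out(π) → Out(π/P)`: it is the class of an automorphism `τ` of the
surface group `π` which is conjugation by an element `u` modulo `P` -/
def InnerMod {g : ℕ} (P : Subgroup (SurfaceGroup g)) (T : Mod g) : Prop :=
  ∃ τ : orientedAut g, classOf g τ = T ∧
    ∃ u : SurfaceGroup g, ∀ x : SurfaceGroup g, applyAut g τ x * (u * x * u⁻¹)⁻¹ ∈ P

/-- `N` contains a congruence subgroup: the elements of `Γ` in the kernel of
`Out(π) → Out(π/P)` for some characteristic subgroup `P` of finite index of the surface group -/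
def IsCongruence {g : ℕ} (N : Subgroup (Gam g)) : Prop :=
  ∃ P : Subgroup (SurfaceGroup g), P.Characteristic ∧ P.FiniteIndex ∧
    ∀ γ : Gam g, InnerMod P γ → γ ∈ N

end Pool.Agent.Q290.MG
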