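import Mathlib
import Pool.Agent.H798R3.MG.Final
import Pool.Agent.TH35.MG.Rel
import Pool.Agent.TH35.MG.HR

set_option autoImplicit false

/-! More relations in windows of three handles: the curve `L` of the lantern. -/

namespace Pool.Agent.Q290.MG

open Pool.Agent.H798R3.MG Pool.Agent.H29R2.MG Pool.Agent.TH35.MG

/-- the remaining relations of the lantern -/
structure XRel {G : Type*} [Group G] (N : ℕ) (A B T : ℕ → G) : Prop where
  LT0 : ∀ i, i + 2 < N → Commute (Ll A B T i) (T i)
  LT1 : ∀ i, i + 2 < N → Commute (Ll A B T i) (T (i + 1))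
  LB1 : ∀ i, i + 2 < N →
    Ll A B T i * B (i + 1) * Ll A B T i = B (i + 1) * Ll A B T i * B (i + 1)
  LB2 : ∀ i, i + 2 < N →
    Ll A B T i * B (i + 2) * Ll A B T i = B (i + 2) * Ll A B T i * B (i + 2)

section
variable {g N n : ℕ}

theorem lant_more (H : WHyp) (c : Ctx g N n) (i : ℕ) (hj : i + 2 < N) :
    ((sT g i (i + 1) * sT g (i + 1) (i + 2) * sT g i (i + 2) *
        (sA g i * sA g (i + 1) * sA g (i + 2))⁻¹) * sT g i (i + 1) =
      sT g i (i + 1) * (sT g i (i + 1) * sT g (i + 1) (i + 2) * sT g i (i + 2) *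
        (sA g i * sA g (i + 1) * sA g (i + 2))⁻¹)) ∧
    ((sT g i (i + 1) * sT g (i + 1) (i + 2) * sT g i (i + 2) *
        (sA g i * sA g (i + 1) * sA g (i + 2))⁻¹) * sT g (i + 1) (i + 2) =
      sT g (i + 1) (i + 2) * (sT g i (i + 1) * sT g (i + 1) (i + 2) * sT g i (i + 2) *
        (sA g i * sA g (i + 1) * sA g (i + 2))⁻¹)) ∧
    ((sT g i (i + 1) * sT g (i + 1) (i + 2) * sT g i (i + 2) *
        (sA g i * sA g (i + 1) * sA g (i + 2))⁻¹) * sB g (i + 1) *
      (sT g i (i + 1) * sT g (i + 1) (i + 2) * sT g i (i + 2) *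
        (sA g i * sA g (i + 1) * sA g (i + 2))⁻¹) =
    sB g (i + 1) * (sT g i (i + 1) * sT g (i + 1) (i + 2) * sT g i (i + 2) *
        (sA g i * sA g (i + 1) * sA g (i + 2))⁻¹) * sB g (i + 1)) ∧
    ((sT g i (i + 1) * sT g (i + 1) (i + 2) * sT g i (i + 2) *
        (sA g i * sA g (i + 1) * sA g (i + 2))⁻¹) * sB g (i + 2) *
      (sT g i (i + 1) * sT g (i + 1) (i + 2) * sT g i (i + 2) *
        (sA g i * sA g (i + 1) * sA g (i + 2))⁻¹) =
    sB g (i + 2) * (sT g i (i + 1) * sT g (i + 1) (i + 2) * sT g i (i + 2) *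
        (sA g i * sA g (i + 1) * sA g (i + 2))⁻¹) * sB g (i + 2)) := by
  have c2 := c.h2
  have c3 := c.hN
  have c4 := c.hg
  have hw : Win g n i (i + 1) (i + 2) (i + 3) :=
    ⟨by omega, by omega, by omega, by omega, c.hg⟩
  have hi : i < N := by omega
  have hi' : i + 1 < N := by omega
  have a := RR_A H c hw 0 hi
  have a' := RR_A H c hw 1 hi'
  have b' := RR_B H c hw 1 hi'
  have a'' := RR_A H c hw 2 hj
  have b'' := RR_B H c hw 2 hj
  have T := RR_T02' H c hw rfl rfl hj
  have T1 := RR_T01 H c hw rfl hi'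
  have T2 := RR_T12 H c hw rfl hj
  simp only [Matrix.cons_val_one, Matrix.cons_val_zero,
    show (![i, i + 1, i + 2, i + 3] 2) = i + 2 from rfl] at a a' b' a'' b''
  refine ⟨?_, ?_, ?_, ?_⟩ <;>
      (apply RR.eq H hw true true false
       · intro _; rfl
       · intro _; rfl
       · intro h; cases h
       · repeat' first | assumption | apply RR.mul H hw | apply RR.inv
       · repeat' first | assumption | apply RR.mul H hw | apply RR.inv
       · decide +kernel)

theorem x_rel (H : WHyp) (c : Ctx g N n) :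
    XRel N (sA g) (sB g) (fun i => sT g i (i + 1)) where
  LT0 := fun i hi => by
    unfold Ll
    rw [d_eq H c i hi]
    exact (lant_more H c i hi).1
  LT1 := fun i hi => by
    unfold Ll
    rw [d_eq H c i hi]
    exact (lant_more H c i hi).2.1
  LB1 := fun i hi => by
    unfold Ll
    rw [d_eq H c i hi]
    exact (lant_more H c i hi).2.2.1
  LB2 := fun i hi => by
    unfold Ll
    rw [d_eq H c i hi]
    exact (lant_more H c i hi).2.2.2

end

end Pool.Agent.Q290.MG
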