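import Mathlib
import Pool.Agent.Q290.MG.XRel

set_option autoImplicit false

/-! The relations between the twists hold for all the handles of the surface: the group
`orSub g` is compared with `orSub (g + 3)`. -/

namespace Pool.Agent.Q290.MG

open Pool.Agent.H798R3.MG Pool.Agent.H29R2.MG Pool.Agent.TH35.MG

/-- inclusion of the first `g` handles -/
def inc (g : ℕ) : FG g →* FG (g + 3) :=
  FreeGroup.map (Sum.map (Fin.castAdd 3) (Fin.castAdd 3))

/-- projection to the first `g` handles -/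
def ret (g : ℕ) : FG (g + 3) →* FG g :=
  FreeGroup.lift (Sum.elim (fun m => if h : (m : ℕ) < g then fa ⟨m, h⟩ else 1)
    (fun m => if h : (m : ℕ) < g then fb ⟨m, h⟩ else 1))

theorem inc_fa {g : ℕ} (m : Fin g) : inc g (fa m) = fa (Fin.castAdd 3 m) := by
  simp [inc, fa]

theorem inc_fb {g : ℕ} (m : Fin g) : inc g (fb m) = fb (Fin.castAdd 3 m) := by
  simp [inc, fb]

theorem ret_inc {g : ℕ} (x : FG g) : ret g (inc g x) = x := by
  have h : (ret g).comp (inc g) = MonoidHom.id _ := by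
    apply free_ext
    · intro m
      rw [MonoidHom.comp_apply, inc_fa]
      simp [ret, fa]
    · intro m
      rw [MonoidHom.comp_apply, inc_fb]
      simp [ret, fb]
  exact DFunLike.congr_fun h x

theorem inc_inj (g : ℕ) : Function.Injective (inc g) := fun x y h => by
  rw [← ret_inc x, h, ret_inc]

/-- extension of an endomorphism by the identity on the last three handles -/
def ext {g : ℕ} (φ : FG g →* FG g) : FG (g + 3) →* FG (g + 3) :=
  FreeGroup.lift (Sum.elim
    (fun m => if h : (m : ℕ) < g then inc g (φ (fa ⟨m, h⟩)) else fa m)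
    (fun m => if h : (m : ℕ) < g then inc g (φ (fb ⟨m, h⟩)) else fb m))

theorem ext_fa {g : ℕ} (φ : FG g →* FG g) (m : Fin (g + 3)) :
    ext φ (fa m) = if h : (m : ℕ) < g then inc g (φ (fa ⟨m, h⟩)) else fa m := by
  unfold ext
  conv_lhs => unfold fa
  rw [FreeGroup.lift_apply_of]
  rfl

theorem ext_fb {g : ℕ} (φ : FG g →* FG g) (m : Fin (g + 3)) :
    ext φ (fb m) = if h : (m : ℕ) < g then inc g (φ (fb ⟨m, h⟩)) else fb m := by
  unfold ext
  conv_lhs => unfold fb
  rw [FreeGroup.lift_apply_of]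
  rfl

theorem ext_inc {g : ℕ} (φ : FG g →* FG g) (x : FG g) : ext φ (inc g x) = inc g (φ x) := by
  have h : (ext φ).comp (inc g) = (inc g).comp φ := by
    apply free_ext
    · intro m
      rw [MonoidHom.comp_apply, MonoidHom.comp_apply, inc_fa, ext_fa,
        dif_pos (show ((Fin.castAdd 3 m : Fin (g + 3)) : ℕ) < g from m.2)]
      rfl
    · intro m
      rw [MonoidHom.comp_apply, MonoidHom.comp_apply, inc_fb, ext_fb,
        dif_pos (show ((Fin.castAdd 3 m : Fin (g + 3)) : ℕ) < g from m.2)]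
      rfl
  exact DFunLike.congr_fun h x

theorem ext_comp {g : ℕ} (φ ψ : FG g →* FG g) : (ext φ).comp (ext ψ) = ext (φ.comp ψ) := by
  apply free_ext
  · intro m
    rw [MonoidHom.comp_apply, ext_fa, ext_fa]
    by_cases h : (m : ℕ) < g
    · rw [dif_pos h, dif_pos h, ext_inc]; rfl
    · rw [dif_neg h, dif_neg h, ext_fa, dif_neg h]
  · intro m
    rw [MonoidHom.comp_apply, ext_fb, ext_fb]
    by_cases h : (m : ℕ) < g
    · rw [dif_pos h, dif_pos h, ext_inc]; rfl
    · rw [dif_neg h, dif_neg h, ext_fb, dif_neg h]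

theorem ext_id (g : ℕ) : ext (MonoidHom.id (FG g)) = MonoidHom.id _ := by
  apply free_ext
  · intro m
    rw [ext_fa]
    by_cases h : (m : ℕ) < g
    · rw [dif_pos h, MonoidHom.id_apply, inc_fa]; rfl
    · rw [dif_neg h]; rfl
  · intro m
    rw [ext_fb]
    by_cases h : (m : ℕ) < g
    · rw [dif_pos h, MonoidHom.id_apply, inc_fb]; rfl
    · rw [dif_neg h]; rfl

theorem ext_inj {g : ℕ} {φ ψ : FG g →* FG g} (h : ext φ = ext ψ) : φ = ψ := by
  ext1 x
  apply inc_inj
  rw [← MonoidHom.comp_apply]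
  show inc g (φ (FreeGroup.of x)) = inc g (ψ (FreeGroup.of x))
  rw [← ext_inc, ← ext_inc, h]

/-- extension of automorphisms -/
def Ext (g : ℕ) : MulAut (FG g) →* MulAut (FG (g + 3)) where
  toFun φ := MonoidHom.toMulEquiv (ext φ.toMonoidHom) (ext (φ⁻¹ : MulAut (FG g)).toMonoidHom)
    (by
      rw [ext_comp, ← ext_id]
      congr 1
      ext x
      exact MulAut.inv_apply_self _ _ _)
    (by
      rw [ext_comp, ← ext_id]
      congr 1
      ext x
      exact MulAut.apply_inv_self _ _ _)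
  map_one' := by
    apply MulEquiv.ext
    intro z
    exact DFunLike.congr_fun (ext_id g) z
  map_mul' φ ψ := by
    apply MulEquiv.ext
    intro z
    exact (DFunLike.congr_fun (ext_comp φ.toMonoidHom ψ.toMonoidHom) z).symm

theorem Ext_apply {g : ℕ} (φ : MulAut (FG g)) (z : FG (g + 3)) :
    Ext g φ z = ext φ.toMonoidHom z := rfl

theorem Ext_inj (g : ℕ) : Function.Injective (Ext g) := by
  intro φ ψ h
  have h1 : ext φ.toMonoidHom = ext ψ.toMonoidHom := by
    apply MonoidHom.ext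
    intro z
    rw [← Ext_apply, h, Ext_apply]
  have h2 := ext_inj h1
  apply MulEquiv.ext
  intro z
  exact DFunLike.congr_fun h2 z

theorem ext_ends {g : ℕ} (F H : ℕ → FG g → FG g) (F' H' : ℕ → FG (g + 3) → FG (g + 3))
    (h1 : ∀ m < g, ∀ x, inc g (F m x) = F' m (inc g x))
    (h2 : ∀ m < g, ∀ x, inc g (H m x) = H' m (inc g x))
    (h3 : ∀ m, g ≤ m → ∀ x, F' m x = x) (h4 : ∀ m, g ≤ m → ∀ x, H' m x = x) :
    ext (ends g F H) = ends (g + 3) F' H' := by
  apply free_ext
  · intro m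
    rw [ext_fa, O3aux.ends_fa]
    by_cases h : (m : ℕ) < g
    · rw [dif_pos h, O3aux.ends_fa, h1 _ h, inc_fa]; rfl
    · rw [dif_neg h, h3 _ (by omega)]
  · intro m
    rw [ext_fb, O3aux.ends_fb]
    by_cases h : (m : ℕ) < g
    · rw [dif_pos h, O3aux.ends_fb, h2 _ h, inc_fb]; rfl
    · rw [dif_neg h, h4 _ (by omega)]

theorem inc_ha {g m : ℕ} (h : m < g) : inc g (ha g m) = ha (g + 3) m := by
  unfold ha
  rw [dif_pos h, dif_pos (by omega), inc_fa]
  rfl

theorem inc_hb {g m : ℕ} (h : m < g) : inc g (hb g m) = hb (g + 3) m := by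
  unfold hb
  rw [dif_pos h, dif_pos (by omega), inc_fb]
  rfl

theorem inc_dd {g m : ℕ} (h : m < g) : inc g (dd g m) = dd (g + 3) m := by
  simp only [dd, map_mul, map_inv, inc_ha h, inc_hb h]

theorem inc_De {g i j : ℕ} (hj : j < g) : inc g (De g i j) = De (g + 3) i j := by
  unfold De
  rw [map_list_prod, List.map_map]
  congr 1
  apply List.map_congr_left
  intro m hm
  rw [List.mem_range'_1] at hm
  exact inc_dd (by omega)

theorem inc_uT {g i j : ℕ} (hi : i < g) (hj : j < g) : inc g (uT g i j) = uT (g + 3) i j := by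
  simp only [uT, map_mul, map_inv, inc_ha hi, inc_ha hj, inc_De hj]

theorem inc_pT {g i j : ℕ} (hi : i < g) (hj : j < g) : inc g (pT g i j) = pT (g + 3) i j := by
  simp only [pT, map_mul, map_inv, inc_ha hi, inc_ha hj, inc_De hj]

theorem ext_hA {g i : ℕ} (hi : i < g) : ext (hA g i) = hA (g + 3) i := by
  unfold hA
  apply ext_ends
  · intro m _ x; rfl
  · intro m _ x

    split_ifs
    · rw [map_mul, inc_ha hi]
    · rfl
  · intro m _ x; rfl
  · intro m hm x

    rw [if_neg (by omega)]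

theorem ext_hA' {g i : ℕ} (hi : i < g) : ext (hA' g i) = hA' (g + 3) i := by
  unfold hA'
  apply ext_ends
  · intro m _ x; rfl
  · intro m _ x

    split_ifs
    · rw [map_mul, map_inv, inc_ha hi]
    · rfl
  · intro m _ x; rfl
  · intro m hm x

    rw [if_neg (by omega)]

theorem ext_hB {g i : ℕ} (hi : i < g) : ext (hB g i) = hB (g + 3) i := by
  unfold hB
  apply ext_ends
  · intro m _ x

    split_ifs
    · rw [map_mul, map_inv, inc_hb hi]
    · rfl
  · intro m _ x; rfl
  · intro m hm x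

    rw [if_neg (by omega)]
  · intro m _ x; rfl

theorem ext_hB' {g i : ℕ} (hi : i < g) : ext (hB' g i) = hB' (g + 3) i := by
  unfold hB'
  apply ext_ends
  · intro m _ x

    split_ifs
    · rw [map_mul, inc_hb hi]
    · rfl
  · intro m _ x; rfl
  · intro m hm x

    rw [if_neg (by omega)]
  · intro m _ x; rfl

theorem ext_hT {g i j : ℕ} (hi : i < g) (hj : j < g) : ext (hT g i j) = hT (g + 3) i j := by
  unfold hT
  apply ext_ends
  · intro m _ x

    split_ifs
    · simp only [map_mul, map_inv, inc_uT hi hj]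
    · simp only [map_mul, map_inv, inc_pT hi hj]
    · rfl
  · intro m _ x

    split_ifs
    · simp only [map_mul, inc_uT hi hj]
    · simp only [map_mul, inc_pT hi hj]
    · rfl
  · intro m hm x

    rw [if_neg (by omega), if_neg (by omega)]
  · intro m hm x

    rw [if_neg (by omega), if_neg (by omega)]

theorem ext_hT' {g i j : ℕ} (hi : i < g) (hj : j < g) : ext (hT' g i j) = hT' (g + 3) i j := by
  unfold hT'
  apply ext_ends
  · intro m _ x

    split_ifs
    · simp only [map_mul, map_inv, inc_uT hi hj]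
    · simp only [map_mul, map_inv, inc_pT hi hj]
    · rfl
  · intro m _ x

    split_ifs
    · simp only [map_mul, map_inv, inc_uT hi hj]
    · simp only [map_mul, map_inv, inc_pT hi hj]
    · rfl
  · intro m hm x

    rw [if_neg (by omega), if_neg (by omega)]
  · intro m hm x

    rw [if_neg (by omega), if_neg (by omega)]

theorem comp_id_of {g : ℕ} {f f' : FG g →* FG g} {F F' : FG (g + 3) →* FG (g + 3)}
    (h1 : ext f = F) (h2 : ext f' = F') (h : F.comp F' = MonoidHom.id _) :
    f.comp f' = MonoidHom.id _ := by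
  apply ext_inj
  rw [← ext_comp, h1, h2, h, ext_id]

/-- the standing assumptions for `g + 3` -/
theorem ctx3 {g : ℕ} (h : 2 ≤ g) : Ctx (g + 3) g (g + 2) := ⟨h, le_refl _, by omega⟩

theorem ok_A {g i : ℕ} (h2 : 2 ≤ g) (hi : i < g) : OrOK g (hA g i) (hA' g i) := by
  have h := ((whyp.k (g + 3) g (g + 2) h2 (le_refl _) (by omega)).1 i hi).1
  exact ⟨comp_id_of (ext_hA hi) (ext_hA' hi) h.1, comp_id_of (ext_hA' hi) (ext_hA hi) h.2.1,
    t_O1.1 i hi, t_O3.1 i hi⟩

theorem ok_B {g i : ℕ} (h2 : 2 ≤ g) (hi : i < g) : OrOK g (hB g i) (hB' g i) := by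
  have h := ((whyp.k (g + 3) g (g + 2) h2 (le_refl _) (by omega)).1 i hi).2.1
  exact ⟨comp_id_of (ext_hB hi) (ext_hB' hi) h.1, comp_id_of (ext_hB' hi) (ext_hB hi) h.2.1,
    t_O1.2.1 i hi, t_O3.2.1 i hi⟩

theorem ok_T {g i j : ℕ} (h2 : 2 ≤ g) (hij : i < j) (hij2 : j ≤ i + 2) (hj : j < g) :
    OrOK g (hT g i j) (hT' g i j) := by
  have h := (whyp.k (g + 3) g (g + 2) h2 (le_refl _) (by omega)).2.2 i j hij hij2 hj
  exact ⟨comp_id_of (ext_hT (by omega) hj) (ext_hT' (by omega) hj) h.1,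
    comp_id_of (ext_hT' (by omega) hj) (ext_hT (by omega) hj) h.2.1,
    t_O2 hij hij2 hj, t_O3.2.2.2.2.2 i j hij hij2 hj⟩

/-- the two groups of automorphisms -/
theorem Ext_mkS {g : ℕ} {f f' : FG g →* FG g} {F F' : FG (g + 3) →* FG (g + 3)}
    (h1 : ext f = F) (hok : OrOK g f f') (hOK : OrOK (g + 3) F F') :
    Ext g (mkS g f f' : orSub g) = ((mkS (g + 3) F F' : orSub (g + 3)) : MulAut (FG (g + 3))) := by
  apply MulEquiv.ext
  intro z
  rw [mkS_apply hOK, Ext_apply, ← h1]
  have h2 : ((mkS g f f' : orSub g) : MulAut (FG g)).toMonoidHom = f := by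
    apply MonoidHom.ext
    intro y
    exact mkS_apply hok y
  rw [h2]

theorem Ext_sA {g i : ℕ} (h2 : 2 ≤ g) (hi : i < g) :
    Ext g (sA g i : orSub g) = ((sA (g + 3) i : orSub (g + 3)) : MulAut (FG (g + 3))) :=
  Ext_mkS (ext_hA hi) (ok_A h2 hi)
    ((whyp.k (g + 3) g (g + 2) h2 (le_refl _) (by omega)).1 i hi).1

theorem Ext_sB {g i : ℕ} (h2 : 2 ≤ g) (hi : i < g) :
    Ext g (sB g i : orSub g) = ((sB (g + 3) i : orSub (g + 3)) : MulAut (FG (g + 3))) :=
  Ext_mkS (ext_hB hi) (ok_B h2 hi)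
    ((whyp.k (g + 3) g (g + 2) h2 (le_refl _) (by omega)).1 i hi).2.1

theorem Ext_sT {g i j : ℕ} (h2 : 2 ≤ g) (hij : i < j) (hij2 : j ≤ i + 2) (hj : j < g) :
    Ext g (sT g i j : orSub g) = ((sT (g + 3) i j : orSub (g + 3)) : MulAut (FG (g + 3))) :=
  Ext_mkS (ext_hT (by omega) hj) (ok_T h2 hij hij2 hj)
    ((whyp.k (g + 3) g (g + 2) h2 (le_refl _) (by omega)).2.2 i j hij hij2 hj)

/-- the injective homomorphism `orSub g → Aut F_{2(g+3)}` -/
def Ex (g : ℕ) : orSub g →* MulAut (FG (g + 3)) := (Ext g).comp (orSub g).subtype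

theorem Ex_inj (g : ℕ) : Function.Injective (Ex g) :=
  (Ext_inj g).comp (orSub g).subtype_injective

end Pool.Agent.Q290.MG
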