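import Mathlib
import Pool.Agent.Q290.MG.Ext
import Pool.Agent.TH35.MG.Blk

set_option autoImplicit false

/-! The relations for all the `g` handles, in `orSub g` and in `Mod g`. -/

namespace Pool.Agent.Q290.MG

open Pool.Agent.H798R3.MG Pool.Agent.H29R2.MG Pool.Agent.TH35.MG

/-- `HRel` without the pushes -/
abbrev HR {G : Type*} [Group G] (N : ℕ) (A B T : ℕ → G) : Prop :=
  HRel N A B (fun _ => 1) (fun _ => 1) T 1

section
variable {G H : Type*} [Group G] [Group H]

theorem hr_map (f : G →* H) {N : ℕ} {A B T : ℕ → G} (h : HR N A B T) :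
    HR N (fun i => f (A i)) (fun i => f (B i)) (fun i => f (T i)) := by
  have h1 := HRel.map f h
  simp only [map_one] at h1
  exact h1

theorem hr_pull (f : H →* G) (hf : Function.Injective f) {N : ℕ} {A B T : ℕ → H}
    (h : HR N (fun i => f (A i)) (fun i => f (B i)) (fun i => f (T i))) : HR N A B T := by
  apply HRel.pull f hf
  simp only [map_one]
  exact h

theorem XRel.map (f : G →* H) {N : ℕ} {A B T : ℕ → G} (h : XRel N A B T) :
    XRel N (fun i => f (A i)) (fun i => f (B i)) (fun i => f (T i)) where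
  LT0 i hi := by
    have := (h.LT0 i hi).map f
    rwa [map_Ll] at this
  LT1 i hi := by
    have := (h.LT1 i hi).map f
    rwa [map_Ll] at this
  LB1 i hi := by simpa only [map_mul, map_Ll] using congrArg f (h.LB1 i hi)
  LB2 i hi := by simpa only [map_mul, map_Ll] using congrArg f (h.LB2 i hi)

theorem XRel.pull (f : H →* G) (hf : Function.Injective f) {N : ℕ} {A B T : ℕ → H}
    (h : XRel N (fun i => f (A i)) (fun i => f (B i)) (fun i => f (T i))) : XRel N A B T where
  LT0 i hi := by apply hf; simpa only [map_mul, map_Ll] using (h.LT0 i hi).eq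
  LT1 i hi := by apply hf; simpa only [map_mul, map_Ll] using (h.LT1 i hi).eq
  LB1 i hi := by apply hf; simpa only [map_mul, map_Ll] using h.LB1 i hi
  LB2 i hi := by apply hf; simpa only [map_mul, map_Ll] using h.LB2 i hi

theorem XRel.congr {N : ℕ} {A B T A' B' T' : ℕ → G} (h : XRel N A B T)
    (hA : ∀ i < N, A' i = A i) (hB : ∀ i < N, B' i = B i)
    (hT : ∀ i, i + 1 < N → T' i = T i) : XRel N A' B' T' := by
  have eS : ∀ i, i + 1 < N → Ss A' B' T' i = Ss A B T i := by
    intro i hi
    simp only [Ss, hA i (by omega), hA (i + 1) hi, hB i (by omega), hB (i + 1) hi, hT i hi]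
  have eD : ∀ i, i + 2 < N → Dd A' B' T' i = Dd A B T i := by
    intro i hi
    simp only [Dd, eS (i + 1) (by omega), hA (i + 1) (by omega), hB (i + 1) (by omega),
      hT i (by omega)]
  have eL : ∀ i, i + 2 < N → Ll A' B' T' i = Ll A B T i := by
    intro i hi
    simp only [Ll, eD i hi, hA i (by omega), hA (i + 1) (by omega), hA (i + 2) hi,
      hT i (by omega), hT (i + 1) (by omega)]
  exact
  { LT0 := fun i hi => by rw [eL i hi, hT i (by omega)]; exact h.LT0 i hi
    LT1 := fun i hi => by rw [eL i hi, hT (i + 1) (by omega)]; exact h.LT1 i hi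
    LB1 := fun i hi => by rw [eL i hi, hB (i + 1) (by omega)]; exact h.LB1 i hi
    LB2 := fun i hi => by rw [eL i hi, hB (i + 2) hi]; exact h.LB2 i hi }

end

theorem hr_full {g : ℕ} (h2 : 2 ≤ g) : HR g (sA g) (sB g) (fun i => sT g i (i + 1)) := by
  apply hr_pull (Ex g) (Ex_inj g)
  have h1 := hr_map (orSub (g + 3)).subtype (HRel.forget (h_rel whyp (ctx3 h2)))
  refine HRel.congr h1 (fun i hi => Ext_sA h2 hi) (fun i hi => Ext_sB h2 hi) (fun _ _ => rfl)
    (fun _ _ => rfl) (fun i hi => Ext_sT h2 (by omega) (by omega) hi)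

theorem x_full {g : ℕ} (h2 : 2 ≤ g) : XRel g (sA g) (sB g) (fun i => sT g i (i + 1)) := by
  apply XRel.pull (Ex g) (Ex_inj g)
  have h1 := XRel.map (orSub (g + 3)).subtype (x_rel whyp (ctx3 h2))
  exact XRel.congr h1 (fun i hi => Ext_sA h2 hi) (fun i hi => Ext_sB h2 hi)
    (fun i hi => Ext_sT h2 (by omega) (by omega) hi)

end Pool.Agent.Q290.MG
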