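import Mathlib
import Pool.Agent.Q290.MG.Full
import Pool.Agent.TH35.MG.Fin

set_option autoImplicit false

/-! A relation in the mapping class group of the closed surface: the pure braid in which the last
strand of the chain goes once around all the others commutes with the twist about the last curve. -/

namespace Pool.Agent.Q290.MG

open Pool.Agent.H798R3.MG Pool.Agent.H29R2.MG Pool.Agent.TH35.MG

/-! ### the two products of the `vv j` -/

/-- `v_0 ∘ ⋯ ∘ v_{n-1}` -/
def eE : ℕ → (FreeGroup ℕ →* FreeGroup ℕ)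
  | 0 => MonoidHom.id _
  | n + 1 => (eE n).comp (vv n)

/-- `v_{n-1} ∘ ⋯ ∘ v_0` -/
def eL : ℕ → (FreeGroup ℕ →* FreeGroup ℕ)
  | 0 => MonoidHom.id _
  | n + 1 => (vv n).comp (eL n)

/-- `∏_{j=k}^1 w_j w_{j+1}⁻¹` -/
def QQ : ℕ → FreeGroup ℕ
  | 0 => 1
  | k + 1 => w (k + 1) * (w (k + 2))⁻¹ * QQ k

theorem eE_high (n k : ℕ) (h : n + 1 ≤ k) : eE n (w k) = w k := by
  induction n with
  | zero => rfl
  | succ n ih =>
    show eE n (vv n (w k)) = w k
    rw [vv_w _ _ (by omega), ih (by omega)]

theorem eE_low (n k : ℕ) (h : k ≤ n) : eE n (w k) = QQ k := by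
  induction n generalizing k with
  | zero =>
    have : k = 0 := by omega
    subst this
    simp [w, QQ]
  | succ n ih =>
    show eE n (vv n (w k)) = QQ k
    by_cases hk : k = n + 1
    · subst hk
      rw [vv_self, map_mul, map_mul, map_inv, eE_high _ _ (by omega), eE_high _ _ (by omega),
        ih n le_rfl, QQ]
    · rw [vv_w _ _ hk, ih k (by omega)]

theorem eL_high (n k : ℕ) (h : n + 1 ≤ k) : eL n (w k) = w k := by
  induction n with
  | zero => rfl
  | succ n ih =>
    show vv n (eL n (w k)) = w k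
    rw [ih (by omega), vv_w _ _ (by omega)]

theorem w_zero : w 0 = 1 := rfl

/-- the images under `v_{n-1} ∘ ⋯ ∘ v_0` -/
theorem eL_low (n k : ℕ) (h : k + 1 ≤ n) : eL n (w (k + 1)) =
    (if (n - (k + 1)) % 2 = 0 then w n * (w (n + 1))⁻¹ else w (n + 1) * (w n)⁻¹) * w k := by
  induction n generalizing k with
  | zero => omega
  | succ n ih =>
    show vv n (eL n (w (k + 1))) = _
    by_cases hk : k = n
    · subst hk
      rw [eL_high _ _ le_rfl, vv_self, Nat.sub_self, if_pos rfl]
    · rw [ih k (by omega)]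
      have h1 : vv n (w n) = w n := vv_w _ _ (by omega)
      have h2 : vv n (w k) = w k := vv_w _ _ (by omega)
      by_cases hp : (n - (k + 1)) % 2 = 0
      · rw [if_pos hp, if_neg (by omega)]
        simp only [map_mul, map_inv, h1, h2, vv_self]
        group
      · rw [if_neg hp, if_pos (by omega)]
        simp only [map_mul, map_inv, h1, h2, vv_self]
        group

/-- the images of the `w_k` under the pure braid -/
theorem eLE (m k : ℕ) (h : k ≤ 2 * m) : eL (2 * m) (eE (2 * m) (w k)) =
    (if k % 2 = 0 then w (2 * m) * (w (2 * m + 1))⁻¹ else w (2 * m + 1) * (w (2 * m))⁻¹) *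
      (PP k)⁻¹ * (w (2 * m + 1) * (w (2 * m))⁻¹) := by
  rw [eE_low _ _ h]
  induction k with
  | zero =>
    rw [QQ, map_one, if_pos rfl, PP]
    group
  | succ k ih =>
    rw [QQ, map_mul, map_mul, map_inv, ih (by omega), eL_low _ _ h, PP]
    by_cases h2 : k + 1 = 2 * m
    · -- the last one
      have hk : k % 2 = 1 := by omega
      rw [if_pos (by omega), if_neg (by omega), if_pos (by omega)]
      rw [h2, show k + 2 = 2 * m + 1 by omega, eL_high _ _ le_rfl]
      group
    · rw [eL_low (2 * m) (k + 1) (by omega)]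
      by_cases hp : k % 2 = 0
      · rw [if_neg (by omega), if_pos (by omega), if_pos hp, if_neg (by omega)]
        group
      · rw [if_pos (by omega), if_neg (by omega), if_neg hp, if_pos (by omega)]
        group

theorem eLE_last (m : ℕ) : eL (2 * m) (eE (2 * m) (w (2 * m + 1))) = w (2 * m + 1) := by
  rw [eE_high _ _ le_rfl, eL_high _ _ le_rfl]

/-- the last twist -/
def wA (n : ℕ) : FreeGroup ℕ →* FreeGroup ℕ := sub n (w (n + 1) * w n)

theorem wA_self (n : ℕ) : wA n (w (n + 1)) = w (n + 1) * w n := sub_w_self _ _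

theorem wA_w (n k : ℕ) (h : k ≠ n + 1) : wA n (w k) = w k := sub_w _ _ _ h

theorem wA_PP (n k : ℕ) (h : k ≤ n) : wA n (PP k) = PP k := by
  induction k with
  | zero => rw [PP, map_one]
  | succ k ih =>
    rw [PP, map_mul, ih (by omega), map_mul, map_inv, wA_w _ _ (by omega), wA_w _ _ (by omega)]

/-! ### the map to the surface group -/

section
variable {g : ℕ}

/-- the evaluation in the surface group -/
def psi (g : ℕ) : FreeGroup ℕ →* SurfaceGroup g := (mk g).comp (retr g)

theorem psi_J (x : FG g) : psi g (J g x) = mk g x := by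
  have h := DFunLike.congr_fun (retr_J (g := g)) x
  rw [MonoidHom.comp_apply, MonoidHom.id_apply] at h
  show mk g (retr g (J g x)) = mk g x
  rw [h]

theorem psi_rel (g : ℕ) : psi g (PP (2 * g + 1)) = psi g (w (2 * g + 1)) := by
  have h := psi_J (surfaceRelator g)
  rw [J_relator, mk_relator, map_mul, map_inv] at h
  exact mul_inv_eq_one.1 h

/-- `u` in the surface group -/
theorem psi_PP (g : ℕ) : psi g (PP (2 * g)) =
    psi g (w (2 * g + 1)) * psi g (w (2 * g)) * (psi g (w (2 * g + 1)))⁻¹ := by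
  have h := psi_rel g
  rw [PP, map_mul, map_mul, map_inv] at h
  have h2 : psi g (PP (2 * g)) = psi g (w (2 * g + 1)) *
      (psi g (w (2 * g + 1)) * (psi g (w (2 * g)))⁻¹)⁻¹ := by
    rw [eq_mul_inv_iff_mul_eq]; exact h
  rw [h2]
  group

/-- an element of `orSub g` with its lift to the free group on the `w_k` -/
def JL (x : orSub g) (f : FreeGroup ℕ →* FreeGroup ℕ) : Prop :=
  ∀ z, J g ((x : MulAut (FG g)) z) = f (J g z)

theorem JL.mul {x y : orSub g} {f f' : FreeGroup ℕ →* FreeGroup ℕ} (h : JL x f)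
    (h' : JL y f') : JL (x * y) (f.comp f') := by
  intro z
  rw [Subgroup.coe_mul, MulAut.mul_apply, h, h']
  rfl

theorem JL.one : JL (1 : orSub g) (MonoidHom.id _) := fun _ => rfl

/-- equality of mapping classes -/
theorem modF_eq {x y : orSub g} (u : SurfaceGroup g)
    (h : ∀ z, mk g ((x : MulAut (FG g)) z) = u * mk g ((y : MulAut (FG g)) z) * u⁻¹) :
    modF g x = modF g y := by
  have key : modF g (x * y⁻¹) = 1 := by
    show QuotientGroup.mk' (innerAut g) (TQ.qh g (x * y⁻¹)) = 1
    rw [QuotientGroup.mk'_apply, QuotientGroup.eq_one_iff, innerAut, Subgroup.mem_subgroupOf]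
    refine ⟨u, ?_⟩
    apply MulEquiv.ext
    intro v
    obtain ⟨z, rfl⟩ := mk_surjective g v
    show MulAut.conj u (mk g z) = TQ.qe (x * y⁻¹) (mk g z)
    rw [TQ.qe_mk, MulAut.conj_apply]
    have h2 := h (((y⁻¹ : orSub g) : MulAut (FG g)) z)
    have h3 : (y : MulAut (FG g)) (((y⁻¹ : orSub g) : MulAut (FG g)) z) = z := by
      rw [← MulAut.mul_apply, ← Subgroup.coe_mul, mul_inv_cancel]; rfl
    rw [h3] at h2
    rw [← h2, Subgroup.coe_mul, MulAut.mul_apply]
  rw [map_mul, map_inv, mul_inv_eq_one] at key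
  exact key

/-- the closing relation -/
theorem closing (hg : 0 < g) {D A : orSub g}
    (hD : JL D ((eL (2 * g)).comp (eE (2 * g)))) (hA : JL A (wA (2 * g))) :
    modF g (D * A) = modF g (A * D) := by
  set o := psi g (w (2 * g + 1)) with ho
  set o' := psi g (w (2 * g)) with ho'
  set u := o * o'⁻¹ with hu
  have hPn : psi g (PP (2 * g)) = o * o' * o⁻¹ := psi_PP g
  -- the images of the `w_k`
  let p : ℕ → SurfaceGroup g := fun k => psi g (PP k)
  have f1 : ∀ k, k ≤ 2 * g → psi g (((eL (2 * g)).comp (eE (2 * g))).comp (wA (2 * g)) (w k)) =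
      (if k % 2 = 0 then u⁻¹ else u) * (p k)⁻¹ * u := by
    intro k hk
    rw [MonoidHom.comp_apply, wA_w _ _ (by omega), MonoidHom.comp_apply, eLE g k hk]
    by_cases h : k % 2 = 0
    · rw [if_pos h, if_pos h]
      simp only [map_mul, map_inv, p, ← ho, ← ho', hu]
      group
    · rw [if_neg h, if_neg h]
      simp only [map_mul, map_inv, p, ← ho, ← ho', hu]
  have f1' : psi g (((eL (2 * g)).comp (eE (2 * g))).comp (wA (2 * g)) (w (2 * g + 1))) = u := by
    rw [MonoidHom.comp_apply, wA_self, map_mul, MonoidHom.comp_apply, eLE_last, MonoidHom.comp_apply,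
      eLE g (2 * g) le_rfl, if_pos (by omega)]
    simp only [map_mul, map_inv, ← ho, ← ho', hPn, hu]
    group
  have f2 : ∀ k, k ≤ 2 * g → psi g ((wA (2 * g)).comp ((eL (2 * g)).comp (eE (2 * g))) (w k)) =
      (if k % 2 = 0 then o⁻¹ else o) * (p k)⁻¹ * o := by
    intro k hk
    rw [MonoidHom.comp_apply, MonoidHom.comp_apply, eLE g k hk]
    by_cases h : k % 2 = 0
    · rw [if_pos h, if_pos h]
      simp only [map_mul, map_inv, wA_self, wA_w _ _ (show 2 * g ≠ 2 * g + 1 by omega),
        wA_PP _ _ hk, p, ← ho, ← ho']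
      group
    · rw [if_neg h, if_neg h]
      simp only [map_mul, map_inv, wA_self, wA_w _ _ (show 2 * g ≠ 2 * g + 1 by omega),
        wA_PP _ _ hk, p, ← ho, ← ho']
      group
  have f2' : psi g ((wA (2 * g)).comp ((eL (2 * g)).comp (eE (2 * g))) (w (2 * g + 1))) =
      o * o' := by
    rw [MonoidHom.comp_apply, MonoidHom.comp_apply, eLE_last, wA_self, map_mul]
  have hy : u * o⁻¹ * o = u := by group
  apply modF_eq (u * o⁻¹)
  intro z
  have e1 : mk g (((D * A : orSub g) : MulAut (FG g)) z) =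
      psi g (((eL (2 * g)).comp (eE (2 * g))).comp (wA (2 * g)) (J g z)) := by
    rw [← psi_J, (hD.mul hA) z]
  have e2 : mk g (((A * D : orSub g) : MulAut (FG g)) z) =
      psi g ((wA (2 * g)).comp ((eL (2 * g)).comp (eE (2 * g))) (J g z)) := by
    rw [← psi_J, (hA.mul hD) z]
  rw [e1, e2]
  -- equality of two homomorphisms
  have key : ((psi g).comp (((eL (2 * g)).comp (eE (2 * g))).comp (wA (2 * g)))).comp (J g) =
      (((MulAut.conj (u * o⁻¹) : MulAut (SurfaceGroup g)) : SurfaceGroup g →* SurfaceGroup g).comp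
        ((psi g).comp ((wA (2 * g)).comp ((eL (2 * g)).comp (eE (2 * g)))))).comp (J g) := by
    apply free_ext
    · intro i
      have hi := i.2
      show psi g (((eL (2 * g)).comp (eE (2 * g))).comp (wA (2 * g)) (J g (fa i))) =
        (u * o⁻¹) * psi g ((wA (2 * g)).comp ((eL (2 * g)).comp (eE (2 * g))) (J g (fa i))) *
          (u * o⁻¹)⁻¹
      rw [J_fa]
      simp only [map_mul, map_inv]
      rw [f1 _ (by omega), f1 _ (by omega), f2 _ (by omega), f2 _ (by omega),
        if_neg (by omega), if_pos (by omega), if_neg (by omega), if_pos (by omega)]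
      group
    · intro i
      have hi := i.2
      show psi g (((eL (2 * g)).comp (eE (2 * g))).comp (wA (2 * g)) (J g (fb i))) =
        (u * o⁻¹) * psi g ((wA (2 * g)).comp ((eL (2 * g)).comp (eE (2 * g))) (J g (fb i))) *
          (u * o⁻¹)⁻¹
      rw [J_fb]
      simp only [map_mul, map_inv]
      by_cases hl : (i : ℕ) + 1 = g
      · rw [show 2 * (i : ℕ) + 3 = 2 * g + 1 by omega, f1', f2', f1 _ (by omega),
          f2 _ (by omega), if_neg (by omega), if_neg (by omega), hu]
        group
      · rw [f1 _ (by omega), f1 _ (by omega), f2 _ (by omega), f2 _ (by omega),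
          if_neg (by omega), if_neg (by omega), if_neg (by omega), if_neg (by omega)]
        group
  exact DFunLike.congr_fun key z

/-- the homology class of the image of the last `a` under the pure braid -/
theorem class_last (hg : 0 < g) {D : orSub g} (hD : JL D ((eL (2 * g)).comp (eE (2 * g)))) :
    fcl g ((D : MulAut (FG g)) (fa ⟨g - 1, by omega⟩)) = - fcl g (fa ⟨g - 1, by omega⟩) := by
  set o := psi g (w (2 * g + 1)) with ho
  set o' := psi g (w (2 * g)) with ho'
  have hPn : psi g (PP (2 * g)) = o * o' * o⁻¹ := psi_PP g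
  have h1 : mk g ((D : MulAut (FG g)) (fa ⟨g - 1, by omega⟩)) =
      psi g ((eL (2 * g)).comp (eE (2 * g)) (w (2 * (g - 1) + 1))) * o'⁻¹ *
        (psi g ((eL (2 * g)).comp (eE (2 * g)) (w (2 * (g - 1) + 1))))⁻¹ := by
    rw [← psi_J, hD, J_fa]
    simp only [map_mul, map_inv]
    have h2 : psi g ((eL (2 * g)).comp (eE (2 * g)) (w (2 * (g - 1) + 2))) = o'⁻¹ := by
      rw [show 2 * (g - 1) + 2 = 2 * g by omega, MonoidHom.comp_apply, eLE g (2 * g) le_rfl,
        if_pos (by omega)]
      simp only [map_mul, map_inv, ← ho, ← ho', hPn]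
      group
    rw [h2]
  have h3 : mk g (fa ⟨g - 1, by omega⟩) = psi g (w (2 * (g - 1) + 1)) * o' *
      (psi g (w (2 * (g - 1) + 1)))⁻¹ := by
    rw [← psi_J, J_fa]
    simp only [map_mul, map_inv]
    rw [show 2 * (g - 1) + 2 = 2 * g by omega]
  unfold fcl
  rw [h1, h3]
  simp only [hc_mul, hc_inv]
  abel

end

end Pool.Agent.Q290.MG
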