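import Mathlib
import Pool.Agent.Q290.MG.Full
import Pool.Agent.TH35.MG.Low
import Pool.Agent.TH35.MG.Hlev

set_option autoImplicit false

/-! Products of words in the handles: `E t` is the product over the handles `i` of the word `t i`
in `a_i = ρ(A_i) - 1` and `b_i = ρ(B_i) - 1`. -/

namespace Pool.Agent.Q290.MG

open Pool.Agent.H798R3.MG Pool.Agent.H29R2.MG Pool.Agent.TH35.MG

section lists
variable {ι M : Type*} [Monoid M]

theorem list_mul (l : List ι) (hnd : l.Nodup) (x y : ι → M)
    (hc : ∀ i ∈ l, ∀ j ∈ l, i ≠ j → Commute (x i) (y j)) :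
    (l.map x).prod * (l.map y).prod = (l.map (fun i => x i * y i)).prod := by
  induction l with
  | nil => simp
  | cons k l ih =>
    rw [List.nodup_cons] at hnd
    simp only [List.map_cons, List.prod_cons]
    rw [← ih hnd.2 (fun i hi j hj => hc i (List.mem_cons_of_mem _ hi) j
      (List.mem_cons_of_mem _ hj))]
    have h1 : Commute (l.map x).prod (y k) := by
      apply Commute.list_prod_left
      intro z hz
      obtain ⟨i, hi, rfl⟩ := List.mem_map.1 hz
      exact hc i (List.mem_cons_of_mem _ hi) k List.mem_cons_self (fun h => hnd.1 (h ▸ hi))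
    calc x k * (l.map x).prod * (y k * (l.map y).prod)
        = x k * ((l.map x).prod * y k) * (l.map y).prod := by simp only [mul_assoc]
      _ = x k * (y k * (l.map x).prod) * (l.map y).prod := by rw [h1.eq]
      _ = _ := by simp only [mul_assoc]

theorem fin_perm {N : ℕ} (σ : Equiv.Perm (Fin N)) (x : Fin N → M)
    (hc : ∀ i j, i ≠ j → Commute (x i) (x j)) :
    ((List.finRange N).map (fun i => x (σ i))).prod = ((List.finRange N).map x).prod := by
  apply List.Perm.prod_eq'
  · have h := (Equiv.Perm.map_finRange_perm σ).map x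
    rw [List.map_map] at h
    exact h
  · rw [List.pairwise_map]
    exact (List.nodup_finRange N).imp fun {i j} hij => hc _ _ (fun h => hij (σ.injective h))

end lists

section
variable {K V G : Type*} [Field K] [AddCommGroup V] [Module K V] [Group G]

/-- the letter `a_i` or `b_i` -/
def lt (ρ : G →* Module.End K V) (A B : ℕ → G) (i : ℕ) (c : Bool) : Module.End K V :=
  if c then ρ (A i) - 1 else ρ (B i) - 1

/-- a word in `a_i`, `b_i` -/
def ev (ρ : G →* Module.End K V) (A B : ℕ → G) (i : ℕ) (w : List Bool) : Module.End K V :=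
  (w.map (lt ρ A B i)).prod

/-- the product over all handles -/
def E (ρ : G →* Module.End K V) (A B : ℕ → G) {N : ℕ} (t : Fin N → List Bool) :
    Module.End K V :=
  ((List.finRange N).map (fun i : Fin N => ev ρ A B i (t i))).prod

variable {ρ : G →* Module.End K V} {A B T : ℕ → G} {N : ℕ}

theorem ev_nil (i : ℕ) : ev ρ A B i [] = 1 := by simp [ev]

theorem ev_cons (i : ℕ) (c : Bool) (w : List Bool) :
    ev ρ A B i (c :: w) = lt ρ A B i c * ev ρ A B i w := by simp [ev]

theorem ev_append (i : ℕ) (w w' : List Bool) :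
    ev ρ A B i (w ++ w') = ev ρ A B i w * ev ρ A B i w' := by simp [ev]

/-- an endomorphism commuting with `A_i`, `B_i` commutes with all words of the handle -/
theorem comm_lt {i : ℕ} {y : Module.End K V} (h1 : Commute y (ρ (A i)))
    (h2 : Commute y (ρ (B i))) (c : Bool) : Commute y (lt ρ A B i c) := by
  unfold lt
  split_ifs
  · exact h1.sub_right (Commute.one_right _)
  · exact h2.sub_right (Commute.one_right _)

theorem comm_ev {i : ℕ} {y : Module.End K V} (h1 : Commute y (ρ (A i)))
    (h2 : Commute y (ρ (B i))) (w : List Bool) : Commute y (ev ρ A B i w) := by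
  induction w with
  | nil => rw [ev_nil]; exact Commute.one_right _
  | cons c w ih => rw [ev_cons]; exact (comm_lt h1 h2 c).mul_right ih

theorem ev_comm (r : HR N A B T) {i j : ℕ} (hi : i < N) (hj : j < N) (hij : i ≠ j)
    (w w' : List Bool) : Commute (ev ρ A B i w) (ev ρ A B j w') := by
  apply comm_ev
  · exact (comm_ev ((r.commAA j hj i hi).map ρ) ((r.commAB j hj i hi hij.symm).map ρ) w).symm
  · exact (comm_ev (((r.commAB i hi j hj hij).symm).map ρ) ((r.commBB j hj i hi).map ρ) w).symm

theorem E_comm {y : Module.End K V} {t : Fin N → List Bool}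
    (h : ∀ i : Fin N, t i ≠ [] → Commute y (ρ (A i)) ∧ Commute y (ρ (B i))) :
    Commute y (E ρ A B t) := by
  unfold E
  apply Commute.list_prod_right
  intro z hz
  obtain ⟨i, _, rfl⟩ := List.mem_map.1 hz
  by_cases hi : t i = []
  · rw [hi, ev_nil]; exact Commute.one_right _
  · exact comm_ev (h i hi).1 (h i hi).2 _

theorem E_mul (r : HR N A B T) (t t' : Fin N → List Bool) :
    E ρ A B t * E ρ A B t' = E ρ A B (fun i => t i ++ t' i) := by
  unfold E
  rw [list_mul _ (List.nodup_finRange N)]
  · congr 1
    apply List.map_congr_left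
    intro i _
    rw [ev_append]
  · intro i _ j _ hij
    exact ev_comm r i.2 j.2 (fun h => hij (Fin.ext h)) _ _

theorem E_single (i : Fin N) (w : List Bool) :
    E ρ A B (fun k => if k = i then w else []) = ev ρ A B i w := by
  unfold E
  rw [List.prod_map_eq_pow_single i]
  · rw [List.count_eq_one_of_mem (List.nodup_finRange N) (List.mem_finRange i),
      pow_one]
    simp only [if_true]
  · intro k hk _
    simp only [hk, if_false]
    exact ev_nil _

/-- one handle is taken out -/
theorem E_out (r : HR N A B T) (t : Fin N → List Bool) (i : Fin N) (w : List Bool) :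
    E ρ A B (Function.update t i w) = ev ρ A B i w * E ρ A B (Function.update t i []) := by
  rw [← E_single i w, E_mul r]
  congr 1
  funext k
  by_cases h : k = i
  · subst h
    rw [Function.update_self, if_pos rfl, Function.update_self, List.append_nil]
  · rw [Function.update_of_ne h, if_neg h, Function.update_of_ne h, List.nil_append]

/-! ### symmetries -/

/-- exchange of the two letters -/
def sw (f : Bool) (w : List Bool) : List Bool := if f then w.map (fun c => !c) else w

/-- `w` moves the handles by `σ` and exchanges `A` and `B` in the handles marked by `F` -/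
structure Mv (A B : ℕ → G) (w : G) (σ : Equiv.Perm (Fin N)) (F : Fin N → Bool) : Prop where
  hA : ∀ i : Fin N, w * A i * w⁻¹ = if F i then B (σ i) else A (σ i)
  hB : ∀ i : Fin N, w * B i * w⁻¹ = if F i then A (σ i) else B (σ i)

theorem Mv.comp {w w' : G} {σ σ' : Equiv.Perm (Fin N)} {F F' : Fin N → Bool}
    (h : Mv A B w σ F) (h' : Mv A B w' σ' F') :
    Mv A B (w' * w) (σ' * σ) (fun i => Bool.xor (F i) (F' (σ i))) := by
  constructor
  · intro i
    have e : w' * w * A i * (w' * w)⁻¹ = w' * (w * A i * w⁻¹) * w'⁻¹ := by group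
    rw [e, h.hA i]
    cases hF : F i
    · simp only [Bool.false_eq_true, if_false, Bool.false_xor]
      rw [h'.hA (σ i)]; rfl
    · simp only [if_true, Bool.true_xor]
      rw [h'.hB (σ i)]
      cases F' (σ i) <;> rfl
  · intro i
    have e : w' * w * B i * (w' * w)⁻¹ = w' * (w * B i * w⁻¹) * w'⁻¹ := by group
    rw [e, h.hB i]
    cases hF : F i
    · simp only [Bool.false_eq_true, if_false, Bool.false_xor]
      rw [h'.hB (σ i)]; rfl
    · simp only [if_true, Bool.true_xor]
      rw [h'.hA (σ i)]
      cases F' (σ i) <;> rfl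

/-- all permutations of the handles are available -/
theorem mv_perm (r : HR N A B T) (σ : Equiv.Perm (Fin N)) :
    ∃ w : G, Mv A B w σ (fun _ => false) := by
  cases N with
  | zero => exact ⟨1, ⟨fun i => i.elim0, fun i => i.elim0⟩⟩
  | succ n =>
    have hmem : σ ∈ Submonoid.closure
        (Set.range fun i : Fin n ↦ Equiv.swap i.castSucc i.succ) := by
      rw [Equiv.Perm.mclosure_swap_castSucc_succ]; trivial
    induction hmem using Submonoid.closure_induction with
    | mem τ hτ =>
      obtain ⟨k, rfl⟩ := hτ
      have hk : (k : ℕ) + 1 < n + 1 := by omega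
      refine ⟨Ss A B T k, ⟨fun i => ?_, fun i => ?_⟩⟩
      · simp only [Bool.false_eq_true, if_false]
        by_cases h1 : i = k.castSucc
        · subst h1
          rw [Equiv.swap_apply_left]
          have h2 := r.sA k hk
          show Ss A B T k * A (k : ℕ) * (Ss A B T k)⁻¹ = A ((k : ℕ) + 1)
          rw [h2]; group
        · by_cases h1' : i = k.succ
          · subst h1'
            rw [Equiv.swap_apply_right]
            have h2 := r.sA' k hk
            show Ss A B T k * A ((k : ℕ) + 1) * (Ss A B T k)⁻¹ = A (k : ℕ)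
            rw [h2]; group
          · rw [Equiv.swap_apply_of_ne_of_ne h1 h1']
            have e1 : (i : ℕ) ≠ k := fun h => h1 (Fin.ext h)
            have e2 : (i : ℕ) ≠ (k : ℕ) + 1 := fun h => h1' (Fin.ext h)
            have c1 : Commute (Ss A B T k) (A i) :=
              Ss_comm (r.commAA _ (by omega) i i.2) (r.commAB i i.2 _ (by omega) e1).symm
                (r.commTA _ hk i i.2) (r.commAB i i.2 _ hk e2).symm (r.commAA _ hk i i.2)
            rw [c1.eq]; group
      · simp only [Bool.false_eq_true, if_false]
        by_cases h1 : i = k.castSucc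
        · subst h1
          rw [Equiv.swap_apply_left]
          have h2 := r.sB k hk
          show Ss A B T k * B (k : ℕ) * (Ss A B T k)⁻¹ = B ((k : ℕ) + 1)
          rw [h2]; group
        · by_cases h1' : i = k.succ
          · subst h1'
            rw [Equiv.swap_apply_right]
            have h2 := r.sB' k hk
            show Ss A B T k * B ((k : ℕ) + 1) * (Ss A B T k)⁻¹ = B (k : ℕ)
            rw [h2]; group
          · rw [Equiv.swap_apply_of_ne_of_ne h1 h1']
            have e1 : (i : ℕ) ≠ k := fun h => h1 (Fin.ext h)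
            have e2 : (i : ℕ) ≠ (k : ℕ) + 1 := fun h => h1' (Fin.ext h)
            have c2 : Commute (Ss A B T k) (B i) :=
              Ss_comm (r.commAB _ (by omega) i i.2 e1.symm) (r.commBB _ (by omega) i i.2)
                (r.commTB _ hk i i.2 e1 e2) (r.commBB _ hk i i.2)
                (r.commAB _ hk i i.2 e2.symm)
            rw [c2.eq]; group
    | one => exact ⟨1, ⟨fun i => by simp, fun i => by simp⟩⟩
    | mul τ τ' _ _ h1 h2 =>
      obtain ⟨w, hw⟩ := h1
      obtain ⟨w', hw'⟩ := h2
      refine ⟨w * w', ?_⟩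
      have := Mv.comp hw' hw
      simpa using this

/-- exchange of `A` and `B` in one handle -/
theorem mv_flip (r : HR N A B T) (i0 : Fin N) :
    Mv A B (Rw (A i0) (B i0)) (1 : Equiv.Perm (Fin N)) (fun i => decide (i = i0)) := by
  have hb := r.braidAB i0 i0.2
  constructor
  · intro i
    rw [Equiv.Perm.one_apply]
    by_cases h : i = i0
    · subst h
      simp only [decide_true, if_true]
      unfold Rw
      have e : A i * B i * A i * A i = B i * (A i * B i * A i) := by
        calc A i * B i * A i * A i = (A i * B i * A i) * A i := by group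
          _ = (B i * A i * B i) * A i := by rw [hb]
          _ = _ := by group
      rw [e]; group
    · simp only [h, decide_false, Bool.false_eq_true, if_false]
      have e1 : (i : ℕ) ≠ i0 := fun h' => h (Fin.ext h')
      have c1 : Commute (Rw (A i0) (B i0)) (A i) :=
        Rw_comm (r.commAA _ i0.2 i i.2) (r.commAB i i.2 _ i0.2 e1).symm
      rw [c1.eq]; group
  · intro i
    rw [Equiv.Perm.one_apply]
    by_cases h : i = i0
    · subst h
      simp only [decide_true, if_true]
      unfold Rw
      have e : A i * B i * A i * B i = A i * (A i * B i * A i) := by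
        calc A i * B i * A i * B i = A i * (B i * A i * B i) := by group
          _ = A i * (A i * B i * A i) := by rw [hb]
      rw [e]; group
    · simp only [h, decide_false, Bool.false_eq_true, if_false]
      have e1 : (i : ℕ) ≠ i0 := fun h' => h (Fin.ext h')
      have c1 : Commute (Rw (A i0) (B i0)) (B i) :=
        Rw_comm (r.commAB _ i0.2 i i.2 e1.symm) (r.commBB _ i0.2 i i.2)
      rw [c1.eq]; group

/-- all exchanges are available -/
theorem mv_all (r : HR N A B T) (σ : Equiv.Perm (Fin N)) (F : Fin N → Bool) :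
    ∃ w : G, Mv A B w σ F := by
  have key : ∀ S : Finset (Fin N), ∃ w : G, Mv A B w (1 : Equiv.Perm (Fin N))
      (fun i => decide (i ∈ S)) := by
    intro S
    induction S using Finset.induction_on with
    | empty => exact ⟨1, ⟨fun i => by simp, fun i => by simp⟩⟩
    | insert a s ha ih =>
      obtain ⟨w, hw⟩ := ih
      refine ⟨Rw (A a) (B a) * w, ?_⟩
      have h := Mv.comp hw (mv_flip r a)
      have e1 : (1 : Equiv.Perm (Fin N)) * 1 = 1 := one_mul 1
      rw [e1] at h
      have e2 : (fun i => Bool.xor (decide (i ∈ s)) (decide ((1 : Equiv.Perm (Fin N)) i = a)))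
          = (fun i => decide (i ∈ insert a s)) := by
        funext i
        by_cases h1 : i = a
        · subst h1; simp [ha]
        · simp [h1]
      rw [e2] at h
      exact h
  obtain ⟨w, hw⟩ := key (Finset.univ.filter (fun i => F i = true))
  obtain ⟨w', hw'⟩ := mv_perm r σ
  refine ⟨w' * w, ?_⟩
  have h := Mv.comp hw hw'
  rw [mul_one] at h
  have e2 : (fun i => Bool.xor (decide (i ∈ Finset.univ.filter (fun i => F i = true))) false)
      = F := by
    funext i
    simp
  rw [e2] at h
  exact h

theorem conj_ev {w : G} {σ : Equiv.Perm (Fin N)} {F : Fin N → Bool} (h : Mv A B w σ F)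
    (i : Fin N) (z : List Bool) :
    ρ w * ev ρ A B i z * ρ w⁻¹ = ev ρ A B (σ i) (sw (F i) z) := by
  have h0 : ρ w⁻¹ * ρ w = 1 := by rw [← map_mul, inv_mul_cancel, map_one]
  have h0' : ρ w * ρ w⁻¹ = 1 := by rw [← map_mul, mul_inv_cancel, map_one]
  have hc : ∀ x : G, ρ w * (ρ x - 1) * ρ w⁻¹ = ρ (w * x * w⁻¹) - 1 := by
    intro x
    rw [mul_sub, sub_mul, mul_one, h0', map_mul, map_mul]
  have hl : ∀ c : Bool, ρ w * lt ρ A B i c * ρ w⁻¹ =
      lt ρ A B (σ i) (if F i then !c else c) := by
    intro c
    unfold lt
    cases c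
    · simp only [Bool.false_eq_true, if_false, Bool.not_false]
      rw [hc, h.hB]
      cases F i <;> simp
    · simp only [if_true, Bool.not_true]
      rw [hc, h.hA]
      cases F i <;> simp
  induction z with
  | nil =>
    have : sw (F i) [] = [] := by unfold sw; split_ifs <;> rfl
    rw [this, ev_nil, ev_nil, mul_one, h0']
  | cons c z ih =>
    have e : sw (F i) (c :: z) = (if F i then !c else c) :: sw (F i) z := by
      unfold sw; split_ifs <;> rfl
    rw [e, ev_cons, ev_cons, ← ih, ← hl c]
    calc ρ w * (lt ρ A B i c * ev ρ A B i z) * ρ w⁻¹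
        = ρ w * lt ρ A B i c * 1 * ev ρ A B i z * ρ w⁻¹ := by noncomm_ring
      _ = _ := by rw [← h0]; noncomm_ring

theorem conj_E (r : HR N A B T) {w : G} {σ : Equiv.Perm (Fin N)} {F : Fin N → Bool}
    (h : Mv A B w σ F) (t : Fin N → List Bool) :
    ρ w * E ρ A B t * ρ w⁻¹ = E ρ A B (fun i => sw (F (σ.symm i)) (t (σ.symm i))) := by
  have h0 : ρ w⁻¹ * ρ w = 1 := by rw [← map_mul, inv_mul_cancel, map_one]
  have h0' : ρ w * ρ w⁻¹ = 1 := by rw [← map_mul, mul_inv_cancel, map_one]
  have h1 : ∀ l : List (Fin N), ρ w * (l.map (fun i : Fin N => ev ρ A B i (t i))).prod * ρ w⁻¹ =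
      (l.map (fun i : Fin N => ev ρ A B (σ i) (sw (F i) (t i)))).prod := by
    intro l
    induction l with
    | nil => simp [h0']
    | cons k l ih =>
      simp only [List.map_cons, List.prod_cons]
      rw [← ih, ← conj_ev h k (t k)]
      calc ρ w * (ev ρ A B k (t k) * (l.map (fun i : Fin N => ev ρ A B i (t i))).prod) * ρ w⁻¹
          = ρ w * ev ρ A B k (t k) * 1 * (l.map (fun i : Fin N => ev ρ A B i (t i))).prod * ρ w⁻¹ := by
            noncomm_ring
        _ = _ := by rw [← h0]; noncomm_ring
  unfold E
  rw [h1]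
  rw [← fin_perm σ (fun i => ev ρ A B i (sw (F (σ.symm i)) (t (σ.symm i))))]
  · congr 1
    apply List.map_congr_left
    intro i _
    rw [Equiv.symm_apply_apply]
  · intro i j hij
    exact ev_comm r i.2 j.2 (fun h => hij (Fin.ext h)) _ _

/-- symmetric families vanish together -/
theorem E_symm (r : HR N A B T) (σ : Equiv.Perm (Fin N)) (F : Fin N → Bool)
    (t : Fin N → List Bool) (h : E ρ A B (fun i => sw (F (σ.symm i)) (t (σ.symm i))) = 0) :
    E ρ A B t = 0 := by
  obtain ⟨w, hw⟩ := mv_all r σ F
  have h1 := conj_E (ρ := ρ) r hw t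
  rw [h] at h1
  have h0 : ρ w⁻¹ * ρ w = 1 := by rw [← map_mul, inv_mul_cancel, map_one]
  calc E ρ A B t = ρ w⁻¹ * ρ w * E ρ A B t * (ρ w⁻¹ * ρ w) := by rw [h0, one_mul, mul_one]
    _ = ρ w⁻¹ * (ρ w * E ρ A B t * ρ w⁻¹) * ρ w := by noncomm_ring
    _ = 0 := by rw [h1, mul_zero, zero_mul]

end

end Pool.Agent.Q290.MG
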