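import Mathlib
import Pool.Agent.Q290.MG.Wd

set_option autoImplicit false

/-! The level of a representation and its dimension. -/

namespace Pool.Agent.Q290.MG

open Pool.Agent.H798R3.MG Pool.Agent.H29R2.MG Pool.Agent.TH35.MG Module

section
variable {K V G : Type*} [Field K] [AddCommGroup V] [Module K V] [Group G]
variable {ρ : G →* Module.End K V} {A B T : ℕ → G} {N : ℕ}

/-- the handles which really occur -/
def sp (t : Fin N → List Bool) : Finset (Fin N) := Finset.univ.filter (fun i => t i ≠ [])

theorem mem_sp {t : Fin N → List Bool} {i : Fin N} : i ∈ sp t ↔ t i ≠ [] := by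
  simp [sp]

/-- a family of first letters vanishes if the product of the `a_i` over a set of the same size
vanishes -/
theorem P_symm (r : HR N A B T) {S S' : Finset (Fin N)} (hc : S.card = S'.card)
    (h : E ρ A B (fun i : Fin N => if i ∈ S then [true] else []) = 0) (c : Fin N → Bool) :
    E ρ A B (fun i : Fin N => if i ∈ S' then [c i] else []) = 0 := by
  classical
  have e : {x // x ∈ S'} ≃ {x // x ∈ S} := Fintype.equivOfCardEq (by simp [hc])
  set σ : Equiv.Perm (Fin N) := e.extendSubtype with hσ
  have hmem : ∀ k, σ k ∈ S ↔ k ∈ S' := by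
    intro k
    constructor
    · intro hk
      by_contra hk'
      exact e.extendSubtype_not_mem k hk' hk
    · intro hk
      exact e.extendSubtype_mem k hk
  apply E_symm r σ (fun i => !(c i))
  have e2 : (fun i : Fin N => sw (!(c (σ.symm i)))
      (if σ.symm i ∈ S' then [c (σ.symm i)] else [])) =
      (fun i : Fin N => if i ∈ S then [true] else []) := by
    funext i
    have h1 := hmem (σ.symm i)
    rw [Equiv.apply_symm_apply] at h1
    by_cases h2 : i ∈ S
    · rw [if_pos h2, if_pos (h1.1 h2)]
      cases c (σ.symm i) <;> rfl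
    · rw [if_neg h2, if_neg (fun h3 => h2 (h1.2 h3))]
      cases c (σ.symm i) <;> rfl
  rw [e2]
  exact h

/-- everything with at least `m` handles vanishes -/
theorem E_van (r : HR N A B T) {S : Finset (Fin N)}
    (h : E ρ A B (fun i : Fin N => if i ∈ S then [true] else []) = 0) (t : Fin N → List Bool)
    (ht : S.card ≤ (sp t).card) : E ρ A B t = 0 := by
  classical
  obtain ⟨S', hS', hc⟩ := Finset.exists_subset_card_eq ht
  have e : t = fun i : Fin N => (if i ∈ S' then [(t i).headD true] else []) ++
      (if i ∈ S' then (t i).tail else t i) := by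
    funext i
    by_cases h1 : i ∈ S'
    · rw [if_pos h1, if_pos h1]
      have h2 := mem_sp.1 (hS' h1)
      cases h3 : t i with
      | nil => exact absurd h3 h2
      | cons x y => rfl
    · rw [if_neg h1, if_neg h1]; rfl
  rw [e, ← E_mul r, P_symm r hc.symm h, zero_mul]

/-- lists of handles -/
theorem list_E (r : HR N A B T) (t : ℕ → List Bool) (l : List ℕ) (hnd : l.Nodup)
    (hl : ∀ i ∈ l, i < N) : (l.map (fun i => ev ρ A B i (t i))).prod =
      E ρ A B (fun i : Fin N => if (i : ℕ) ∈ l then t i else []) := by
  induction l with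
  | nil =>
    have h1 : E ρ A B (fun i : Fin N => ([] : List Bool)) = 1 := by
      unfold E
      have : (fun i : Fin N => ev ρ A B i ([] : List Bool)) = fun _ => 1 := by
        funext i; exact ev_nil _
      rw [this]
      simp
    simp only [List.map_nil, List.prod_nil, List.not_mem_nil, if_false]
    exact h1.symm
  | cons k l ih =>
    rw [List.nodup_cons] at hnd
    have hk : k < N := hl k List.mem_cons_self
    rw [List.map_cons, List.prod_cons, ih hnd.2 (fun i hi => hl i (List.mem_cons_of_mem _ hi))]
    have h1 := E_single (ρ := ρ) (A := A) (B := B) (⟨k, hk⟩ : Fin N) (t k)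
    have h2 : ev ρ A B k (t k) = E ρ A B (fun j : Fin N => if j = ⟨k, hk⟩ then t k else []) :=
      h1.symm
    rw [h2, E_mul r]
    congr 1
    funext i
    by_cases h3 : i = ⟨k, hk⟩
    · subst h3
      rw [if_pos rfl, if_neg hnd.1, List.append_nil, if_pos List.mem_cons_self]
    · have h4 : (i : ℕ) ≠ k := fun h => h3 (Fin.ext h)
      rw [if_neg h3, List.nil_append]
      by_cases h5 : (i : ℕ) ∈ l
      · rw [if_pos h5, if_pos (List.mem_cons_of_mem _ h5)]
      · rw [if_neg h5, if_neg]
        intro h6
        rcases List.mem_cons.1 h6 with h7 | h7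
        · exact h4 h7
        · exact h5 h7

theorem ev_one (i : ℕ) (c : Bool) : ev ρ A B i [c] = lt ρ A B i c := by
  rw [ev_cons, ev_nil, mul_one]

/-- squares vanish at the top level: a special case -/
theorem sq_base (r : HR N A B T) {j : ℕ} (hj1 : 1 ≤ j) (hj2 : j + 2 ≤ N)
    (hz : ∀ t : Fin N → List Bool, j + 1 ≤ (sp t).card → E ρ A B t = 0) :
    E ρ A B (fun i : Fin N => if (i : ℕ) = N - j then [true, true] else
      if N - j < (i : ℕ) then [true] else []) = 0 := by
  have h1 : (ρ (A (N - j - 2 + 1)) - 1) ^ 1 * Xp ρ N A (N - j - 2 + 1) = 0 := by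
    rw [pow_one, ← Xp_succ ρ N A (N - j - 2) (by omega)]
    unfold Xp
    have e : (fun i => ρ (A i) - 1) = fun i => ev ρ A B i [true] := by
      funext i; rw [ev_one]; rfl
    rw [e, list_E r (fun _ => [true]) _ List.nodup_range' (by
      intro i hi; rw [List.mem_range'_1] at hi; omega)]
    apply hz
    have h2 : (Finset.univ.filter (fun i : Fin N => N - j - 2 < (i : ℕ))) ⊆
        sp (fun i : Fin N => if (i : ℕ) ∈ List.range' (N - j - 2 + 1) (N - 1 - (N - j - 2))
          then [true] else []) := by
      intro i hi
      rw [Finset.mem_filter] at hi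
      rw [mem_sp, if_pos]
      · simp
      · rw [List.mem_range'_1]; have := i.2; omega
    refine le_trans ?_ (Finset.card_le_card h2)
    have h3 : (Finset.Ioo (N - j - 2) N).card ≤
        (Finset.univ.filter (fun i : Fin N => N - j - 2 < (i : ℕ))).card := by
      apply Finset.card_le_card_of_surjOn (fun i : Fin N => (i : ℕ))
      intro x hx
      simp only [Finset.coe_Ioo, Set.mem_Ioo] at hx
      exact ⟨⟨x, hx.2⟩, by simp [hx.1], rfl⟩
    rw [Nat.card_Ioo] at h3
    omega
  have h2 := lstep r ρ (N - j - 2) 1 (by omega) h1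
  have e1 : N - j - 2 + 2 = N - j := by omega
  rw [e1] at h2
  unfold Xp at h2
  have e : (fun i => ρ (A i) - 1) = fun i => ev ρ A B i [true] := by
    funext i; rw [ev_one]; rfl
  have e3 : (ρ (A (N - j)) - 1) ^ (1 + 1) = ev ρ A B (N - j) [true, true] := by
    rw [pow_succ, pow_one, ev_cons, ev_one]; rfl
  rw [e, e3, list_E r (fun _ => [true]) _ List.nodup_range' (by
      intro i hi; rw [List.mem_range'_1] at hi; omega)] at h2
  have hk : N - j < N := by omega
  have h4 : ev ρ A B (N - j) [true, true] =
      E ρ A B (fun k : Fin N => if k = ⟨N - j, hk⟩ then [true, true] else []) :=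
    (E_single (ρ := ρ) (A := A) (B := B) (⟨N - j, hk⟩ : Fin N) [true, true]).symm
  rw [h4, E_mul r] at h2
  rw [← h2]
  congr 1
  funext i
  by_cases h5 : (i : ℕ) = N - j
  · have h6 : i = ⟨N - j, hk⟩ := Fin.ext h5
    rw [if_pos h5, if_pos h6, if_neg]
    · rfl
    · rw [List.mem_range'_1]; omega
  · have h6 : i ≠ ⟨N - j, hk⟩ := fun h => h5 (by rw [h])
    rw [if_neg h5, if_neg h6, List.nil_append]
    by_cases h7 : N - j < (i : ℕ)
    · rw [if_pos h7, if_pos]
      rw [List.mem_range'_1]; have := i.2; omega
    · rw [if_neg h7, if_neg]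
      rw [List.mem_range'_1]; omega

/-- squares vanish at the top level -/
theorem sq_zero (r : HR N A B T) {j : ℕ} (hj1 : 1 ≤ j) (hj2 : j + 2 ≤ N)
    (hz : ∀ t : Fin N → List Bool, j + 1 ≤ (sp t).card → E ρ A B t = 0)
    (t : Fin N → List Bool) (hc : j ≤ (sp t).card) (i0 : Fin N) (w1 w2 : List Bool) (c : Bool)
    (ht : t i0 = w1 ++ c :: c :: w2) : E ρ A B t = 0 := by
  classical
  have hi0 : i0 ∈ sp t := by rw [mem_sp, ht]; simp
  have hc' : j - 1 ≤ ((sp t).erase i0).card := by
    rw [Finset.card_erase_of_mem hi0]; omega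
  obtain ⟨S, hS, hSc⟩ := Finset.exists_subset_card_eq hc'
  have hi0S : i0 ∉ S := fun h => by simpa using hS h
  -- the middle part
  let t2 : Fin N → List Bool := fun i => if i = i0 then [c, c] else
    if i ∈ S then [(t i).headD true] else []
  have hmid : E ρ A B t2 = 0 := by
    -- the permutation
    have hk : N - j < N := by omega
    let p : Fin N → Prop := fun i => i = i0 ∨ i ∈ S
    let q : Fin N → Prop := fun i => N - j ≤ (i : ℕ)
    have hcard : S.card = (Finset.univ.filter (fun i : Fin N => N - j < (i : ℕ))).card := by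
      rw [hSc]
      have h3 : (Finset.Ioo (N - j) N).card =
          (Finset.univ.filter (fun i : Fin N => N - j < (i : ℕ))).card := by
        symm
        apply Finset.card_bij (fun (i : Fin N) _ => (i : ℕ))
        · intro i hi
          rw [Finset.mem_filter] at hi
          rw [Finset.mem_Ioo]
          exact ⟨hi.2, i.2⟩
        · intro i _ i' _ h
          exact Fin.ext h
        · intro x hx
          rw [Finset.mem_Ioo] at hx
          exact ⟨⟨x, hx.2⟩, by simp [hx.1], rfl⟩
      rw [Nat.card_Ioo] at h3
      omega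
    let e0 : {x // x ∈ S} ≃ {x // x ∈ Finset.univ.filter (fun i : Fin N => N - j < (i : ℕ))} :=
      Fintype.equivOfCardEq (by rw [Fintype.card_coe, Fintype.card_coe]; exact hcard)
    let σ0 : Equiv.Perm (Fin N) := e0.extendSubtype
    have hσ0 : ∀ k, N - j < ((σ0 k : Fin N) : ℕ) ↔ k ∈ S := by
      intro k
      constructor
      · intro hk
        by_contra hk'
        apply e0.extendSubtype_not_mem k hk'
        simpa using hk
      · intro hk
        have := e0.extendSubtype_mem k hk
        simpa using this
    -- correct the place of i0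
    let σ : Equiv.Perm (Fin N) := Equiv.swap (σ0 i0) ⟨N - j, hk⟩ * σ0
    have hσi : σ i0 = ⟨N - j, hk⟩ := by
      show Equiv.swap (σ0 i0) ⟨N - j, hk⟩ (σ0 i0) = _
      rw [Equiv.swap_apply_left]
    have hσS : ∀ k, k ≠ i0 → (N - j < ((σ k : Fin N) : ℕ) ↔ k ∈ S) := by
      intro k hki
      show (N - j < ((Equiv.swap (σ0 i0) ⟨N - j, hk⟩ (σ0 k) : Fin N) : ℕ) ↔ k ∈ S)
      have h1 : σ0 k ≠ σ0 i0 := fun h => hki (σ0.injective h)
      by_cases h2 : σ0 k = ⟨N - j, hk⟩
      · rw [h2, Equiv.swap_apply_right]
        have h3 := hσ0 i0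
        have h4 := hσ0 k
        rw [h2] at h4
        constructor
        · intro h5
          exact absurd (h3.1 h5) hi0S
        · intro h5
          have := h4.2 h5
          simp at this
      · rw [Equiv.swap_apply_of_ne_of_ne h1 h2]
        exact hσ0 k
    let F : Fin N → Bool := fun i => if i = i0 then !c else !((t i).headD true)
    apply E_symm r σ F
    have hb := sq_base (ρ := ρ) r hj1 hj2 hz
    have e2 : (fun i : Fin N => sw (F (σ.symm i)) (t2 (σ.symm i))) =
        (fun i : Fin N => if (i : ℕ) = N - j then [true, true] else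
          if N - j < (i : ℕ) then [true] else []) := by
      funext i
      obtain ⟨k, rfl⟩ := σ.surjective i
      rw [Equiv.symm_apply_apply]
      by_cases h1 : k = i0
      · subst h1
        rw [hσi]
        simp only [if_true, t2, F]
        cases c <;> rfl
      · have h2 : ((σ k : Fin N) : ℕ) ≠ N - j := by
          intro h
          apply h1
          apply σ.injective
          rw [hσi]
          exact Fin.ext h
        rw [if_neg h2]
        simp only [t2, F, if_neg h1]
        by_cases h3 : k ∈ S
        · rw [if_pos h3, if_pos ((hσS k h1).2 h3)]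
          cases (t k).headD true <;> rfl
        · rw [if_neg h3, if_neg (fun h => h3 ((hσS k h1).1 h))]
          cases (t k).headD true <;> rfl
    rw [e2]
    exact hb
  have e : t = fun i : Fin N => (if i = i0 then w1 else []) ++ (t2 i ++
      (if i = i0 then w2 else if i ∈ S then (t i).tail else t i)) := by
    funext i
    by_cases h0 : i = i0
    · subst h0
      simp only [if_true, t2]
      rw [ht]; rfl
    · simp only [t2, if_neg h0]
      by_cases h1 : i ∈ S
      · rw [if_pos h1, if_pos h1]
        have h2 := mem_sp.1 (Finset.mem_of_mem_erase (hS h1))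
        cases h3 : t i with
        | nil => exact absurd h3 h2
        | cons x y => rfl
      · rw [if_neg h1, if_neg h1]; rfl
  rw [e, ← E_mul r, ← E_mul r, hmid, zero_mul, mul_zero]

end

end Pool.Agent.Q290.MG
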