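import Mathlib
import Pool.Agent.Q290.MG.Lvl

set_option autoImplicit false

/-! The level of a representation and its dimension, second part. -/

namespace Pool.Agent.Q290.MG

open Pool.Agent.H798R3.MG Pool.Agent.H29R2.MG Pool.Agent.TH35.MG Module

section
variable {K V G : Type*} [Field K] [AddCommGroup V] [Module K V] [Group G]
variable {ρ : G →* Module.End K V} {A B T : ℕ → G} {N : ℕ}

/-- the braid relation in terms of the letters -/
theorem braid_ev (r : HR N A B T) {i : ℕ} (hi : i < N) (c : Bool) :
    ev ρ A B i [c] + ev ρ A B i [c, c] + ev ρ A B i [c, !c, c] =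
      ev ρ A B i [!c] + ev ρ A B i [!c, !c] + ev ρ A B i [!c, c, !c] := by
  have h := r.braidAB i hi
  have h1 : ρ (A i) * ρ (B i) * ρ (A i) = ρ (B i) * ρ (A i) * ρ (B i) := by
    rw [← map_mul, ← map_mul, h, map_mul, map_mul]
  have key : ∀ x y : Module.End K V, x * y * x = y * x * y →
      (x - 1) + (x - 1) * (x - 1) + (x - 1) * (y - 1) * (x - 1) =
      (y - 1) + (y - 1) * (y - 1) + (y - 1) * (x - 1) * (y - 1) := by
    intro x y hxy
    have e1 : (x - 1) + (x - 1) * (x - 1) + (x - 1) * (y - 1) * (x - 1) =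
        x * y * x - (x * y + y * x) + (x + y) - 1 := by noncomm_ring
    have e2 : (y - 1) + (y - 1) * (y - 1) + (y - 1) * (x - 1) * (y - 1) =
        y * x * y - (x * y + y * x) + (x + y) - 1 := by noncomm_ring
    rw [e1, e2, hxy]
  cases c
  · have := key _ _ h1.symm
    simpa [ev, lt, mul_assoc] using this
  · have := key _ _ h1
    simpa [ev, lt, mul_assoc] using this

/-- one letter is replaced -/
theorem E_upd (r : HR N A B T) (t : Fin N → List Bool) (i : Fin N) (w : List Bool) :
    E ρ A B (Function.update t i w) = ev ρ A B i w * E ρ A B (Function.update t i []) :=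
  E_out r t i w

theorem sp_update {t : Fin N → List Bool} {i : Fin N} {w w' : List Bool} (hw' : w' ≠ []) :
    (sp (Function.update t i w)).card ≤ (sp (Function.update t i w')).card := by
  apply Finset.card_le_card
  intro k hk
  rw [mem_sp] at hk ⊢
  by_cases h : k = i
  · subst h
    rwa [Function.update_self]
  · rwa [Function.update_of_ne h] at hk ⊢

/-- `a = b` follows if `ab = 0 = ba` -/
theorem eq_ctx (r : HR N A B T) {j : ℕ} (hj1 : 1 ≤ j) (hj2 : j + 2 ≤ N)
    (hz : ∀ t : Fin N → List Bool, j + 1 ≤ (sp t).card → E ρ A B t = 0)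
    (t : Fin N → List Bool) (i : Fin N) (hc : j ≤ (sp (Function.update t i [true])).card)
    (h1 : E ρ A B (Function.update t i [true, false]) = 0)
    (h2 : E ρ A B (Function.update t i [false, true]) = 0) :
    E ρ A B (Function.update t i [true]) = E ρ A B (Function.update t i [false]) := by
  have hb := congrArg (fun z => z * E ρ A B (Function.update t i [])) (braid_ev (ρ := ρ) r i.2 true)
  simp only [add_mul, ← E_upd r] at hb
  have s1 : E ρ A B (Function.update t i [true, true]) = 0 :=
    sq_zero r hj1 hj2 hz _ (hc.trans (sp_update (by simp))) i [] [] true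
      (by rw [Function.update_self]; rfl)
  have s2 : E ρ A B (Function.update t i [!true, !true]) = 0 :=
    sq_zero r hj1 hj2 hz _ (hc.trans (sp_update (by simp))) i [] [] false
      (by rw [Function.update_self]; rfl)
  have s3 : E ρ A B (Function.update t i [true, !true, true]) = 0 := by
    have e : E ρ A B (Function.update t i [true, !true, true]) =
        ev ρ A B i [true] * E ρ A B (Function.update t i [false, true]) := by
      rw [E_upd r t i [false, true], E_upd r t i [true, !true, true], ← mul_assoc,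
        ← ev_append]; rfl
    rw [e, h2, mul_zero]
  have s4 : E ρ A B (Function.update t i [!true, true, !true]) = 0 := by
    have e : E ρ A B (Function.update t i [!true, true, !true]) =
        ev ρ A B i [false] * E ρ A B (Function.update t i [true, false]) := by
      rw [E_upd r t i [true, false], E_upd r t i [!true, true, !true], ← mul_assoc,
        ← ev_append]; rfl
    rw [e, h1, mul_zero]
  rw [s1, s2, s3, s4] at hb
  simpa using hb

/-- `abab = -ab` -/
theorem rel_ctx (r : HR N A B T) {j : ℕ} (hj1 : 1 ≤ j) (hj2 : j + 2 ≤ N)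
    (hz : ∀ t : Fin N → List Bool, j + 1 ≤ (sp t).card → E ρ A B t = 0)
    (t : Fin N → List Bool) (i : Fin N) (c : Bool)
    (hc : j ≤ (sp (Function.update t i [true])).card) :
    E ρ A B (Function.update t i [c, !c, c, !c]) = - E ρ A B (Function.update t i [c, !c]) := by
  have hb := congrArg (fun z => ev ρ A B i [c] * z * E ρ A B (Function.update t i []))
    (braid_ev (ρ := ρ) r i.2 c)
  simp only [mul_add, add_mul, ← ev_append] at hb
  simp only [← E_upd r, List.singleton_append] at hb
  have s1 : E ρ A B (Function.update t i [c, c]) = 0 :=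
    sq_zero r hj1 hj2 hz _ (hc.trans (sp_update (by simp))) i [] [] c
      (by rw [Function.update_self]; rfl)
  have s2 : E ρ A B (Function.update t i [c, c, c]) = 0 :=
    sq_zero r hj1 hj2 hz _ (hc.trans (sp_update (by simp))) i [] [c] c
      (by rw [Function.update_self]; rfl)
  have s3 : E ρ A B (Function.update t i [c, c, !c, c]) = 0 :=
    sq_zero r hj1 hj2 hz _ (hc.trans (sp_update (by simp))) i [] [!c, c] c
      (by rw [Function.update_self]; rfl)
  have s4 : E ρ A B (Function.update t i [c, !c, !c]) = 0 :=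
    sq_zero r hj1 hj2 hz _ (hc.trans (sp_update (by simp))) i [c] [] (!c)
      (by rw [Function.update_self]; rfl)
  rw [s1, s2, s3, s4] at hb
  simp only [add_zero] at hb
  exact (neg_eq_of_add_eq_zero_right hb.symm).symm

/-- the types of vectors -/
abbrev Ty (N j : ℕ) : Type :=
  Σ S : {S : Finset (Fin N) // S ∈ Finset.powersetCard j (Finset.univ : Finset (Fin N))},
    ({i // i ∈ S.1} → Bool)

theorem card_Ty (N j : ℕ) : Fintype.card (Ty N j) = 2 ^ j * N.choose j := by
  rw [Fintype.card_sigma]
  have h1 : ∀ S : {S : Finset (Fin N) // S ∈ Finset.powersetCard j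
      (Finset.univ : Finset (Fin N))}, Fintype.card ({i // i ∈ S.1} → Bool) = 2 ^ j := by
    intro S
    rw [Fintype.card_fun, Fintype.card_bool, Fintype.card_coe, (Finset.mem_powersetCard.1 S.2).2]
  rw [Finset.sum_congr rfl (fun S _ => h1 S), Finset.sum_const, Finset.card_univ,
    Fintype.card_coe, Finset.card_powersetCard, Finset.card_univ, Fintype.card_fin, smul_eq_mul,
    mul_comm]

/-- the words of a type -/
def tw {N j : ℕ} (x : Ty N j) : Fin N → List Bool := fun i =>
  if h : i ∈ x.1.1 then [x.2 ⟨i, h⟩, !(x.2 ⟨i, h⟩)] else []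

theorem tw_mem {N j : ℕ} (x : Ty N j) {i : Fin N} (h : i ∈ x.1.1) :
    tw x i = [x.2 ⟨i, h⟩, !(x.2 ⟨i, h⟩)] := by
  unfold tw; rw [dif_pos h]

theorem tw_not {N j : ℕ} (x : Ty N j) {i : Fin N} (h : i ∉ x.1.1) : tw x i = [] := by
  unfold tw; rw [dif_neg h]

theorem sp_tw {N j : ℕ} (x : Ty N j) : sp (tw x) = x.1.1 := by
  ext i
  rw [mem_sp]
  by_cases h : i ∈ x.1.1
  · rw [tw_mem x h]; simp [h]
  · rw [tw_not x h]; simp [h]

theorem card_tw {N j : ℕ} (x : Ty N j) : x.1.1.card = j := (Finset.mem_powersetCard.1 x.1.2).2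

/-- products of different types vanish -/
theorem orth (r : HR N A B T) {j : ℕ} (hj1 : 1 ≤ j) (hj2 : j + 2 ≤ N)
    (hz : ∀ t : Fin N → List Bool, j + 1 ≤ (sp t).card → E ρ A B t = 0) (x y : Ty N j)
    (hxy : x ≠ y) : E ρ A B (tw x) * E ρ A B (tw y) = 0 := by
  classical
  rw [E_mul r]
  have hsp : sp (fun i => tw x i ++ tw y i) = x.1.1 ∪ y.1.1 := by
    rw [← sp_tw x, ← sp_tw y]
    ext i
    simp only [mem_sp, Finset.mem_union, ne_eq, List.append_eq_nil_iff, not_and_or]
  by_cases hS : x.1 = y.1
  · obtain ⟨S, f⟩ := x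
    obtain ⟨S', f'⟩ := y
    simp only at hS
    subst hS
    have hf : f ≠ f' := fun h => hxy (by rw [h])
    obtain ⟨⟨i, hi⟩, hne⟩ := Function.ne_iff.1 hf
    apply sq_zero r hj1 hj2 hz _ _ i [f ⟨i, hi⟩] [f ⟨i, hi⟩] (!(f ⟨i, hi⟩))
    · show tw _ i ++ tw _ i = _
      rw [tw_mem (⟨S, f⟩ : Ty N j) hi, tw_mem (⟨S, f'⟩ : Ty N j) hi]
      have h1 : f' ⟨i, hi⟩ = !(f ⟨i, hi⟩) := by
        cases h2 : f ⟨i, hi⟩ <;> cases h3 : f' ⟨i, hi⟩ <;> simp_all
      simp only [h1, Bool.not_not]
      rfl
    · rw [hsp]
      have := card_tw (⟨S, f⟩ : Ty N j)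
      simp only [Finset.union_self]
      exact this.ge
  · apply hz
    rw [hsp]
    by_contra hlt
    push Not at hlt
    have h1 : x.1.1 ∪ y.1.1 = x.1.1 := by
      symm
      apply Finset.eq_of_subset_of_card_le Finset.subset_union_left
      rw [card_tw]; omega
    have h2 : x.1.1 ∪ y.1.1 = y.1.1 := by
      symm
      apply Finset.eq_of_subset_of_card_le Finset.subset_union_right
      rw [card_tw]; omega
    exact hS (Subtype.ext (h1.symm.trans h2))

/-- the squares of the types -/
theorem idem (r : HR N A B T) {j : ℕ} (hj1 : 1 ≤ j) (hj2 : j + 2 ≤ N)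
    (hz : ∀ t : Fin N → List Bool, j + 1 ≤ (sp t).card → E ρ A B t = 0) (x : Ty N j) :
    E ρ A B (tw x) * E ρ A B (tw x) = (-1) ^ j * E ρ A B (tw x) := by
  classical
  rw [E_mul r]
  have key : ∀ S : Finset (Fin N), S ⊆ x.1.1 →
      E ρ A B (fun i => if i ∈ S then tw x i ++ tw x i else tw x i) =
        (-1) ^ S.card * E ρ A B (tw x) := by
    intro S
    induction S using Finset.induction_on with
    | empty => intro _; simp
    | insert a S ha ih =>
      intro hS
      have hax : a ∈ x.1.1 := hS (Finset.mem_insert_self _ _)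
      have ih' := ih (fun i hi => hS (Finset.mem_insert_of_mem hi))
      set t : Fin N → List Bool := fun i => if i ∈ S then tw x i ++ tw x i else tw x i with ht
      have e1 : (fun i => if i ∈ insert a S then tw x i ++ tw x i else tw x i) =
          Function.update t a ([x.2 ⟨a, hax⟩, !(x.2 ⟨a, hax⟩), x.2 ⟨a, hax⟩,
            !(x.2 ⟨a, hax⟩)]) := by
        funext i
        by_cases h : i = a
        · subst h
          rw [Function.update_self, if_pos (Finset.mem_insert_self _ _), tw_mem x hax]; rfl
        · rw [Function.update_of_ne h]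
          simp only [ht, Finset.mem_insert, h, false_or]
      have e2 : t = Function.update t a ([x.2 ⟨a, hax⟩, !(x.2 ⟨a, hax⟩)]) := by
        funext i
        by_cases h : i = a
        · subst h
          rw [Function.update_self]
          simp only [ht, if_neg ha]
          exact tw_mem x hax
        · rw [Function.update_of_ne h]
      have hc : j ≤ (sp (Function.update t a [true])).card := by
        rw [← card_tw x]
        apply Finset.card_le_card
        intro i hi
        rw [mem_sp]
        by_cases h : i = a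
        · subst h; rw [Function.update_self]; simp
        · rw [Function.update_of_ne h]
          simp only [ht]
          split_ifs <;> rw [tw_mem x hi] <;> simp
      rw [e1, rel_ctx r hj1 hj2 hz t a _ hc, ← e2, ih', Finset.card_insert_of_notMem ha,
        pow_succ]
      noncomm_ring
  have h := key x.1.1 (Finset.Subset.refl _)
  rw [card_tw] at h
  rw [← h]
  congr 1
  funext i
  by_cases hi : i ∈ x.1.1
  · rw [if_pos hi]
  · rw [if_neg hi, tw_not x hi]; rfl

/-- if one type vanishes then all types vanish -/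
theorem ty_symm (r : HR N A B T) {j : ℕ} (x y : Ty N j) (h : E ρ A B (tw x) = 0) :
    E ρ A B (tw y) = 0 := by
  classical
  have e : {k // k ∈ y.1.1} ≃ {k // k ∈ x.1.1} := Fintype.equivOfCardEq (by
    rw [Fintype.card_coe, Fintype.card_coe, card_tw, card_tw])
  set σ : Equiv.Perm (Fin N) := e.extendSubtype with hσ
  have hmem : ∀ k, σ k ∈ x.1.1 ↔ k ∈ y.1.1 := by
    intro k
    constructor
    · intro hk
      by_contra hk'
      exact e.extendSubtype_not_mem k hk' hk
    · intro hk
      exact e.extendSubtype_mem k hk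
  let F : Fin N → Bool := fun k => decide ((tw y k).headD true ≠ (tw x (σ k)).headD true)
  apply E_symm r σ F
  rw [← h]
  congr 1
  funext i
  obtain ⟨k, rfl⟩ := σ.surjective i
  rw [Equiv.symm_apply_apply]
  by_cases hk : k ∈ y.1.1
  · have hk' := (hmem k).2 hk
    have h1 : F k = decide (y.2 ⟨k, hk⟩ ≠ x.2 ⟨σ k, hk'⟩) := by
      simp only [F]
      rw [tw_mem y hk, tw_mem x hk']
      rfl
    rw [h1, tw_mem y hk, tw_mem x hk']
    cases y.2 ⟨k, hk⟩ <;> cases x.2 ⟨σ k, hk'⟩ <;> rfl
  · have hk' : σ k ∉ x.1.1 := fun h => hk ((hmem k).1 h)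
    rw [tw_not y hk, tw_not x hk']
    cases F k <;> rfl

end

end Pool.Agent.Q290.MG
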