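import Mathlib
import Pool.Agent.Q290.MG.Lvl2

set_option autoImplicit false

/-! The level of a representation and its dimension, third part. -/

namespace Pool.Agent.Q290.MG

open Pool.Agent.H798R3.MG Pool.Agent.H29R2.MG Pool.Agent.TH35.MG Module

section
variable {K V G : Type*} [Field K] [AddCommGroup V] [Module K V] [Group G]
variable {ρ : G →* Module.End K V} {A B T : ℕ → G} {N : ℕ}

/-- from `a_p = b_p` on the other factors to `a_p = 0` on them -/
theorem ctx_zero (r : HR N A B T) (t : Fin N → List Bool) (p : Fin N) (hp : 2 ≤ (p : ℕ))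
    (ht : ∀ i ∈ sp t, 2 ≤ (i : ℕ))
    (h : E ρ A B (Function.update t p [true]) = E ρ A B (Function.update t p [false])) :
    E ρ A B (Function.update t p [true]) = 0 := by
  rw [E_upd r t p [true]] at h ⊢
  rw [E_upd r t p [false]] at h
  rw [ev_one] at h ⊢
  rw [ev_one] at h
  have h3 := blk_on r ρ hp p.2 (LinearMap.range (E ρ A B (Function.update t p []))) (by
    rintro x hx v ⟨u, rfl⟩
    refine ⟨ρ x u, ?_⟩
    have h5 : Commute (ρ x) (E ρ A B (Function.update t p [])) := by
      apply E_comm
      intro i hi
      have hip : i ≠ p := by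
        intro h; subst h; rw [Function.update_self] at hi; exact hi rfl
      rw [Function.update_of_ne hip] at hi
      have h6 := hx i (ht i (mem_sp.2 hi)) i.2 (fun h => hip (Fin.ext h))
      exact ⟨h6.1.map ρ, h6.2.map ρ⟩
    have h6 := LinearMap.congr_fun h5.eq u
    exact h6.symm) (by
    rintro v ⟨u, rfl⟩
    have h4 := LinearMap.congr_fun h u
    simp only [lt, if_true, Bool.false_eq_true, if_false, Module.End.mul_apply,
      LinearMap.sub_apply, Module.End.one_apply, sub_left_inj] at h4
    exact h4)
  apply LinearMap.ext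
  intro u
  have h7 := h3 _ ⟨u, rfl⟩
  simp only [lt, if_true, Module.End.mul_apply, LinearMap.sub_apply, Module.End.one_apply,
    LinearMap.zero_apply, sub_eq_zero]
  exact h7

/-- if the types of level `j` vanish then the level is below `j` -/
theorem nz (r : HR N A B T) {j : ℕ} (hj1 : 1 ≤ j) (hj2 : j + 2 ≤ N)
    (hz : ∀ t : Fin N → List Bool, j + 1 ≤ (sp t).card → E ρ A B t = 0)
    (x : Ty N j) (hx : E ρ A B (tw x) = 0) :
    ∀ t : Fin N → List Bool, j ≤ (sp t).card → E ρ A B t = 0 := by
  classical
  -- a set of handles
  have hcard : j ≤ (Finset.univ.filter (fun i : Fin N => 2 ≤ (i : ℕ))).card := by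
    have h3 : (Finset.Ico 2 N).card =
        (Finset.univ.filter (fun i : Fin N => 2 ≤ (i : ℕ))).card := by
      symm
      apply Finset.card_bij (fun (i : Fin N) _ => (i : ℕ))
      · intro i hi
        rw [Finset.mem_filter] at hi
        rw [Finset.mem_Ico]
        exact ⟨hi.2, i.2⟩
      · intro i _ i' _ h
        exact Fin.ext h
      · intro x hx
        rw [Finset.mem_Ico] at hx
        exact ⟨⟨x, hx.2⟩, by simp [hx.1], rfl⟩
    rw [Nat.card_Ico] at h3
    omega
  obtain ⟨S, hS, hSc⟩ := Finset.exists_subset_card_eq hcard
  have hS2 : ∀ i ∈ S, 2 ≤ (i : ℕ) := fun i hi => (Finset.mem_filter.1 (hS hi)).2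
  -- the families: `a` on `R`, a two letter word on the other handles
  have key : ∀ R : Finset (Fin N), R ⊆ S → ∀ f : Fin N → Bool,
      E ρ A B (fun i => if i ∈ R then [true] else if i ∈ S then [f i, !(f i)] else []) = 0 := by
    intro R
    induction R using Finset.induction_on with
    | empty =>
      intro _ f
      have h1 := ty_symm (ρ := ρ) r x (⟨⟨S, Finset.mem_powersetCard.2 ⟨Finset.subset_univ _, hSc⟩⟩,
        fun i => f i.1⟩ : Ty N j) hx
      rw [← h1]
      congr 1
    | insert p R hpR ih =>
      intro hR f
      have hpS : p ∈ S := hR (Finset.mem_insert_self _ _)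
      have ih' := ih (fun i hi => hR (Finset.mem_insert_of_mem hi))
      set t : Fin N → List Bool := fun i => if i ∈ insert p R then [true] else
        if i ∈ S then [f i, !(f i)] else [] with ht
      have e0 : t = Function.update t p [true] := by
        funext i
        by_cases h : i = p
        · subst h
          rw [Function.update_self]
          simp [ht]
        · rw [Function.update_of_ne h]
      have e1 : ∀ c : Bool, E ρ A B (Function.update t p [c, !c]) = 0 := by
        intro c
        rw [← ih' (Function.update f p c)]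
        congr 1
        funext i
        by_cases h : i = p
        · subst h
          rw [Function.update_self, Function.update_self, if_neg hpR, if_pos hpS]
        · rw [Function.update_of_ne h, Function.update_of_ne h]
          simp only [ht, Finset.mem_insert, h, false_or]
      have hspt : ∀ i ∈ S, i ∈ sp t := by
        intro i hi
        rw [mem_sp]
        simp only [ht]
        split_ifs <;> simp
      have hc : j ≤ (sp (Function.update t p [true])).card := by
        rw [← e0, ← hSc]
        exact Finset.card_le_card hspt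
      have e2 := eq_ctx r hj1 hj2 hz t p hc (e1 true) (e1 false)
      rw [e0]
      refine ctx_zero r t p (hS2 p hpS) ?_ e2
      intro i hi
      rw [mem_sp] at hi
      simp only [ht] at hi
      by_cases h1 : i ∈ insert p R
      · exact hS2 i (hR h1)
      · rw [if_neg h1] at hi
        by_cases h2 : i ∈ S
        · exact hS2 i h2
        · rw [if_neg h2] at hi
          exact absurd rfl hi
  have hfin := key S (Finset.Subset.refl _) (fun _ => true)
  intro t ht
  refine E_van r (S := S) ?_ t (by rw [hSc]; exact ht)
  rw [← hfin]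
  congr 1
  funext i
  by_cases hi : i ∈ S
  · rw [if_pos hi, if_pos hi]
  · rw [if_neg hi, if_neg hi, if_neg hi]

/-- orthogonal elements bound the dimension -/
theorem orth_card [FiniteDimensional K V] {ι : Type*} [Fintype ι] (e : ι → Module.End K V) (c : K)
    (hc : c ≠ 0) (h0 : ∀ x, e x ≠ 0) (h1 : ∀ x, e x * e x = c • e x)
    (h2 : ∀ x y, x ≠ y → e x * e y = 0) : Fintype.card ι ≤ finrank K V := by
  classical
  have h3 : ∀ x, ∃ v, e x v ≠ 0 := by
    intro x
    by_contra h
    push Not at h
    exact h0 x (LinearMap.ext h)
  choose v hv using h3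
  have hli : LinearIndependent K (fun x => e x (v x)) := by
    rw [linearIndependent_iff']
    intro s f hs y hy
    have h4 := congrArg (e y) hs
    rw [map_sum, map_zero] at h4
    have h5 : ∀ x ∈ s, e y (f x • e x (v x)) = if x = y then (f y * c) • e y (v y) else 0 := by
      intro x _
      rw [map_smul, ← Module.End.mul_apply]
      by_cases hxy : x = y
      · subst hxy
        rw [if_pos rfl, h1, LinearMap.smul_apply, smul_smul]
      · rw [if_neg hxy, h2 y x (Ne.symm hxy), LinearMap.zero_apply, smul_zero]
    rw [Finset.sum_congr rfl h5, Finset.sum_ite_eq' s y, if_pos hy] at h4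
    rcases smul_eq_zero.1 h4 with h6 | h6
    · rcases mul_eq_zero.1 h6 with h7 | h7
      · exact h7
      · exact absurd h7 hc
    · exact absurd h6 (hv y)
  exact hli.fintype_card_le_finrank

/-- the dimension of a representation of level `j` -/
theorem dim_level [FiniteDimensional K V] (r : HR N A B T) {j : ℕ} (hj1 : 1 ≤ j)
    (hj2 : j + 2 ≤ N) (hz : ∀ t : Fin N → List Bool, j + 1 ≤ (sp t).card → E ρ A B t = 0)
    (hn : ∃ t : Fin N → List Bool, j ≤ (sp t).card ∧ E ρ A B t ≠ 0) :
    2 ^ j * N.choose j ≤ finrank K V := by
  obtain ⟨t, ht, htn⟩ := hn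
  rw [← card_Ty]
  refine orth_card (fun x : Ty N j => E ρ A B (tw x)) ((-1) ^ j)
    (pow_ne_zero _ (neg_ne_zero.2 one_ne_zero)) ?_ ?_ ?_
  · intro x hx
    exact htn (nz r hj1 hj2 hz x hx t ht)
  · intro x
    rw [idem r hj1 hj2 hz x]
    rcases neg_one_pow_eq_or (Module.End K V) j with h | h
    · rcases neg_one_pow_eq_or K j with h' | h'
      · rw [h, h', one_mul, one_smul]
      · rw [h, h', one_mul]
        rcases Nat.even_or_odd j with hj | hj
        · rw [hj.neg_one_pow] at h'
          rw [← h', one_smul]
        · rw [hj.neg_one_pow] at h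
          have : (-1 : Module.End K V) * E ρ A B (tw x) = E ρ A B (tw x) := by
            rw [h, one_mul]
          rw [neg_one_smul]
          conv_lhs => rw [← this]
          rw [neg_one_mul]
    · rcases neg_one_pow_eq_or K j with h' | h'
      · rw [h, h', one_smul]
        rcases Nat.even_or_odd j with hj | hj
        · rw [hj.neg_one_pow] at h
          rw [← h, one_mul]
        · rw [hj.neg_one_pow] at h'
          have : (-1 : K) • E ρ A B (tw x) = E ρ A B (tw x) := by rw [h', one_smul]
          rw [neg_one_mul]
          conv_rhs => rw [← this]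
          rw [neg_one_smul]
      · rw [h, h', neg_one_mul, neg_one_smul]
  · intro x y hxy
    exact orth r hj1 hj2 hz x y hxy

end

/-! ### binomial coefficients -/

theorem pow_le_central (n : ℕ) : 2 ^ n ≤ n.centralBinom := by
  induction n with
  | zero => simp
  | succ n ih =>
    have h := Nat.succ_mul_centralBinom_succ n
    have h1 : (n + 1) * (2 * n.centralBinom) ≤ (n + 1) * (n + 1).centralBinom := by
      rw [h]
      calc (n + 1) * (2 * n.centralBinom) = 2 * (n + 1) * n.centralBinom := by ring
        _ ≤ 2 * (2 * n + 1) * n.centralBinom := by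
          apply Nat.mul_le_mul_right
          omega
    have h2 := Nat.le_of_mul_le_mul_left h1 (Nat.succ_pos n)
    rw [pow_succ]
    omega

theorem pow_le_choose {N i : ℕ} (h : 2 * i ≤ N) : 2 ^ i ≤ N.choose i :=
  (pow_le_central i).trans (by
    unfold Nat.centralBinom
    exact Nat.choose_le_choose i h)

theorem choose_mono_half {N m j : ℕ} (hmj : m ≤ j) (hj : 2 * j ≤ N) :
    N.choose m ≤ N.choose j := by
  obtain ⟨d, rfl⟩ := Nat.exists_eq_add_of_le hmj
  clear hmj
  induction d with
  | zero => exact le_rfl
  | succ d ih =>
    refine (ih (by omega)).trans ?_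
    have h1 := Nat.choose_le_succ_of_lt_half_left (r := m + d) (n := N) (by omega)
    rw [add_assoc] at h1
    exact h1

/-- the bounds of higher levels are larger, or larger than `2 ^ (N - 2)` -/
theorem comb {N m j : ℕ} (hmj : m ≤ j) (hj : j ≤ N) :
    2 ^ m * N.choose m ≤ 2 ^ j * N.choose j ∨ 2 ^ (N - 2) ≤ 2 ^ j * N.choose j := by
  by_cases h : 2 * j ≤ N
  · left
    exact Nat.mul_le_mul (Nat.pow_le_pow_right (by norm_num) hmj) (choose_mono_half hmj h)
  · right
    have h1 : 2 ^ (N - j) ≤ N.choose j := by
      rw [← Nat.choose_symm hj]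
      exact pow_le_choose (by omega)
    calc 2 ^ (N - 2) ≤ 2 ^ N := Nat.pow_le_pow_right (by norm_num) (by omega)
      _ = 2 ^ j * 2 ^ (N - j) := by rw [← pow_add]; congr 1; omega
      _ ≤ _ := Nat.mul_le_mul_left _ h1

section
variable {K V G : Type*} [Field K] [IsAlgClosed K] [AddCommGroup V] [Module K V]
  [FiniteDimensional K V] [Group G]
variable {ρ : G →* Module.End K V} {A B T : ℕ → G} {N : ℕ}

/-- the vanishing theorem -/
theorem van (r : HR N A B T) {m : ℕ} (hm : 1 ≤ m) (hm2 : m + 2 ≤ N)
    (hd : finrank K V < 2 ^ m * N.choose m) (hd2 : finrank K V < 2 ^ (N - 2)) :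
    ∀ t : Fin N → List Bool, m ≤ (sp t).card → E ρ A B t = 0 := by
  -- the statement for level `k` and higher
  have top : ∀ t : Fin N → List Bool, N - 2 ≤ (sp t).card → E ρ A B t = 0 := by
    have h1 := hlev_two r ρ (List.range' 2 (N - 2)) List.nodup_range' (by
      intro i; rw [List.mem_range'_1]; omega) (by rw [List.length_range']; exact hd2)
    have e : (fun i => ρ (A i) - 1) = fun i => ev ρ A B i [true] := by
      funext i; rw [ev_one]; rfl
    rw [e, list_E r (fun _ => [true]) _ List.nodup_range' (by
      intro i hi; rw [List.mem_range'_1] at hi; omega)] at h1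
    intro t ht
    classical
    refine E_van r (S := Finset.univ.filter (fun i : Fin N => (i : ℕ) ∈ List.range' 2 (N - 2)))
      ?_ t ?_
    · rw [← h1]
      congr 1
      funext i
      by_cases h : (i : ℕ) ∈ List.range' 2 (N - 2)
      · rw [if_pos h, if_pos (by simpa using h)]
      · rw [if_neg h, if_neg (by simpa using h)]
    · refine le_trans ?_ ht
      have h3 : (Finset.univ.filter (fun i : Fin N => (i : ℕ) ∈ List.range' 2 (N - 2))).card ≤
          (Finset.Ico 2 N).card := by
        apply Finset.card_le_card_of_injOn (fun i : Fin N => (i : ℕ))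
        · intro i hi
          simp only [Finset.coe_filter, Finset.mem_univ, true_and, Set.mem_ofPred_eq,
            List.mem_range'_1] at hi
          simp only [Finset.coe_Ico, Set.mem_Ico]
          have := i.2
          omega
        · intro i _ i' _ h
          exact Fin.ext h
      rw [Nat.card_Ico] at h3
      exact h3
  have key : ∀ n, ∀ j, m ≤ j → j + n = N - 2 →
      ∀ t : Fin N → List Bool, j ≤ (sp t).card → E ρ A B t = 0 := by
    intro n
    induction n with
    | zero =>
      intro j _ hj
      rw [add_zero] at hj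
      subst hj
      exact top
    | succ n ih =>
      intro j hmj hj
      have hz := ih (j + 1) (by omega) (by omega)
      by_contra hcon
      push Not at hcon
      obtain ⟨t, ht, htn⟩ := hcon
      have h4 := dim_level r (by omega) (by omega) hz ⟨t, ht, htn⟩
      rcases comb hmj (show j ≤ N by omega) with h5 | h5 <;> omega
  exact key (N - 2 - m) m le_rfl (by omega)

/-- the twist is unipotent of index at most `m` -/
theorem unip_m (r : HR N A B T) {m : ℕ} (hm : 1 ≤ m) (hm2 : m + 2 ≤ N)
    (hd : finrank K V < 2 ^ m * N.choose m) (hd2 : finrank K V < 2 ^ (N - 2)) :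
    (ρ (A 0) - 1) ^ m = 0 := by
  have hv := van (ρ := ρ) r hm hm2 hd hd2
  have h1 := unip_zero (N := m + 2) (HRel.mono r hm2) (by omega) ρ (by
    intro l hnd hl
    have e : (fun i => ρ (A i) - 1) = fun i => ev ρ A B i [true] := by
      funext i; rw [ev_one]; rfl
    rw [e, list_E r (fun _ => [true]) _ hnd (by
      intro i hi; have := (hl i).1 hi; omega)]
    apply hv
    have h2 : (Finset.univ.filter (fun i : Fin N => (i : ℕ) ∈ l)) ⊆
        sp (fun i : Fin N => if (i : ℕ) ∈ l then [true] else []) := by
      intro i hi
      rw [Finset.mem_filter] at hi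
      rw [mem_sp, if_pos hi.2]
      simp
    refine le_trans ?_ (Finset.card_le_card h2)
    have h3 : (Finset.Ico 2 (m + 2)).card ≤
        (Finset.univ.filter (fun i : Fin N => (i : ℕ) ∈ l)).card := by
      apply Finset.card_le_card_of_surjOn (fun i : Fin N => (i : ℕ))
      intro x hx
      simp only [Finset.coe_Ico, Set.mem_Ico] at hx
      exact ⟨⟨x, by omega⟩, by simp [hl, hx], rfl⟩
    rw [Nat.card_Ico] at h3
    omega)
  rwa [show m + 2 - 2 = m by omega] at h1

end

end Pool.Agent.Q290.MG
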