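import Mathlib
import Pool.Agent.Q290.MG.Lvl3

set_option autoImplicit false

/-! Representations of level at most one: relations between the operators `x - 1`. -/

namespace Pool.Agent.Q290.MG

open Pool.Agent.H798R3.MG Pool.Agent.H29R2.MG Pool.Agent.TH35.MG Module

section dis
variable {K V G : Type*} [Field K] [AddCommGroup V] [Module K V] [Group G]

/-- `(x - 1) (y - 1) = 0` -/
def D0 (ρ : G →* Module.End K V) (x y : G) : Prop := (ρ x - 1) * (ρ y - 1) = 0

variable {ρ : G →* Module.End K V} {x y c : G}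

theorem D0.symm (h : D0 ρ x y) (hc : Commute x y) : D0 ρ y x := by
  unfold D0 at *
  have h1 : Commute (ρ x - 1) (ρ y - 1) :=
    ((hc.map ρ).sub_left (Commute.one_left _)).sub_right (Commute.one_right _)
  rw [← h1.eq]; exact h

theorem conj_sub {w z z' : G} (h : w * z = z' * w) : ρ w * (ρ z - 1) = (ρ z' - 1) * ρ w := by
  rw [mul_sub, sub_mul, ← map_mul, ← map_mul, h, mul_one, one_mul]

theorem D0.conj {w x' y' : G} (hx : w * x = x' * w) (hy : w * y = y' * w) (h : D0 ρ x' y') :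
    D0 ρ x y := by
  unfold D0 at *
  have h0 : ρ w⁻¹ * ρ w = 1 := by rw [← map_mul, inv_mul_cancel, map_one]
  calc (ρ x - 1) * (ρ y - 1) = ρ w⁻¹ * ρ w * ((ρ x - 1) * (ρ y - 1)) := by rw [h0, one_mul]
    _ = ρ w⁻¹ * ((ρ w * (ρ x - 1)) * (ρ y - 1)) := by simp only [mul_assoc]
    _ = ρ w⁻¹ * ((ρ x' - 1) * (ρ w * (ρ y - 1))) := by rw [conj_sub hx, mul_assoc]
    _ = ρ w⁻¹ * ((ρ x' - 1) * (ρ y' - 1) * ρ w) := by rw [conj_sub hy, mul_assoc]
    _ = 0 := by rw [h, zero_mul, mul_zero]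

/-- the second curve is moved along a braid relation -/
theorem D0.br (h : D0 ρ x c) (h1 : Commute x y) (h2 : Commute x c) (hb : y * c * y = c * y * c) :
    D0 ρ x y := by
  refine D0.conj (w := y * c) (x' := x) (y' := c) ?_ ?_ h
  · exact ((h1.mul_right h2).eq).symm
  · rw [hb]; group

/-- the first curve is moved along a braid relation -/
theorem D0.bl (h : D0 ρ c x) (h1 : Commute y x) (h2 : Commute c x) (hb : y * c * y = c * y * c) :
    D0 ρ y x := by
  refine D0.conj (w := y * c) (x' := c) (y' := x) ?_ ?_ h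
  · rw [hb]; group
  · exact (h1.mul_left h2).eq

/-- squares -/
theorem D0.sq (h : D0 ρ c c) (hb : y * c * y = c * y * c) : D0 ρ y y :=
  D0.conj (w := y * c) (x' := c) (y' := c) (by rw [hb]; group) (by rw [hb]; group) h

/-- conjugate elements -/
theorem D0.sq_conj {w : G} (h : D0 ρ c c) (hw : w * y = c * w) : D0 ρ y y :=
  D0.conj hw hw h

end dis

/-- the relations between the operators `x - 1` in a representation of level at most one -/
structure OpRel {R : Type*} [Ring R] (N : ℕ) (a b t z l : ℕ → R) : Prop where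
  aa : ∀ i < N, ∀ k < N, a i * a k = 0
  bb : ∀ i < N, ∀ k < N, b i * b k = 0
  ab : ∀ i < N, ∀ k < N, i ≠ k → a i * b k = 0
  ba : ∀ i < N, ∀ k < N, i ≠ k → b i * a k = 0
  br : ∀ i < N, a i + a i * b i * a i = b i + b i * a i * b i
  ta : ∀ i, i + 1 < N → ∀ k < N, t i * a k = 0
  at' : ∀ i, i + 1 < N → ∀ k < N, a k * t i = 0
  tb : ∀ i, i + 1 < N → ∀ k < N, k ≠ i → k ≠ i + 1 → t i * b k = 0
  bt : ∀ i, i + 1 < N → ∀ k < N, k ≠ i → k ≠ i + 1 → b k * t i = 0
  t2 : ∀ i, i + 1 < N → t i * t i = 0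
  br0 : ∀ i, i + 1 < N → t i + t i * b i * t i = b i + b i * t i * b i
  br1 : ∀ i, i + 1 < N → t i + t i * b (i + 1) * t i = b (i + 1) + b (i + 1) * t i * b (i + 1)
  tt : ∀ i k, i + 1 < k → k + 1 < N → t i * t k = 0
  tt' : ∀ i k, i + 1 < k → k + 1 < N → t k * t i = 0
  za : ∀ i, i + 2 < N → ∀ k < N, z i * a k = 0
  az : ∀ i, i + 2 < N → ∀ k < N, a k * z i = 0
  zb : ∀ i, i + 2 < N → z i * b (i + 1) = 0
  bz : ∀ i, i + 2 < N → b (i + 1) * z i = 0
  z2 : ∀ i, i + 2 < N → z i * z i = 0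
  brz0 : ∀ i, i + 2 < N → z i + z i * b i * z i = b i + b i * z i * b i
  brz2 : ∀ i, i + 2 < N → z i + z i * b (i + 2) * z i = b (i + 2) + b (i + 2) * z i * b (i + 2)
  la : ∀ i, i + 2 < N → ∀ k < N, i ≤ k → k ≤ i + 2 → l i * a k = 0
  al : ∀ i, i + 2 < N → ∀ k < N, i ≤ k → k ≤ i + 2 → a k * l i = 0
  l2 : ∀ i, i + 2 < N → l i * l i = 0
  brl : ∀ i, i + 2 < N → ∀ k, i ≤ k → k ≤ i + 2 →
    l i + l i * b k * l i = b k + b k * l i * b k
  lt0 : ∀ i, i + 2 < N → l i * t i = 0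
  tl0 : ∀ i, i + 2 < N → t i * l i = 0
  lt1 : ∀ i, i + 2 < N → l i * t (i + 1) = 0
  tl1 : ∀ i, i + 2 < N → t (i + 1) * l i = 0
  lz : ∀ i, i + 2 < N → l i * z i = 0
  zl : ∀ i, i + 2 < N → z i * l i = 0
  lan1 : ∀ i, i + 2 < N → (1 + t i) * (1 + t (i + 1)) * (1 + z i) =
    1 + (l i + a i + a (i + 1) + a (i + 2))
  lan2 : ∀ i, i + 2 < N → (1 + t (i + 1)) * (1 + z i) * (1 + t i) =
    1 + (l i + a i + a (i + 1) + a (i + 2))
  lan3 : ∀ i, i + 2 < N → (1 + z i) * (1 + t i) * (1 + t (i + 1)) =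
    1 + (l i + a i + a (i + 1) + a (i + 2))

section
variable {G : Type*} [Group G] {A B T : ℕ → G} {N : ℕ}

theorem sw_comm {a b t b' a' x : G} (h1 : Commute x a) (h2 : Commute x b) (h3 : Commute x t)
    (h4 : Commute x b') (h5 : Commute x a') : Commute x (Sw a b t b' a') := by
  unfold Sw
  exact (((((((h1.mul_right h2).mul_right h3).mul_right h4).mul_right h5).mul_right
    (((h1.mul_right h2).mul_right h3).mul_right h4)).mul_right
    ((h1.mul_right h2).mul_right h3)).mul_right (h1.mul_right h2)).mul_right h1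

theorem qw_comm' {a b x : G} (h1 : Commute x a) (h2 : Commute x b) : Commute x (Qw a b) := by
  unfold Qw Rw
  have h : Commute x (a * b * a) := (h1.mul_right h2).mul_right h1
  exact (h.mul_right h).mul_right (h.mul_right h)

/-- the element `Q` commutes with its handle -/
theorem qA (r : HR N A B T) {i : ℕ} (hi : i < N) : Commute (Qw (A i) (B i)) (A i) ∧
    Commute (Qw (A i) (B i)) (B i) := qw_comm (r.braidAB i hi)

/-- `D` commutes with all the `A_k` -/
theorem dA (r : HR N A B T) {i : ℕ} (hi : i + 2 < N) {k : ℕ} (hk : k < N) :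
    Commute (Dd A B T i) (A k) := by
  -- conjugate by the exchange of the handles `i+1` and `i+2`
  have key : ∀ y y' : G, Ss A B T (i + 1) * y = y' * Ss A B T (i + 1) →
      Commute (Qw (A (i + 1)) (B (i + 1)) * T i * (Qw (A (i + 1)) (B (i + 1)))⁻¹) y' →
      Commute (Dd A B T i) y := by
    intro y y' h1 h2
    unfold Dd
    set S := Ss A B T (i + 1)
    set X := Qw (A (i + 1)) (B (i + 1)) * T i * (Qw (A (i + 1)) (B (i + 1)))⁻¹
    show S⁻¹ * X * S * y = y * (S⁻¹ * X * S)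
    have h3 : y = S⁻¹ * y' * S := by rw [mul_assoc, ← h1]; group
    calc S⁻¹ * X * S * y = S⁻¹ * X * (S * y) := by group
      _ = S⁻¹ * (X * y') * S := by rw [h1]; group
      _ = S⁻¹ * (y' * X) * S := by rw [h2.eq]
      _ = S⁻¹ * y' * S * (S⁻¹ * X * S) := by group
      _ = y * (S⁻¹ * X * S) := by rw [← h3]
  have cX : ∀ m < N, Commute (Qw (A (i + 1)) (B (i + 1)) * T i *
      (Qw (A (i + 1)) (B (i + 1)))⁻¹) (A m) := by
    intro m hm
    have cT := r.commTA i (by omega) m hm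
    have cQ : Commute (Qw (A (i + 1)) (B (i + 1))) (A m) := by
      by_cases h : m = i + 1
      · rw [h]; exact (qA r (by omega)).1
      · exact (qw_comm' (r.commAA m hm _ (by omega)) (r.commAB m hm _ (by omega) h)).symm
    exact (cQ.mul_left cT).mul_left cQ.inv_left
  by_cases h1 : k = i + 1
  · subst h1
    exact key _ _ (r.sA (i + 1) hi) (cX _ (by omega))
  · by_cases h2 : k = i + 2
    · subst h2
      exact key _ _ (r.sA' (i + 1) hi) (cX _ (by omega))
    · refine key _ _ ?_ (cX k hk)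
      refine (Ss_comm (r.commAA (i + 1) (by omega) k hk) ?_ (r.commTA (i + 1) hi k hk) ?_
        (r.commAA (i + 1 + 1) hi k hk)).eq
      · exact (r.commAB k hk (i + 1) (by omega) h1).symm
      · exact (r.commAB k hk (i + 1 + 1) hi h2).symm

/-- the `D`-curve in terms of the `T`-curve -/
theorem d_conj (i : ℕ) : Qw (A (i + 1)) (B (i + 1)) * T i * (Qw (A (i + 1)) (B (i + 1)))⁻¹ *
    Ss A B T (i + 1) = Ss A B T (i + 1) * Dd A B T i := by
  unfold Dd; group

/-- relations of `D` -/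
theorem dB1 (r : HR N A B T) {i : ℕ} (hi : i + 2 < N) : Commute (Dd A B T i) (B (i + 1)) := by
  -- conjugate: the exchange maps `B_{i+1}` to `B_{i+2}`
  set S := Ss A B T (i + 1) with hS
  set X := Qw (A (i + 1)) (B (i + 1)) * T i * (Qw (A (i + 1)) (B (i + 1)))⁻¹ with hX
  have h1 : S * B (i + 1) = B (i + 2) * S := r.sB (i + 1) hi
  have h2 : Commute X (B (i + 2)) := by
    have cT := r.commTB i (by omega) (i + 2) hi (by omega) (by omega)
    have cQ : Commute (Qw (A (i + 1)) (B (i + 1))) (B (i + 2)) :=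
      (qw_comm' (r.commAB (i + 1) (by omega) (i + 2) hi (by omega)).symm
        (r.commBB (i + 2) hi (i + 1) (by omega))).symm
    exact (cQ.mul_left cT).mul_left cQ.inv_left
  have h3 : Dd A B T i = S⁻¹ * X * S := rfl
  rw [h3]
  show S⁻¹ * X * S * B (i + 1) = B (i + 1) * (S⁻¹ * X * S)
  calc S⁻¹ * X * S * B (i + 1) = S⁻¹ * X * (S * B (i + 1)) := by group
    _ = S⁻¹ * (X * B (i + 2)) * S := by rw [h1]; group
    _ = S⁻¹ * (B (i + 2) * X) * S := by rw [h2.eq]
    _ = S⁻¹ * (B (i + 2) * S) * (S⁻¹ * X * S) := by group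
    _ = _ := by rw [← h1]; group

theorem dBraid0 (r : HR N A B T) {i : ℕ} (hi : i + 2 < N) :
    Dd A B T i * B i * Dd A B T i = B i * Dd A B T i * B i := by
  set S := Ss A B T (i + 1) with hS
  set Q := Qw (A (i + 1)) (B (i + 1)) with hQ
  have h3 : Dd A B T i = S⁻¹ * (Q * T i * Q⁻¹) * S := rfl
  have c1 : Commute S (B i) := by
    refine Ss_comm ?_ ?_ ?_ ?_ ?_
    · exact r.commAB (i + 1) (by omega) i (by omega) (by omega)
    · exact r.commBB (i + 1) (by omega) i (by omega)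
    · exact r.commTB (i + 1) hi i (by omega) (by omega) (by omega)
    · exact r.commBB (i + 1 + 1) hi i (by omega)
    · exact r.commAB (i + 1 + 1) hi i (by omega) (by omega)
  have c2 : Commute Q (B i) :=
    (qw_comm' (r.commAB (i + 1) (by omega) i (by omega) (by omega)).symm
      (r.commBB i (by omega) (i + 1) (by omega))).symm
  have hb := r.braidTBi i (by omega)
  -- conjugation by `Q⁻¹ S`
  have e1 : B i = (S⁻¹ * Q) * B i * (S⁻¹ * Q)⁻¹ := by
    have : Commute (S⁻¹ * Q) (B i) := c1.inv_left.mul_left c2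
    rw [this.eq]; group
  have e2 : Dd A B T i = (S⁻¹ * Q) * T i * (S⁻¹ * Q)⁻¹ := by rw [h3]; group
  have key : ∀ u x y : G, x * y * x = y * x * y →
      (u * x * u⁻¹) * (u * y * u⁻¹) * (u * x * u⁻¹) =
      (u * y * u⁻¹) * (u * x * u⁻¹) * (u * y * u⁻¹) := by
    intro u x y h
    calc (u * x * u⁻¹) * (u * y * u⁻¹) * (u * x * u⁻¹) = u * (x * y * x) * u⁻¹ := by group
      _ = u * (y * x * y) * u⁻¹ := by rw [h]
      _ = _ := by group
  have := key (S⁻¹ * Q) (T i) (B i) hb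
  rw [← e1, ← e2] at this
  exact this

theorem dBraid2 (r : HR N A B T) {i : ℕ} (hi : i + 2 < N) :
    Dd A B T i * B (i + 2) * Dd A B T i = B (i + 2) * Dd A B T i * B (i + 2) := by
  set S := Ss A B T (i + 1) with hS
  set Q := Qw (A (i + 1)) (B (i + 1)) with hQ
  have h3 : Dd A B T i = S⁻¹ * (Q * T i * Q⁻¹) * S := rfl
  have c2 : Commute Q (B (i + 1)) := (qA r (by omega)).2
  have hb := r.braidTBj i (by omega)
  have hs : S * B (i + 2) = B (i + 1) * S := r.sB' (i + 1) hi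
  have e1 : B (i + 2) = (S⁻¹ * Q) * B (i + 1) * (S⁻¹ * Q)⁻¹ := by
    have h4 : (S⁻¹ * Q) * B (i + 1) * (S⁻¹ * Q)⁻¹ = S⁻¹ * (Q * B (i + 1)) * Q⁻¹ * S := by group
    rw [h4, c2.eq]
    have h5 : S⁻¹ * (B (i + 1) * Q) * Q⁻¹ * S = S⁻¹ * (B (i + 1) * S) := by group
    rw [h5, ← hs]; group
  have e2 : Dd A B T i = (S⁻¹ * Q) * T i * (S⁻¹ * Q)⁻¹ := by rw [h3]; group
  have key : ∀ u x y : G, x * y * x = y * x * y →
      (u * x * u⁻¹) * (u * y * u⁻¹) * (u * x * u⁻¹) =
      (u * y * u⁻¹) * (u * x * u⁻¹) * (u * y * u⁻¹) := by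
    intro u x y h
    calc (u * x * u⁻¹) * (u * y * u⁻¹) * (u * x * u⁻¹) = u * (x * y * x) * u⁻¹ := by group
      _ = u * (y * x * y) * u⁻¹ := by rw [h]
      _ = _ := by group
  have := key (S⁻¹ * Q) (T i) (B (i + 1)) hb
  rw [← e1, ← e2] at this
  exact this

/-- `L` commutes with the `A_k` -/
theorem lA (r : HR N A B T) {i : ℕ} (hi : i + 2 < N) {k : ℕ} (hk : k < N) :
    Commute (Ll A B T i) (A k) := by
  unfold Ll
  refine (((r.commTA i (by omega) k hk).mul_left (r.commTA (i + 1) hi k hk)).mul_left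
    (dA r hi hk)).mul_left ?_
  exact (((r.commAA i (by omega) k hk).mul_left (r.commAA (i + 1) (by omega) k hk)).mul_left
    (r.commAA (i + 2) hi k hk)).inv_left

/-- the product of the three interior twists -/
theorem lM (i : ℕ) : T i * T (i + 1) * Dd A B T i =
    Ll A B T i * (A i * A (i + 1) * A (i + 2)) := by
  unfold Ll; group

/-- `L` commutes with `D` -/
theorem lD (r : HR N A B T) (x : XRel N A B T) {i : ℕ} (hi : i + 2 < N) :
    Commute (Ll A B T i) (Dd A B T i) := by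
  have h1 : Dd A B T i = (T (i + 1))⁻¹ * (T i)⁻¹ * (Ll A B T i * (A i * A (i + 1) * A (i + 2))) := by
    rw [← lM]; group
  have c0 : Commute (Ll A B T i) (A i * A (i + 1) * A (i + 2)) :=
    ((lA r hi (by omega)).mul_right (lA r hi (by omega))).mul_right (lA r hi hi)
  have c1 : Commute (Ll A B T i) ((T (i + 1))⁻¹ * (T i)⁻¹) :=
    ((x.LT1 i hi).inv_right).mul_right ((x.LT0 i hi).inv_right)
  have c2 : Commute (Ll A B T i)
      ((T (i + 1))⁻¹ * (T i)⁻¹ * (Ll A B T i * (A i * A (i + 1) * A (i + 2)))) :=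
    c1.mul_right ((Commute.refl _).mul_right c0)
  rw [← h1] at c2
  exact c2

end

end Pool.Agent.Q290.MG
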