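import Mathlib
import Pool.Agent.Q290.MG.Op

set_option autoImplicit false

/-! Representations of level at most one satisfy `OpRel`. -/

namespace Pool.Agent.Q290.MG

open Pool.Agent.H798R3.MG Pool.Agent.H29R2.MG Pool.Agent.TH35.MG Module

section
variable {K V G : Type*} [Field K] [AddCommGroup V] [Module K V] [Group G]
variable {ρ : G →* Module.End K V} {A B T : ℕ → G} {N : ℕ}

/-- two letters of different handles -/
theorem two_lt (r : HR N A B T)
    (hz : ∀ t : Fin N → List Bool, 2 ≤ (sp t).card → E ρ A B t = 0) {i k : ℕ} (hi : i < N)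
    (hk : k < N) (hik : i ≠ k) (c c' : Bool) : lt ρ A B i c * lt ρ A B k c' = 0 := by
  classical
  have h1 := list_E (ρ := ρ) r (fun m => if m = i then [c] else [c']) [i, k] (by simp [hik])
    (by intro m hm; simp at hm; omega)
  simp only [List.map_cons, List.map_nil, List.prod_cons, List.prod_nil, mul_one, if_true,
    if_neg hik.symm, ev_one] at h1
  rw [h1]
  apply hz
  have h2 : ({⟨i, hi⟩, ⟨k, hk⟩} : Finset (Fin N)) ⊆
      sp (fun m : Fin N => if (m : ℕ) ∈ [i, k] then (if (m : ℕ) = i then [c] else [c'])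
        else []) := by
    intro m hm
    rw [mem_sp]
    rw [Finset.mem_insert, Finset.mem_singleton] at hm
    rcases hm with rfl | rfl
    · simp
    · simp [hik.symm]
  refine le_trans ?_ (Finset.card_le_card h2)
  rw [Finset.card_pair (by intro h; exact hik (Fin.mk.inj_iff.1 h))]

/-- squares of letters -/
theorem sq_lt (r : HR N A B T) (h3 : 3 ≤ N)
    (hz : ∀ t : Fin N → List Bool, 2 ≤ (sp t).card → E ρ A B t = 0) {i : ℕ} (hi : i < N)
    (c : Bool) : lt ρ A B i c * lt ρ A B i c = 0 := by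
  classical
  have h1 := E_single (ρ := ρ) (A := A) (B := B) (⟨i, hi⟩ : Fin N) [c, c]
  have h2 : E ρ A B (fun k : Fin N => if k = ⟨i, hi⟩ then [c, c] else []) = 0 := by
    refine sq_zero r (j := 1) le_rfl (by omega) hz _ ?_ ⟨i, hi⟩ [] [] c (by simp)
    rw [Finset.one_le_card]
    exact ⟨⟨i, hi⟩, by rw [mem_sp]; simp⟩
  rw [h2] at h1
  rw [ev_cons, ev_one] at h1
  exact h1.symm

theorem d0_AA (r : HR N A B T)
    (hz : ∀ t : Fin N → List Bool, 2 ≤ (sp t).card → E ρ A B t = 0) {i k : ℕ} (hi : i < N)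
    (hk : k < N) (hik : i ≠ k) : D0 ρ (A i) (A k) := two_lt r hz hi hk hik true true

theorem d0_AB (r : HR N A B T)
    (hz : ∀ t : Fin N → List Bool, 2 ≤ (sp t).card → E ρ A B t = 0) {i k : ℕ} (hi : i < N)
    (hk : k < N) (hik : i ≠ k) : D0 ρ (A i) (B k) := two_lt r hz hi hk hik true false

theorem d0_BA (r : HR N A B T)
    (hz : ∀ t : Fin N → List Bool, 2 ≤ (sp t).card → E ρ A B t = 0) {i k : ℕ} (hi : i < N)
    (hk : k < N) (hik : i ≠ k) : D0 ρ (B i) (A k) := two_lt r hz hi hk hik false true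

theorem d0_BB (r : HR N A B T)
    (hz : ∀ t : Fin N → List Bool, 2 ≤ (sp t).card → E ρ A B t = 0) {i k : ℕ} (hi : i < N)
    (hk : k < N) (hik : i ≠ k) : D0 ρ (B i) (B k) := two_lt r hz hi hk hik false false

theorem d0_A2 (r : HR N A B T) (h3 : 3 ≤ N)
    (hz : ∀ t : Fin N → List Bool, 2 ≤ (sp t).card → E ρ A B t = 0) {i : ℕ} (hi : i < N) :
    D0 ρ (A i) (A i) := sq_lt r h3 hz hi true

theorem d0_B2 (r : HR N A B T) (h3 : 3 ≤ N)
    (hz : ∀ t : Fin N → List Bool, 2 ≤ (sp t).card → E ρ A B t = 0) {i : ℕ} (hi : i < N) :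
    D0 ρ (B i) (B i) := sq_lt r h3 hz hi false

theorem d0_AT (r : HR N A B T)
    (hz : ∀ t : Fin N → List Bool, 2 ≤ (sp t).card → E ρ A B t = 0) {i k : ℕ}
    (hi : i + 1 < N) (hk : k < N) : D0 ρ (A k) (T i) := by
  by_cases h : k = i
  · subst h
    exact (d0_AB r hz (by omega) hi (by omega)).br (r.commTA k hi k hk).symm
      (r.commAB k hk (k + 1) hi (by omega)) (r.braidTBj k hi)
  · exact (d0_AB r hz hk (by omega) h).br (r.commTA i hi k hk).symm
      (r.commAB k hk i (by omega) h) (r.braidTBi i hi)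

theorem d0_BT (r : HR N A B T)
    (hz : ∀ t : Fin N → List Bool, 2 ≤ (sp t).card → E ρ A B t = 0) {i k : ℕ}
    (hi : i + 1 < N) (hk : k < N) (h1 : k ≠ i) (h2 : k ≠ i + 1) : D0 ρ (B k) (T i) :=
  (d0_BB r hz hk (by omega) h1).br (r.commTB i hi k hk h1 h2).symm
    (r.commBB k hk i (by omega)) (r.braidTBi i hi)

theorem d0_TT (r : HR N A B T)
    (hz : ∀ t : Fin N → List Bool, 2 ≤ (sp t).card → E ρ A B t = 0) {i k : ℕ}
    (hik : i + 1 < k) (hk : k + 1 < N) : D0 ρ (T i) (T k) :=
  ((d0_BT r hz (i := i) (k := k) (by omega) (by omega) (by omega) (by omega)).symm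
    (r.commTB i (by omega) k (by omega) (by omega) (by omega)).symm).br
    (r.commTT i k hik hk) (r.commTB i (by omega) k (by omega) (by omega) (by omega))
    (r.braidTBi k hk)

theorem d0_AD (r : HR N A B T)
    (hz : ∀ t : Fin N → List Bool, 2 ≤ (sp t).card → E ρ A B t = 0) {i k : ℕ}
    (hi : i + 2 < N) (hk : k < N) : D0 ρ (A k) (Dd A B T i) := by
  by_cases h : k = i
  · subst h
    exact (d0_AB r hz hk hi (by omega)).br (dA r hi hk).symm
      (r.commAB k hk (k + 2) hi (by omega)) (dBraid2 r hi)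
  · exact (d0_AB r hz hk (by omega) h).br (dA r hi hk).symm
      (r.commAB k hk i (by omega) h) (dBraid0 r hi)

theorem d0_BD (r : HR N A B T)
    (hz : ∀ t : Fin N → List Bool, 2 ≤ (sp t).card → E ρ A B t = 0) {i : ℕ}
    (hi : i + 2 < N) : D0 ρ (B (i + 1)) (Dd A B T i) :=
  (d0_BB r hz (by omega) (by omega) (by omega)).br (dB1 r hi).symm
    (r.commBB (i + 1) (by omega) i (by omega)) (dBraid0 r hi)

theorem braidL (r : HR N A B T) (x : XRel N A B T) {i : ℕ} (hi : i + 2 < N) {k : ℕ}
    (h1 : i ≤ k) (h2 : k ≤ i + 2) :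
    Ll A B T i * B k * Ll A B T i = B k * Ll A B T i * B k := by
  rcases Nat.lt_or_ge i k with h | h
  · rcases Nat.lt_or_ge (i + 1) k with h' | h'
    · have : k = i + 2 := by omega
      subst this; exact x.LB2 i hi
    · have : k = i + 1 := by omega
      subst this; exact x.LB1 i hi
  · have : k = i := by omega
    subst this; exact r.lantern k hi

theorem d0_AL (r : HR N A B T) (x : XRel N A B T)
    (hz : ∀ t : Fin N → List Bool, 2 ≤ (sp t).card → E ρ A B t = 0) {i k : ℕ}
    (hi : i + 2 < N) (hk : k < N) (h1 : i ≤ k) (h2 : k ≤ i + 2) :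
    D0 ρ (A k) (Ll A B T i) := by
  by_cases h : k = i
  · exact (d0_AB r hz hk (show i + 1 < N by omega) (by omega)).br (lA r hi hk).symm
      (r.commAB k hk (i + 1) (by omega) (by omega)) (braidL r x hi (by omega) (by omega))
  · exact (d0_AB r hz hk (show i < N by omega) h).br (lA r hi hk).symm
      (r.commAB k hk i (by omega) h) (braidL r x hi le_rfl (by omega))

/-- a product with vanishing mixed terms -/
theorem prod_four {R : Type*} [Ring R] {l a a' a'' : R} (h1 : l * a = 0) (h2 : l * a' = 0)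
    (h3 : l * a'' = 0) (h4 : a * a' = 0) (h5 : a * a'' = 0) (h6 : a' * a'' = 0) :
    (1 + l) * ((1 + a) * (1 + a') * (1 + a'')) = 1 + (l + a + a' + a'') := by
  have e1 : (1 + a) * (1 + a') = 1 + a + a' := by
    calc (1 + a) * (1 + a') = 1 + a + a' + a * a' := by noncomm_ring
      _ = _ := by rw [h4, add_zero]
  have e2 : (1 + a + a') * (1 + a'') = 1 + a + a' + a'' := by
    calc (1 + a + a') * (1 + a'') = 1 + a + a' + a'' + a * a'' + a' * a'' := by noncomm_ring
      _ = _ := by rw [h5, h6, add_zero, add_zero]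
  rw [e1, e2]
  calc (1 + l) * (1 + a + a' + a'') = 1 + (l + a + a' + a'') + l * a + l * a' + l * a'' := by
        noncomm_ring
    _ = _ := by rw [h1, h2, h3, add_zero, add_zero, add_zero]

/-- representations of level at most one satisfy `OpRel` -/
theorem opRel (r : HR N A B T) (x : XRel N A B T) (h3 : 3 ≤ N)
    (hz : ∀ t : Fin N → List Bool, 2 ≤ (sp t).card → E ρ A B t = 0) :
    OpRel N (fun i => ρ (A i) - 1) (fun i => ρ (B i) - 1) (fun i => ρ (T i) - 1)
      (fun i => ρ (Dd A B T i) - 1) (fun i => ρ (Ll A B T i) - 1) := by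
  have brd : ∀ u v : G, u * v * u = v * u * v → D0 ρ u u → D0 ρ v v →
      (ρ u - 1) + (ρ u - 1) * (ρ v - 1) * (ρ u - 1) =
      (ρ v - 1) + (ρ v - 1) * (ρ u - 1) * (ρ v - 1) := by
    intro u v h hu hv
    have h1 : ρ u * ρ v * ρ u = ρ v * ρ u * ρ v := by
      rw [← map_mul, ← map_mul, h, map_mul, map_mul]
    unfold D0 at hu hv
    have e1 : (ρ u - 1) + (ρ u - 1) * (ρ v - 1) * (ρ u - 1) =
        ρ u * ρ v * ρ u - (ρ u * ρ v + ρ v * ρ u) + (ρ u + ρ v) - 1 - (ρ u - 1) * (ρ u - 1) := by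
      noncomm_ring
    have e2 : (ρ v - 1) + (ρ v - 1) * (ρ u - 1) * (ρ v - 1) =
        ρ v * ρ u * ρ v - (ρ u * ρ v + ρ v * ρ u) + (ρ u + ρ v) - 1 - (ρ v - 1) * (ρ v - 1) := by
      noncomm_ring
    rw [e1, e2, h1, hu, hv]
  have dT2 : ∀ i, i + 1 < N → D0 ρ (T i) (T i) := fun i hi =>
    (d0_B2 r h3 hz (i := i) (by omega)).sq (r.braidTBi i hi)
  have dD2 : ∀ i, i + 2 < N → D0 ρ (Dd A B T i) (Dd A B T i) := fun i hi =>
    (d0_B2 r h3 hz (i := i) (by omega)).sq (dBraid0 r hi)
  have dL2 : ∀ i, i + 2 < N → D0 ρ (Ll A B T i) (Ll A B T i) := fun i hi =>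
    (d0_B2 r h3 hz (i := i) (by omega)).sq (braidL r x hi le_rfl (by omega))
  have dLT0 : ∀ i, i + 2 < N → D0 ρ (T i) (Ll A B T i) := fun i hi =>
    ((d0_BT r hz (i := i) (k := i + 2) (by omega) hi (by omega) (by omega)).symm
      (r.commTB i (by omega) (i + 2) hi (by omega) (by omega)).symm).br (x.LT0 i hi).symm
      (r.commTB i (by omega) (i + 2) hi (by omega) (by omega)) (x.LB2 i hi)
  have dLT1 : ∀ i, i + 2 < N → D0 ρ (T (i + 1)) (Ll A B T i) := fun i hi =>
    ((d0_BT r hz (i := i + 1) (k := i) hi (by omega) (by omega) (by omega)).symm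
      (r.commTB (i + 1) hi i (by omega) (by omega) (by omega)).symm).br (x.LT1 i hi).symm
      (r.commTB (i + 1) hi i (by omega) (by omega) (by omega)) (r.lantern i hi)
  have dLD : ∀ i, i + 2 < N → D0 ρ (Dd A B T i) (Ll A B T i) := fun i hi =>
    ((d0_BD r hz hi).symm (dB1 r hi).symm).br (lD r x hi).symm (dB1 r hi) (x.LB1 i hi)
  have hM : ∀ i, i + 2 < N → ρ (Ll A B T i * (A i * A (i + 1) * A (i + 2))) =
      1 + ((ρ (Ll A B T i) - 1) + (ρ (A i) - 1) + (ρ (A (i + 1)) - 1) +
        (ρ (A (i + 2)) - 1)) := by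
    intro i hi
    rw [← prod_four (l := ρ (Ll A B T i) - 1) (a := ρ (A i) - 1) (a' := ρ (A (i + 1)) - 1)
      (a'' := ρ (A (i + 2)) - 1)
      ((d0_AL r x hz hi (by omega) le_rfl (by omega)).symm (lA r hi (by omega)).symm)
      ((d0_AL r x hz hi (by omega) (by omega) (by omega)).symm (lA r hi (by omega)).symm)
      ((d0_AL r x hz hi hi (by omega) le_rfl).symm (lA r hi hi).symm)
      (d0_AA r hz (by omega) (by omega) (by omega)) (d0_AA r hz (by omega) hi (by omega))
      (d0_AA r hz (by omega) hi (by omega))]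
    rw [map_mul, map_mul, map_mul]
    simp only [add_sub_cancel]
  have cM0 : ∀ i, i + 2 < N →
      Commute (Ll A B T i * (A i * A (i + 1) * A (i + 2))) (T i) := fun i hi =>
    (x.LT0 i hi).mul_left ((((r.commTA i (by omega) i (by omega)).symm).mul_left
      (r.commTA i (by omega) (i + 1) (by omega)).symm).mul_left
      (r.commTA i (by omega) (i + 2) hi).symm)
  have cMD : ∀ i, i + 2 < N →
      Commute (Ll A B T i * (A i * A (i + 1) * A (i + 2))) (Dd A B T i) := fun i hi =>
    (lD r x hi).mul_left ((((dA r hi (k := i) (by omega)).symm).mul_left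
      (dA r hi (k := i + 1) (by omega)).symm).mul_left (dA r hi (k := i + 2) hi).symm)
  exact
  { aa := fun i hi k hk => by
      by_cases h : i = k
      · subst h; exact d0_A2 r h3 hz hi
      · exact d0_AA r hz hi hk h
    bb := fun i hi k hk => by
      by_cases h : i = k
      · subst h; exact d0_B2 r h3 hz hi
      · exact d0_BB r hz hi hk h
    ab := fun i hi k hk h => d0_AB r hz hi hk h
    ba := fun i hi k hk h => d0_BA r hz hi hk h
    br := fun i hi => brd _ _ (r.braidAB i hi) (d0_A2 r h3 hz hi) (d0_B2 r h3 hz hi)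
    ta := fun i hi k hk => (d0_AT r hz hi hk).symm (r.commTA i hi k hk).symm
    at' := fun i hi k hk => d0_AT r hz hi hk
    tb := fun i hi k hk h1 h2 => (d0_BT r hz hi hk h1 h2).symm (r.commTB i hi k hk h1 h2).symm
    bt := fun i hi k hk h1 h2 => d0_BT r hz hi hk h1 h2
    t2 := dT2
    br0 := fun i hi => brd _ _ (r.braidTBi i hi) (dT2 i hi) (d0_B2 r h3 hz (by omega))
    br1 := fun i hi => brd _ _ (r.braidTBj i hi) (dT2 i hi) (d0_B2 r h3 hz hi)
    tt := fun i k h1 h2 => d0_TT r hz h1 h2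
    tt' := fun i k h1 h2 => (d0_TT r hz h1 h2).symm (r.commTT i k h1 h2)
    za := fun i hi k hk => (d0_AD r hz hi hk).symm (dA r hi hk).symm
    az := fun i hi k hk => d0_AD r hz hi hk
    zb := fun i hi => (d0_BD r hz hi).symm (dB1 r hi).symm
    bz := fun i hi => d0_BD r hz hi
    z2 := dD2
    brz0 := fun i hi => brd _ _ (dBraid0 r hi) (dD2 i hi) (d0_B2 r h3 hz (by omega))
    brz2 := fun i hi => brd _ _ (dBraid2 r hi) (dD2 i hi) (d0_B2 r h3 hz hi)
    la := fun i hi k hk h1 h2 => (d0_AL r x hz hi hk h1 h2).symm (lA r hi hk).symm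
    al := fun i hi k hk h1 h2 => d0_AL r x hz hi hk h1 h2
    l2 := dL2
    brl := fun i hi k h1 h2 => brd _ _ (braidL r x hi h1 h2) (dL2 i hi)
      (d0_B2 r h3 hz (by omega))
    lt0 := fun i hi => (dLT0 i hi).symm (x.LT0 i hi).symm
    tl0 := dLT0
    lt1 := fun i hi => (dLT1 i hi).symm (x.LT1 i hi).symm
    tl1 := dLT1
    lz := fun i hi => (dLD i hi).symm (lD r x hi).symm
    zl := dLD
    lan1 := fun i hi => by
      have h1 := hM i hi
      rw [← lM] at h1
      rw [← h1, map_mul, map_mul]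
      simp only [add_sub_cancel]
    lan2 := fun i hi => by
      have h1 := hM i hi
      have e : Ll A B T i * (A i * A (i + 1) * A (i + 2)) = T (i + 1) * Dd A B T i * T i := by
        have h2 := (cM0 i hi).eq
        have h3 := lM (A := A) (B := B) (T := T) i
        have h4 : T i * (Ll A B T i * (A i * A (i + 1) * A (i + 2))) =
            T i * (T (i + 1) * Dd A B T i * T i) := by
          rw [← h2, ← h3]; group
        exact mul_left_cancel h4
      rw [e] at h1
      rw [← h1, map_mul, map_mul]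
      simp only [add_sub_cancel]
    lan3 := fun i hi => by
      have h1 := hM i hi
      have e : Ll A B T i * (A i * A (i + 1) * A (i + 2)) = Dd A B T i * T i * T (i + 1) := by
        have h2 := (cMD i hi).eq
        have h3 := lM (A := A) (B := B) (T := T) i
        have h4 : (Ll A B T i * (A i * A (i + 1) * A (i + 2))) * Dd A B T i =
            (Dd A B T i * T i * T (i + 1)) * Dd A B T i := by
          rw [h2, ← h3]; group
        exact mul_right_cancel h4
      rw [e] at h1
      rw [← h1, map_mul, map_mul]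
      simp only [add_sub_cancel] }

end

end Pool.Agent.Q290.MG
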