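import Mathlib
import Pool.Agent.Q290.MG.Op2

set_option autoImplicit false

/-! Consequences of `OpRel` in the ring. -/

namespace Pool.Agent.Q290.MG

section
variable {R : Type*} [Ring R] {N : ℕ} {a b t z l : ℕ → R}

/-- the lantern, first consequences -/
theorem lan_aux {x y z S : R} (hx : x * x = 0) (hxS : x * S = 0)
    (h : (1 + x) * (1 + y) * (1 + z) = 1 + S) : y * z = S - x - y - z := by
  have h1 : x + y + z + x * y + x * z + y * z + x * y * z = S := by
    have e : (1 + x) * (1 + y) * (1 + z) =
        1 + (x + y + z + x * y + x * z + y * z + x * y * z) := by noncomm_ring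
    rw [e] at h
    exact add_left_cancel h
  have h2 : x * y + x * z + x * y * z = 0 := by
    have h3 := congrArg (fun w => x * w) h1
    simp only [hxS] at h3
    have e : x * (x + y + z + x * y + x * z + y * z + x * y * z) =
        x * x + x * x * y + x * x * z + x * x * y * z + (x * y + x * z + x * y * z) := by
      noncomm_ring
    rw [e, hx] at h3
    simpa using h3
  calc y * z = (x + y + z + x * y + x * z + y * z + x * y * z) - x - y - z -
        (x * y + x * z + x * y * z) := by noncomm_ring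
    _ = S - x - y - z := by rw [h1, h2, sub_zero]

/-- the inverse lantern -/
theorem lan_inv {x y z S : R} (hx : x * x = 0) (hy : y * y = 0) (hz : z * z = 0)
    (hS : S * S = 0) (h : (1 + x) * (1 + y) * (1 + z) = 1 + S) :
    (1 - z) * (1 - y) * (1 - x) = 1 - S := by
  have e1 : (1 - x) * (1 + x) = 1 := by
    calc (1 - x) * (1 + x) = 1 - x * x := by noncomm_ring
      _ = 1 := by rw [hx, sub_zero]
  have e2 : (1 - y) * (1 + y) = 1 := by
    calc (1 - y) * (1 + y) = 1 - y * y := by noncomm_ring
      _ = 1 := by rw [hy, sub_zero]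
  have e3 : (1 - z) * (1 + z) = 1 := by
    calc (1 - z) * (1 + z) = 1 - z * z := by noncomm_ring
      _ = 1 := by rw [hz, sub_zero]
  have e4 : (1 + S) * (1 - S) = 1 := by
    calc (1 + S) * (1 - S) = 1 - S * S := by noncomm_ring
      _ = 1 := by rw [hS, sub_zero]
  have e5 : (1 - z) * (1 - y) * (1 - x) * ((1 + x) * (1 + y) * (1 + z)) = 1 := by
    calc (1 - z) * (1 - y) * (1 - x) * ((1 + x) * (1 + y) * (1 + z))
        = (1 - z) * ((1 - y) * ((1 - x) * (1 + x)) * (1 + y)) * (1 + z) := by
          simp only [mul_assoc]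
      _ = 1 := by rw [e1, mul_one, e2, mul_one, e3]
  calc (1 - z) * (1 - y) * (1 - x) = (1 - z) * (1 - y) * (1 - x) * ((1 + S) * (1 - S)) := by
        rw [e4, mul_one]
    _ = ((1 - z) * (1 - y) * (1 - x) * ((1 + x) * (1 + y) * (1 + z))) * (1 - S) := by
        rw [h]; simp only [mul_assoc]
    _ = 1 - S := by rw [e5, one_mul]

theorem lan_inv' {x y z S q : R} (hz : z * z = 0)
    (hq : z * x = q) (hq2 : q = S - x - y - z)
    (h : (1 - z) * (1 - y) * (1 - x) = 1 - S) : z * y + y * x = -(q + q) := by
  have h1 : S - x - y - z = -(z * y) - z * x - y * x + z * y * x := by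
    have e : (1 - z) * (1 - y) * (1 - x) =
        1 - (x + y + z - z * y - z * x - y * x + z * y * x) := by noncomm_ring
    rw [e] at h
    have h2 : x + y + z - z * y - z * x - y * x + z * y * x = S := by
      have := sub_right_injective h
      exact this
    rw [← h2]
    noncomm_ring
  rw [← hq2, hq] at h1
  have h3 : z * y * x = 0 := by
    have h4 : z * q = z * (-(z * y) - q - y * x + z * y * x) := congrArg (fun w => z * w) h1
    have e1 : z * q = 0 := by rw [← hq, ← mul_assoc, hz, zero_mul]
    have e2 : z * (-(z * y) - q - y * x + z * y * x) =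
        -(z * z * y) - z * q - z * y * x + z * z * y * x := by noncomm_ring
    rw [e2, e1, hz] at h4
    simp only [zero_mul, neg_zero, zero_sub, sub_zero, add_zero] at h4
    exact neg_eq_zero.1 h4.symm
  rw [h3, add_zero] at h1
  calc z * y + y * x = -(-(z * y) - q - y * x) - q := by abel
    _ = -(q + q) := by rw [← h1]; abel

variable (h : OpRel N a b t z l)
include h

/-- the sum of the boundary operators of a lantern -/
theorem S_x {i : ℕ} (hi : i + 2 < N) : t i * (l i + a i + a (i + 1) + a (i + 2)) = 0 := by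
  rw [mul_add, mul_add, mul_add, h.tl0 i hi, h.ta i (by omega) i (by omega),
    h.ta i (by omega) (i + 1) (by omega), h.ta i (by omega) (i + 2) hi]
  simp

theorem S_y {i : ℕ} (hi : i + 2 < N) : t (i + 1) * (l i + a i + a (i + 1) + a (i + 2)) = 0 := by
  rw [mul_add, mul_add, mul_add, h.tl1 i hi, h.ta (i + 1) hi i (by omega),
    h.ta (i + 1) hi (i + 1) (by omega), h.ta (i + 1) hi (i + 2) hi]
  simp

theorem S_z {i : ℕ} (hi : i + 2 < N) : z i * (l i + a i + a (i + 1) + a (i + 2)) = 0 := by
  rw [mul_add, mul_add, mul_add, h.zl i hi, h.za i hi i (by omega),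
    h.za i hi (i + 1) (by omega), h.za i hi (i + 2) hi]
  simp

theorem S_S {i : ℕ} (hi : i + 2 < N) :
    (l i + a i + a (i + 1) + a (i + 2)) * (l i + a i + a (i + 1) + a (i + 2)) = 0 := by
  have l2 := h.l2 i hi
  have la0 := h.la i hi i (by omega) (by omega) (by omega)
  have la1 := h.la i hi (i + 1) (by omega) (by omega) (by omega)
  have la2 := h.la i hi (i + 2) (by omega) (by omega) (by omega)
  have al0 := h.al i hi i (by omega) (by omega) (by omega)
  have al1 := h.al i hi (i + 1) (by omega) (by omega) (by omega)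
  have al2 := h.al i hi (i + 2) (by omega) (by omega) (by omega)
  have aa : ∀ k < N, ∀ m < N, a k * a m = 0 := h.aa
  simp only [add_mul, mul_add, l2, la0, la1, la2, al0, al1, al2, aa i (by omega) i (by omega),
    aa i (by omega) (i + 1) (by omega), aa i (by omega) (i + 2) hi,
    aa (i + 1) (by omega) i (by omega), aa (i + 1) (by omega) (i + 1) (by omega),
    aa (i + 1) (by omega) (i + 2) hi, aa (i + 2) hi i (by omega),
    aa (i + 2) hi (i + 1) (by omega), aa (i + 2) hi (i + 2) hi, add_zero]

/-- the six products of the interior operators -/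
theorem lan_q {i : ℕ} (hi : i + 2 < N) :
    t (i + 1) * z i = t i * t (i + 1) ∧ z i * t i = t i * t (i + 1) ∧
      t i * t (i + 1) =
        (l i + a i + a (i + 1) + a (i + 2)) - t i - t (i + 1) - z i := by
  have h1 := lan_aux (h.t2 i (by omega)) (S_x h hi) (h.lan1 i hi)
  have h2 := lan_aux (h.t2 (i + 1) hi) (S_y h hi) (h.lan2 i hi)
  have h3 := lan_aux (h.z2 i hi) (S_z h hi) (h.lan3 i hi)
  refine ⟨?_, ?_, ?_⟩
  · rw [h1, h3]; abel
  · rw [h2, h3]; abel
  · rw [h3]; abel

theorem lan_q' {i : ℕ} (hi : i + 2 < N) :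
    t i * z i = t (i + 1) * t i ∧ z i * t (i + 1) = t (i + 1) * t i := by
  obtain ⟨q1, q2, q3⟩ := lan_q h hi
  have i1 := lan_inv (h.t2 i (by omega)) (h.t2 (i + 1) hi) (h.z2 i hi) (S_S h hi) (h.lan1 i hi)
  have i2 := lan_inv (h.t2 (i + 1) hi) (h.z2 i hi) (h.t2 i (by omega)) (S_S h hi) (h.lan2 i hi)
  have i3 := lan_inv (h.z2 i hi) (h.t2 i (by omega)) (h.t2 (i + 1) hi) (S_S h hi) (h.lan3 i hi)
  have j1 := lan_inv' (h.z2 i hi) q2 q3 i1
  have j2 := lan_inv' (q := t i * t (i + 1)) (h.t2 i (by omega)) rfl (by rw [q3]; abel) i2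
  have j3 := lan_inv' (q := t i * t (i + 1)) (h.t2 (i + 1) hi) q1 (by rw [q3]; abel) i3
  -- j1 : z y + y x, j2 : x z + z y, j3 : y x + x z
  constructor
  · have h1 : t i * z i + z i * t (i + 1) = t (i + 1) * t i + z i * t (i + 1) := by
      rw [j2, ← j1, add_comm]
    exact add_right_cancel h1
  · have h1 : z i * t (i + 1) + t i * z i = t (i + 1) * t i + t i * z i := by
      rw [j3, ← j2, add_comm]
    exact add_right_cancel h1

/-- neighbouring `t` have product zero -/
theorem tt1 {i : ℕ} (hi : i + 2 < N) : t i * t (i + 1) = 0 := by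
  obtain ⟨q1, q2, q3⟩ := lan_q h hi
  have hb : b i * t (i + 1) = 0 := h.bt (i + 1) hi i (by omega) (by omega) (by omega)
  have h1 := congrArg (fun w => w * t (i + 1)) (h.br0 i (by omega))
  simp only [add_mul] at h1
  have e1 : b i * t i * b i * t (i + 1) = 0 := by rw [mul_assoc, hb, mul_zero]
  have e2 : t i * b i * t i * t (i + 1) = 0 := by
    rw [mul_assoc, ← q1, mul_assoc, ← mul_assoc (b i), hb, zero_mul, mul_zero]
  rw [hb, e1, e2] at h1
  simpa using h1

theorem tt1' {i : ℕ} (hi : i + 2 < N) : t (i + 1) * t i = 0 := by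
  obtain ⟨q1, q2⟩ := lan_q' h hi
  have hb : t (i + 1) * b i = 0 := h.tb (i + 1) hi i (by omega) (by omega) (by omega)
  have h1 := congrArg (fun w => t (i + 1) * w) (h.br0 i (by omega))
  simp only [mul_add] at h1
  have e1 : t (i + 1) * (b i * t i * b i) = 0 := by
    rw [← mul_assoc, ← mul_assoc, hb, zero_mul, zero_mul]
  have e2 : t (i + 1) * (t i * b i * t i) = 0 := by
    rw [← mul_assoc, ← mul_assoc, ← q2, mul_assoc (z i), hb, mul_zero, zero_mul]
  rw [hb, e1, e2] at h1
  simpa using h1

/-- all products of two `t` vanish -/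
theorem tt_all {i k : ℕ} (hi : i + 1 < N) (hk : k + 1 < N) : t i * t k = 0 := by
  rcases Nat.lt_trichotomy i k with h1 | h1 | h1
  · rcases Nat.lt_or_ge (i + 1) k with h2 | h2
    · exact h.tt i k h2 hk
    · have : k = i + 1 := by omega
      subst this
      exact tt1 h (by omega)
  · subst h1; exact h.t2 i hi
  · rcases Nat.lt_or_ge (k + 1) i with h2 | h2
    · exact h.tt' k i h2 hi
    · have : i = k + 1 := by omega
      subst this
      exact tt1' h (by omega)

/-- the lantern relation between the operators -/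
theorem lan_sum {i : ℕ} (hi : i + 2 < N) :
    l i = t i + t (i + 1) + z i - a i - a (i + 1) - a (i + 2) := by
  obtain ⟨-, -, q3⟩ := lan_q h hi
  rw [tt1 h hi] at q3
  have : (l i + a i + a (i + 1) + a (i + 2)) - t i - t (i + 1) - z i +
      (t i + t (i + 1) + z i - a i - a (i + 1) - a (i + 2)) = l i := by abel
  rw [← this, ← q3, zero_add]

end

end Pool.Agent.Q290.MG
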