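import Mathlib
import Pool.Agent.Q290.MG.Op3

set_option autoImplicit false

/-! The vectors `β_i ⊗ w`. -/

namespace Pool.Agent.Q290.MG

open Module

section
variable {K V : Type*} [Field K] [AddCommGroup V] [Module K V] {N : ℕ}
  {a b t z l : ℕ → Module.End K V}

theorem app0 {x y : Module.End K V} (h : x * y = 0) (v : V) : x (y v) = 0 := by
  rw [← Module.End.mul_apply, h, LinearMap.zero_apply]

theorem app3 {x y : Module.End K V} (h : x + x * y * x = y + y * x * y) (v : V) :
    x v + x (y (x v)) = y v + y (x (y v)) := by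
  have := LinearMap.congr_fun h v
  simpa only [LinearMap.add_apply, Module.End.mul_apply] using this

/-- the vectors which behave like `β_i ⊗ w` -/
structure Bv (N : ℕ) (a b t : ℕ → Module.End K V) (i : ℕ) (v : V) : Prop where
  hb : ∀ k < N, b k v = 0
  ha : ∀ k < N, k ≠ i → a k v = 0
  ht : ∀ k, k + 1 < N → k ≠ i → k + 1 ≠ i → t k v = 0
  hba : b i (a i v) = -v
  hbt : ∀ k, k + 1 < N → (k = i ∨ k + 1 = i) → b i (t k v) = -v

/-- the invariant vectors -/
def inv (N : ℕ) (a b t : ℕ → Module.End K V) : Submodule K V where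
  carrier := {v | (∀ k < N, a k v = 0 ∧ b k v = 0) ∧ ∀ k, k + 1 < N → t k v = 0}
  zero_mem' := ⟨fun _ _ => ⟨map_zero _, map_zero _⟩, fun _ _ => map_zero _⟩
  add_mem' := by
    rintro u v ⟨h1, h2⟩ ⟨h3, h4⟩
    refine ⟨fun k hk => ⟨?_, ?_⟩, fun k hk => ?_⟩
    · rw [map_add, (h1 k hk).1, (h3 k hk).1, add_zero]
    · rw [map_add, (h1 k hk).2, (h3 k hk).2, add_zero]
    · rw [map_add, h2 k hk, h4 k hk, add_zero]
  smul_mem' := by
    rintro c v ⟨h1, h2⟩
    refine ⟨fun k hk => ⟨?_, ?_⟩, fun k hk => ?_⟩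
    · rw [map_smul, (h1 k hk).1, smul_zero]
    · rw [map_smul, (h1 k hk).2, smul_zero]
    · rw [map_smul, h2 k hk, smul_zero]

/-- the space of the vectors of type `i` -/
def Wi (N : ℕ) (a b t : ℕ → Module.End K V) (i : ℕ) : Submodule K V where
  carrier := {v | Bv N a b t i v}
  zero_mem' := ⟨fun _ _ => map_zero _, fun _ _ _ => map_zero _, fun _ _ _ _ => map_zero _,
    by rw [map_zero, map_zero, neg_zero], fun _ _ _ => by rw [map_zero, map_zero, neg_zero]⟩
  add_mem' := by
    rintro u v h1 h2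
    refine ⟨fun k hk => ?_, fun k hk hi => ?_, fun k hk hi hi' => ?_, ?_, fun k hk hi => ?_⟩
    · rw [map_add, h1.hb k hk, h2.hb k hk, add_zero]
    · rw [map_add, h1.ha k hk hi, h2.ha k hk hi, add_zero]
    · rw [map_add, h1.ht k hk hi hi', h2.ht k hk hi hi', add_zero]
    · rw [map_add, map_add, h1.hba, h2.hba, neg_add]
    · rw [map_add, map_add, h1.hbt k hk hi, h2.hbt k hk hi, neg_add]
  smul_mem' := by
    rintro c v h1
    refine ⟨fun k hk => ?_, fun k hk hi => ?_, fun k hk hi hi' => ?_, ?_, fun k hk hi => ?_⟩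
    · rw [map_smul, h1.hb k hk, smul_zero]
    · rw [map_smul, h1.ha k hk hi, smul_zero]
    · rw [map_smul, h1.ht k hk hi hi', smul_zero]
    · rw [map_smul, map_smul, h1.hba, smul_neg]
    · rw [map_smul, map_smul, h1.hbt k hk hi, smul_neg]

theorem mem_Wi {i : ℕ} {v : V} : v ∈ Wi N a b t i ↔ Bv N a b t i v := Iff.rfl

variable (h : OpRel N a b t z l)
include h

/-- the images of `b_i` on vectors killed by the operators `s` -/
theorem bv_of {i : ℕ} (hi : i < N) {m : V} (h1 : b i (a i (b i m)) = -b i m)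
    (h2 : ∀ k, k + 1 < N → (k = i ∨ k + 1 = i) → b i (t k (b i m)) = -b i m) :
    Bv N a b t i (b i m) where
  hb k hk := app0 (h.bb k hk i hi) m
  ha k hk hki := app0 (h.ab k hk i hi hki) m
  ht k hk h3 h4 := app0 (h.tb k hk i hi (Ne.symm h3) (fun h5 => h4 h5.symm)) m
  hba := h1
  hbt := h2

/-- `b_i a_i b_i t_k = - b_i t_k` -/
theorem bab_t {i k : ℕ} (hi : i < N) (hk : k + 1 < N) (v : V) :
    b i (a i (b i (t k v))) = -b i (t k v) := by
  have h1 := app3 (h.br i hi) (t k v)
  rw [app0 (h.at' k hk i hi), map_zero, map_zero, add_zero] at h1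
  exact (neg_eq_of_add_eq_zero_right h1.symm).symm

/-- `b_i t_j b_i t_k = - b_i t_k` for `i = j, j + 1` -/
theorem btb_t {i j k : ℕ} (hj : j + 1 < N) (hij : j = i ∨ j + 1 = i) (hk : k + 1 < N) (v : V) :
    b i (t j (b i (t k v))) = -b i (t k v) := by
  have h1 : t j (t k v) + t j (b i (t j (t k v))) = b i (t k v) + b i (t j (b i (t k v))) := by
    rcases hij with rfl | rfl
    · exact app3 (h.br0 j hj) (t k v)
    · exact app3 (h.br1 j hj) (t k v)
  rw [app0 (tt_all h hj hk), map_zero, map_zero, add_zero] at h1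
  exact (neg_eq_of_add_eq_zero_right h1.symm).symm

/-- `t_i b_k t_i v = - t_i v` if `b_k v = 0`, `k = i, i + 1` -/
theorem tbt_v {i k : ℕ} (hi : i + 1 < N) (hik : i = k ∨ i + 1 = k) {v : V} (hv : b k v = 0) :
    t i (b k (t i v)) = -t i v := by
  have h1 : t i v + t i (b k (t i v)) = b k v + b k (t i (b k v)) := by
    rcases hik with rfl | rfl
    · exact app3 (h.br0 i hi) v
    · exact app3 (h.br1 i hi) v
  rw [hv, map_zero, map_zero, add_zero] at h1
  exact (neg_eq_of_add_eq_zero_right h1).symm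

/-- the next vector -/
theorem bv_next {i : ℕ} (hi : i + 1 < N) {v : V} (hv : Bv N a b t i v) :
    Bv N a b t (i + 1) (-(b (i + 1) (t i v))) ∧ t i (-(b (i + 1) (t i v))) = t i v := by
  have h2 : t i (-(b (i + 1) (t i v))) = t i v := by
    rw [map_neg, tbt_v h hi (Or.inr rfl) (hv.hb _ hi), neg_neg]
  refine ⟨?_, h2⟩
  have h1 : Bv N a b t (i + 1) (b (i + 1) (t i v)) := by
    apply bv_of h hi (bab_t h hi hi v)
    intro k hk hk'
    exact btb_t h hk hk' hi v
  exact (Wi N a b t (i + 1)).neg_mem h1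

/-- the previous vector -/
theorem bv_prev {i : ℕ} (hi : i + 1 < N) {v : V} (hv : Bv N a b t (i + 1) v) :
    Bv N a b t i (-(b i (t i v))) ∧ -(b (i + 1) (t i (-(b i (t i v))))) = v := by
  have h2 : t i (-(b i (t i v))) = t i v := by
    rw [map_neg, tbt_v h hi (Or.inl rfl) (hv.hb _ (by omega)), neg_neg]
  refine ⟨?_, ?_⟩
  · have h1 : Bv N a b t i (b i (t i v)) := by
      apply bv_of h (by omega) (bab_t h (by omega) hi v)
      intro k hk hk'
      exact btb_t h hk hk' hi v
    exact (Wi N a b t i).neg_mem h1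
  · rw [h2, hv.hbt i hi (Or.inr rfl), neg_neg]

omit h in
/-- the vectors `β_i` -/
def be (b t : ℕ → Module.End K V) : ℕ → Module.End K V
  | 0 => 1
  | i + 1 => -(b (i + 1) * t i * be b t i)

omit h in
theorem be_succ (i : ℕ) (w : V) : be b t (i + 1) w = -(b (i + 1) (t i (be b t i w))) := rfl

omit h in
theorem be_zero (w : V) : be b t 0 w = w := rfl

theorem bv_be {i : ℕ} (hi : i < N) {w : V} (hw : Bv N a b t 0 w) :
    Bv N a b t i (be b t i w) := by
  induction i with
  | zero => exact hw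
  | succ i ih =>
    rw [be_succ]
    exact (bv_next h hi (ih (by omega))).1

/-- `t_i β_{i+1} = t_i β_i` -/
theorem t_be {i : ℕ} (hi : i + 1 < N) {w : V} (hw : Bv N a b t 0 w) :
    t i (be b t (i + 1) w) = t i (be b t i w) := by
  rw [be_succ]
  exact (bv_next h hi (bv_be h (by omega) hw)).2

theorem be_inj {i : ℕ} (hi : i < N) {w : V} (hw : Bv N a b t 0 w) (h0 : be b t i w = 0) :
    w = 0 := by
  induction i with
  | zero => exact h0
  | succ i ih =>
    apply ih (by omega)
    have hv := bv_be h (i := i) (by omega) hw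
    have h1 := t_be h hi hw
    rw [h0, map_zero] at h1
    have h2 := hv.hbt i hi (Or.inl rfl)
    rw [← h1, map_zero] at h2
    exact neg_eq_zero.1 h2.symm

/-- every vector of type `i` is obtained -/
theorem be_surj {i : ℕ} (hi : i < N) {v : V} (hv : Bv N a b t i v) :
    ∃ w, Bv N a b t 0 w ∧ be b t i w = v := by
  induction i generalizing v with
  | zero => exact ⟨v, hv, rfl⟩
  | succ i ih =>
    obtain ⟨h1, h2⟩ := bv_prev h hi hv
    obtain ⟨w, hw, hw2⟩ := ih (by omega) h1
    exact ⟨w, hw, by rw [be_succ, hw2, h2]⟩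

omit h in
/-- `δ_i = t_i β_i - a_i β_i - a_{i+1} β_{i+1}` -/
def de (a b t : ℕ → Module.End K V) (i : ℕ) : Module.End K V :=
  t i * be b t i - a i * be b t i - a (i + 1) * be b t (i + 1)

omit h in
theorem de_apply (i : ℕ) (w : V) :
    de a b t i w = t i (be b t i w) - a i (be b t i w) - a (i + 1) (be b t (i + 1) w) := rfl

omit h in
theorem t_eq {i : ℕ} (w : V) :
    t i (be b t i w) = a i (be b t i w) + a (i + 1) (be b t (i + 1) w) + de a b t i w := by
  rw [de_apply]; abel

theorem de_inv {i : ℕ} (hi : i + 1 < N) {w : V} (hw : Bv N a b t 0 w) :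
    de a b t i w ∈ inv N a b t := by
  have h1 := bv_be h (i := i) (by omega) hw
  have h2 := bv_be h (i := i + 1) hi hw
  refine ⟨fun k hk => ⟨?_, ?_⟩, fun k hk => ?_⟩
  · rw [de_apply, map_sub, map_sub, app0 (h.at' i hi k hk), app0 (h.aa k hk i (by omega)),
      app0 (h.aa k hk (i + 1) hi)]
    simp
  · rw [de_apply, map_sub, map_sub]
    by_cases h3 : k = i
    · subst h3
      rw [h1.hbt k hi (Or.inl rfl), h1.hba, app0 (h.ba k hk (k + 1) hi (by omega))]
      simp
    · by_cases h4 : k = i + 1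
      · subst h4
        have e : b (i + 1) (t i (be b t i w)) = -be b t (i + 1) w := by
          rw [be_succ, neg_neg]
        rw [e, app0 (h.ba (i + 1) hk i (by omega) (by omega)), h2.hba]
        simp
      · rw [app0 (h.bt i hi k hk h3 h4), app0 (h.ba k hk i (by omega) h3),
          app0 (h.ba k hk (i + 1) hi h4)]
        simp
  · rw [de_apply, map_sub, map_sub, app0 (tt_all h hk hi), app0 (h.ta k hk i (by omega)),
      app0 (h.ta k hk (i + 1) hi)]
    simp

/-- all the `δ_i` are equal -/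
theorem de_eq {i : ℕ} (hi : i + 2 < N) {w : V} (hw : Bv N a b t 0 w) :
    de a b t (i + 1) w = de a b t i w := by
  have h0 := bv_be h (i := i) (by omega) hw
  have h1 := bv_be h (i := i + 1) (by omega) hw
  have h2 := bv_be h (i := i + 2) hi hw
  set v0 := be b t i w with hv0
  set v1 := be b t (i + 1) w with hv1
  set v2 := be b t (i + 2) w with hv2
  have hl : ∀ v, l i v = t i v + t (i + 1) v + z i v - a i v - a (i + 1) v - a (i + 2) v := by
    intro v
    rw [lan_sum h hi]
    rfl
  -- `l v0`, `l v1`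
  have z1 : z i v1 = 0 := by
    rw [hv1, be_succ, map_neg, app0 (h.zb i hi), neg_zero]
  have t10 : t (i + 1) v0 = 0 := h0.ht (i + 1) hi (by omega) (by omega)
  have t02 : t i v2 = 0 := h2.ht i (by omega) (by omega) (by omega)
  have l0 : l i v0 = t i v0 + z i v0 - a i v0 := by
    rw [hl, t10, h0.ha (i + 1) (by omega) (by omega), h0.ha (i + 2) hi (by omega)]
    abel
  have l1 : l i v1 = t i v0 + t (i + 1) v1 - a (i + 1) v1 := by
    rw [hl, z1, h1.ha i (by omega) (by omega), h1.ha (i + 2) hi (by omega),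
      hv1, t_be h (by omega) hw]
    abel
  have l2' : l i v2 = t (i + 1) v1 + z i v2 - a (i + 2) v2 := by
    rw [hl, t02, h2.ha i (by omega) (by omega), h2.ha (i + 1) (by omega) (by omega),
      hv2, t_be h (i := i + 1) hi hw]
    abel
  -- the braid relation of `l` and `b_k` on vectors killed by `b_k`
  have lbl : ∀ k, i ≤ k → k ≤ i + 2 → ∀ v, b k v = 0 → l i (b k (l i v)) = -l i v := by
    intro k hk1 hk2 v hv
    have e := app3 (h.brl i hi k hk1 hk2) v
    rw [hv, map_zero, map_zero, add_zero] at e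
    exact (neg_eq_of_add_eq_zero_right e).symm
  -- `l v1 = l v0`
  have e1 : b (i + 1) (l i v0) = -v1 := by
    rw [l0, map_sub, map_add, app0 (h.bz i hi), app0 (h.ba (i + 1) (by omega) i (by omega)
      (by omega)), hv1, be_succ]
    simp only [add_zero, sub_zero, neg_neg]
    rfl
  have e2 : l i v1 = l i v0 := by
    have e := lbl (i + 1) (by omega) (by omega) v0 (h0.hb _ (by omega))
    rw [e1, map_neg, neg_inj] at e
    exact e
  -- `l v2 = l v0`
  have e3 : b (i + 2) (l i v0) = -v2 := by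
    rw [← e2, l1, map_sub, map_add, app0 (h.bt i (by omega) (i + 2) hi (by omega) (by omega)),
      app0 (h.ba (i + 2) hi (i + 1) (by omega) (by omega)), hv2, be_succ]
    simp only [zero_add, sub_zero, neg_neg]
    rfl
  have e4 : l i v2 = l i v0 := by
    have e := lbl (i + 2) (by omega) (by omega) v0 (h0.hb _ hi)
    rw [e3, map_neg, neg_inj] at e
    exact e
  -- `z v2 = z v0`
  have e5 : b (i + 2) (z i v0) = -v2 := by
    rw [l0, map_sub, map_add, app0 (h.bt i (by omega) (i + 2) hi (by omega) (by omega)),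
      app0 (h.ba (i + 2) hi i (by omega) (by omega)), zero_add, sub_zero] at e3
    exact e3
  have e6 : z i v2 = z i v0 := by
    have e := app3 (h.brz2 i hi) v0
    rw [h0.hb _ hi, map_zero, map_zero, add_zero, e5, map_neg] at e
    exact (add_neg_eq_zero.1 e).symm
  -- comparison
  have e7 : t (i + 1) v1 - a (i + 2) v2 = t i v0 - a i v0 := by
    have h3 : t (i + 1) v1 + z i v0 - a (i + 2) v2 = t i v0 + z i v0 - a i v0 := by
      rw [← e6, ← l2', e4, l0, e6]
    calc t (i + 1) v1 - a (i + 2) v2 = (t (i + 1) v1 + z i v0 - a (i + 2) v2) - z i v0 := by abel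
      _ = (t i v0 + z i v0 - a i v0) - z i v0 := by rw [h3]
      _ = _ := by abel
  rw [de_apply, de_apply]
  have h8 : t (i + 1) v1 - a (i + 1) v1 - a (i + 2) v2 =
      (t (i + 1) v1 - a (i + 2) v2) - a (i + 1) v1 := by abel
  show t (i + 1) v1 - a (i + 1) v1 - a (i + 2) v2 = t i v0 - a i v0 - a (i + 1) v1
  rw [h8, e7]

theorem de_const {i : ℕ} (hi : i + 1 < N) {w : V} (hw : Bv N a b t 0 w) :
    de a b t i w = de a b t 0 w := by
  induction i with
  | zero => rfl
  | succ i ih => rw [de_eq h hi hw, ih (by omega)]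

end

end Pool.Agent.Q290.MG
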