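import Mathlib
import Pool.Agent.Q290.MG.Op4

set_option autoImplicit false

/-! The subspace `[G, V]`. -/

namespace Pool.Agent.Q290.MG

open Pool.Agent.H798R3.MG Pool.Agent.H29R2.MG Pool.Agent.TH35.MG Module

section
variable {K V G : Type*} [Field K] [AddCommGroup V] [Module K V] [Group G]

/-- the subspace spanned by the `(γ - 1) u`, `u ∈ U` -/
def aug (ρ : G →* Module.End K V) (U : Submodule K V) : Submodule K V :=
  Submodule.span K {v | ∃ γ : G, ∃ u ∈ U, v = (ρ γ - 1) u}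

theorem mem_aug (ρ : G →* Module.End K V) {U : Submodule K V} (γ : G) {u : V} (hu : u ∈ U) :
    (ρ γ - 1) u ∈ aug ρ U := Submodule.subset_span ⟨γ, u, hu, rfl⟩

theorem aug_stable (ρ : G →* Module.End K V) {U : Submodule K V}
    (hU : ∀ γ : G, ∀ u ∈ U, ρ γ u ∈ U) (γ : G) {v : V} (hv : v ∈ aug ρ U) :
    ρ γ v ∈ aug ρ U := by
  induction hv using Submodule.span_induction with
  | mem v hv =>
    obtain ⟨γ', u, hu, rfl⟩ := hv
    have e : ρ γ ((ρ γ' - 1) u) = (ρ (γ * γ' * γ⁻¹) - 1) (ρ γ u) := by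
      simp only [LinearMap.sub_apply, Module.End.one_apply, map_sub, ← Module.End.mul_apply,
        ← map_mul]
      congr 3
      group
    rw [e]
    exact mem_aug ρ _ (hU γ u hu)
  | zero => rw [map_zero]; exact Submodule.zero_mem _
  | add x y _ _ hx hy => rw [map_add]; exact Submodule.add_mem _ hx hy
  | smul c x _ hx => rw [map_smul]; exact Submodule.smul_mem _ _ hx

variable {ρ : G →* Module.End K V} {A B T : ℕ → G} {N : ℕ}

/-- the group is generated by the elements `A_i`, `B_i`, `T_i` -/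
def Gen (N : ℕ) (A B T : ℕ → G) : Prop :=
  Subgroup.closure ({x | ∃ i < N, x = A i ∨ x = B i} ∪ {x | ∃ i, i + 1 < N ∧ x = T i}) = ⊤

/-- induction over the group -/
theorem Gen.ind (hG : Gen N A B T) (p : G → Prop) (hA : ∀ i < N, p (A i)) (hB : ∀ i < N, p (B i))
    (hT : ∀ i, i + 1 < N → p (T i)) (h1 : p 1) (hm : ∀ x y, p x → p y → p (x * y))
    (hi : ∀ x, p x → p x⁻¹) (x : G) : p x := by
  have hx : x ∈ Subgroup.closure ({x | ∃ i < N, x = A i ∨ x = B i} ∪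
      {x | ∃ i, i + 1 < N ∧ x = T i}) := by
    have h2 : Subgroup.closure ({x | ∃ i < N, x = A i ∨ x = B i} ∪
      {x | ∃ i, i + 1 < N ∧ x = T i}) = ⊤ := hG
    rw [h2]; trivial
  induction hx using Subgroup.closure_induction with
  | mem x hx =>
    rcases hx with ⟨i, hi, rfl | rfl⟩ | ⟨i, hi, rfl⟩
    · exact hA i hi
    · exact hB i hi
    · exact hT i hi
  | one => exact h1
  | mul x y _ _ hx hy => exact hm x y hx hy
  | inv x _ hx => exact hi x hx

/-- the operators of the handles -/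
abbrev oA (ρ : G →* Module.End K V) (A : ℕ → G) (i : ℕ) : Module.End K V := ρ (A i) - 1

/-- the invariants of the group -/
theorem inv_iff (hG : Gen N A B T) (v : V) :
    v ∈ inv N (oA ρ A) (oA ρ B) (oA ρ T) ↔ ∀ γ : G, ρ γ v = v := by
  constructor
  · rintro ⟨h1, h2⟩
    have e : ∀ x : G, (ρ x - 1) v = 0 → ρ x v = v := by
      intro x hx
      rw [LinearMap.sub_apply, Module.End.one_apply, sub_eq_zero] at hx
      exact hx
    refine hG.ind (fun γ => ρ γ v = v) (fun i hi => e _ (h1 i hi).1)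
      (fun i hi => e _ (h1 i hi).2) (fun i hi => e _ (h2 i hi)) ?_ ?_ ?_
    · rw [map_one, Module.End.one_apply]
    · intro x y hx hy
      rw [map_mul, Module.End.mul_apply, hy, hx]
    · intro x hx
      conv_lhs => rw [← hx]
      rw [← Module.End.mul_apply, ← map_mul, inv_mul_cancel, map_one, Module.End.one_apply]
  · intro h
    have e : ∀ x : G, (ρ x - 1) v = 0 := by
      intro x
      rw [LinearMap.sub_apply, Module.End.one_apply, h, sub_self]
    exact ⟨fun k _ => ⟨e _, e _⟩, fun k _ => e _⟩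

/-- membership in a stable subspace is checked on generators -/
theorem aug_le (hG : Gen N A B T) {U U' : Submodule K V} (hU : ∀ γ : G, ∀ u ∈ U, ρ γ u ∈ U)
    (hA : ∀ i < N, ∀ u ∈ U, oA ρ A i u ∈ U') (hB : ∀ i < N, ∀ u ∈ U, oA ρ B i u ∈ U')
    (hT : ∀ i, i + 1 < N → ∀ u ∈ U, oA ρ T i u ∈ U') : aug ρ U ≤ U' := by
  rw [aug, Submodule.span_le]
  rintro v ⟨γ, u, hu, rfl⟩
  revert u
  refine hG.ind (fun γ => ∀ u, u ∈ U → (ρ γ - 1) u ∈ U') hA hB hT ?_ ?_ ?_ γ
  · intro u _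
    rw [map_one, sub_self, LinearMap.zero_apply]; exact U'.zero_mem
  · intro x y hx hy u hu
    have e : (ρ (x * y) - 1) u = (ρ x - 1) (ρ y u) + (ρ y - 1) u := by
      rw [map_mul]
      simp only [LinearMap.sub_apply, Module.End.one_apply, Module.End.mul_apply]
      abel
    rw [e]
    exact U'.add_mem (hx _ (hU y u hu)) (hy u hu)
  · intro x hx u hu
    have e : (ρ x⁻¹ - 1) u = -((ρ x - 1) (ρ x⁻¹ u)) := by
      simp only [LinearMap.sub_apply, Module.End.one_apply]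
      rw [← Module.End.mul_apply, ← map_mul, mul_inv_cancel, map_one, Module.End.one_apply]
      abel
    rw [e]
    exact U'.neg_mem (hx _ (hU x⁻¹ u hu))

/-- an operator killing the images of the generators kills `[G, V]` -/
theorem kill_aug (hG : Gen N A B T) {s : Module.End K V} (hA : ∀ i < N, s * oA ρ A i = 0)
    (hB : ∀ i < N, s * oA ρ B i = 0) (hT : ∀ i, i + 1 < N → s * oA ρ T i = 0) :
    ∀ v ∈ aug ρ ⊤, s v = 0 := by
  have h := aug_le (ρ := ρ) hG (U := ⊤) (U' := LinearMap.ker s) (fun _ _ _ => trivial)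
    (fun i hi u _ => app0 (hA i hi) u) (fun i hi u _ => app0 (hB i hi) u)
    (fun i hi u _ => app0 (hT i hi) u)
  intro v hv
  exact h hv

/-- the operators of level at most one -/
abbrev OR (N : ℕ) (ρ : G →* Module.End K V) (A B T : ℕ → G) : Prop :=
  OpRel N (oA ρ A) (oA ρ B) (oA ρ T) (oA ρ (Dd A B T)) (oA ρ (Ll A B T))

/-- the relations `s = 0` on `[G, V]` -/
theorem s_ba (h : OR N ρ A B T) (hG : Gen N A B T) {i : ℕ} (hi : i < N) {m : V}
    (hm : m ∈ aug ρ ⊤) :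
    oA ρ B i (oA ρ A i (oA ρ B i m)) = -oA ρ B i m ∧
      oA ρ A i (oA ρ B i (oA ρ A i m)) = -oA ρ A i m := by
  have hbr := h.br i hi
  have h1 : ∀ v ∈ aug ρ ⊤, (oA ρ A i + oA ρ A i * oA ρ B i * oA ρ A i) v = 0 := by
    apply kill_aug hG
    · intro k hk
      rw [add_mul, mul_assoc, h.aa i hi k hk, mul_zero, add_zero]
    · intro k hk
      rw [hbr, add_mul, mul_assoc, h.bb i hi k hk, mul_zero, add_zero]
    · intro k hk
      rw [add_mul, mul_assoc, h.at' k hk i hi, mul_zero, add_zero]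
  have h2 := h1 m hm
  have h3 : (oA ρ B i + oA ρ B i * oA ρ A i * oA ρ B i) m = 0 := by rw [← hbr]; exact h2
  constructor
  · exact (neg_eq_of_add_eq_zero_right h3).symm
  · exact (neg_eq_of_add_eq_zero_right h2).symm

theorem s_bt (h : OR N ρ A B T) (hG : Gen N A B T) {i k : ℕ} (hi : i < N) (hk : k + 1 < N)
    (hik : k = i ∨ k + 1 = i) {m : V} (hm : m ∈ aug ρ ⊤) :
    oA ρ B i (oA ρ T k (oA ρ B i m)) = -oA ρ B i m ∧
      oA ρ T k (oA ρ B i (oA ρ T k m)) = -oA ρ T k m := by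
  have hbr : oA ρ T k + oA ρ T k * oA ρ B i * oA ρ T k =
      oA ρ B i + oA ρ B i * oA ρ T k * oA ρ B i := by
    rcases hik with rfl | rfl
    · exact h.br0 k hk
    · exact h.br1 k hk
  have h1 : ∀ v ∈ aug ρ ⊤, (oA ρ T k + oA ρ T k * oA ρ B i * oA ρ T k) v = 0 := by
    apply kill_aug hG
    · intro j hj
      rw [add_mul, mul_assoc, h.ta k hk j hj, mul_zero, add_zero]
    · intro j hj
      rw [hbr, add_mul, mul_assoc, h.bb i hi j hj, mul_zero, add_zero]
    · intro j hj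
      rw [add_mul, mul_assoc, tt_all h hk hj, mul_zero, add_zero]
  have h2 := h1 m hm
  have h3 : (oA ρ B i + oA ρ B i * oA ρ T k * oA ρ B i) m = 0 := by rw [← hbr]; exact h2
  constructor
  · exact (neg_eq_of_add_eq_zero_right h3).symm
  · exact (neg_eq_of_add_eq_zero_right h2).symm

/-- `[G, V] = [G, [G, V]]` -/
theorem aug_aug (h : OR N ρ A B T) (hG : Gen N A B T) (h3 : 3 ≤ N) :
    aug ρ ⊤ ≤ aug ρ (aug ρ ⊤) := by
  set M := aug ρ (⊤ : Submodule K V) with hM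
  have hMs : ∀ γ : G, ∀ u ∈ M, ρ γ u ∈ M := fun γ u hu =>
    aug_stable ρ (U := ⊤) (fun _ _ _ => Submodule.mem_top) γ hu
  set M2 := aug ρ M with hM2
  have hx : ∀ γ γ' : G, ∀ v, (ρ γ - 1) ((ρ γ' - 1) v) ∈ M2 := fun γ γ' v =>
    mem_aug ρ γ (mem_aug ρ γ' trivial)
  -- braid relations modulo `M2`
  have key : ∀ x y : G, (ρ x - 1) + (ρ x - 1) * (ρ y - 1) * (ρ x - 1) =
      (ρ y - 1) + (ρ y - 1) * (ρ x - 1) * (ρ y - 1) → ∀ v, (ρ x - 1) v - (ρ y - 1) v ∈ M2 := by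
    intro x y hxy v
    have e := app3 hxy v
    have e2 : (ρ x - 1) v - (ρ y - 1) v = (ρ y - 1) ((ρ x - 1) ((ρ y - 1) v)) -
        (ρ x - 1) ((ρ y - 1) ((ρ x - 1) v)) := by
      rw [sub_eq_sub_iff_add_eq_add, e, add_comm]
    rw [e2]
    exact M2.sub_mem (hx _ _ _) (hx _ _ _)
  have ab : ∀ i < N, ∀ v, (ρ (A i) - 1) v - (ρ (B i) - 1) v ∈ M2 := fun i hi =>
    key _ _ (h.br i hi)
  have tb0 : ∀ i, i + 1 < N → ∀ v, (ρ (T i) - 1) v - (ρ (B i) - 1) v ∈ M2 := fun i hi =>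
    key _ _ (h.br0 i hi)
  have tb1 : ∀ i, i + 1 < N → ∀ v, (ρ (T i) - 1) v - (ρ (B (i + 1)) - 1) v ∈ M2 := fun i hi =>
    key _ _ (h.br1 i hi)
  have bb : ∀ i < N, ∀ v, (ρ (B i) - 1) v - (ρ (B 0) - 1) v ∈ M2 := by
    intro i
    induction i with
    | zero => intro _ v; rw [sub_self]; exact M2.zero_mem
    | succ i ih =>
      intro hi v
      have h1 := M2.sub_mem (tb0 i hi v) (tb1 i hi v)
      have h2 := M2.add_mem (ih (by omega) v) (M2.neg_mem (M2.neg_mem h1))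
      rw [neg_neg] at h2
      have e : (ρ (B i) - 1) v - (ρ (B 0) - 1) v + ((ρ (T i) - 1) v - (ρ (B i) - 1) v -
          ((ρ (T i) - 1) v - (ρ (B (i + 1)) - 1) v)) =
          (ρ (B (i + 1)) - 1) v - (ρ (B 0) - 1) v := by abel
      rwa [e] at h2
  have hb0 : ∀ v, (ρ (B 0) - 1) v ∈ M2 := by
    intro v
    have hs := LinearMap.congr_fun (lan_sum h (i := 0) (by omega)) v
    simp only [LinearMap.sub_apply (oA ρ T 0 + oA ρ T (0 + 1) + oA ρ (Dd A B T) 0 - oA ρ A 0 -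
      oA ρ A (0 + 1)), LinearMap.sub_apply (oA ρ T 0 + oA ρ T (0 + 1) + oA ρ (Dd A B T) 0 -
      oA ρ A 0), LinearMap.sub_apply (oA ρ T 0 + oA ρ T (0 + 1) + oA ρ (Dd A B T) 0),
      LinearMap.add_apply] at hs
    have hl := key _ _ (h.brl 0 (by omega) 0 le_rfl (by omega)) v
    have hz := key _ _ (h.brz0 0 (by omega)) v
    have h0 := tb0 0 (by omega) v
    have h1 := tb1 0 (by omega) v
    have h1' := tb0 1 (by omega) v
    have a0 := ab 0 (by omega) v
    have a1 := ab 1 (by omega) v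
    have a2 := ab 2 (by omega) v
    have b1 := bb 1 (by omega) v
    have b2 := bb 2 (by omega) v
    -- everything is congruent to `B_0 - 1`
    have e : (ρ (B 0) - 1) v = -((ρ (Ll A B T 0) - 1) v - (ρ (B 0) - 1) v) +
        (((ρ (T 0) - 1) v - (ρ (B 0) - 1) v) + (((ρ (T 1) - 1) v - (ρ (B 1) - 1) v) +
          ((ρ (B 1) - 1) v - (ρ (B 0) - 1) v)) + ((ρ (Dd A B T 0) - 1) v - (ρ (B 0) - 1) v) -
        ((ρ (A 0) - 1) v - (ρ (B 0) - 1) v) - (((ρ (A 1) - 1) v - (ρ (B 1) - 1) v) +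
          ((ρ (B 1) - 1) v - (ρ (B 0) - 1) v)) - (((ρ (A 2) - 1) v - (ρ (B 2) - 1) v) +
          ((ρ (B 2) - 1) v - (ρ (B 0) - 1) v))) := by
      have hs' : (ρ (Ll A B T 0) - 1) v = (ρ (T 0) - 1) v + (ρ (T 1) - 1) v +
          (ρ (Dd A B T 0) - 1) v - (ρ (A 0) - 1) v - (ρ (A 1) - 1) v - (ρ (A 2) - 1) v := hs
      rw [hs']
      abel
    rw [e]
    exact M2.add_mem (M2.neg_mem hl) (M2.sub_mem (M2.sub_mem (M2.sub_mem (M2.add_mem
      (M2.add_mem h0 (M2.add_mem h1' b1)) hz) a0) (M2.add_mem a1 b1)) (M2.add_mem a2 b2))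
  have hbk : ∀ i < N, ∀ v, (ρ (B i) - 1) v ∈ M2 := by
    intro i hi v
    have := M2.add_mem (bb i hi v) (hb0 v)
    rwa [sub_add_cancel] at this
  refine aug_le hG (fun _ _ _ => trivial) ?_ ?_ ?_
  · intro i hi v _
    have := M2.add_mem (ab i hi v) (hbk i hi v)
    rwa [sub_add_cancel] at this
  · intro i hi v _
    exact hbk i hi v
  · intro i hi v _
    have := M2.add_mem (tb0 i hi v) (hbk i (by omega) v)
    rwa [sub_add_cancel] at this

/-- the images of the generators on `[G, V]` -/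
theorem img_B (h : OR N ρ A B T) (hG : Gen N A B T) {i : ℕ} (hi : i < N) {m : V}
    (hm : m ∈ aug ρ ⊤) : Bv N (oA ρ A) (oA ρ B) (oA ρ T) i (oA ρ B i m) :=
  bv_of h hi (s_ba h hG hi hm).1 fun _ hk hk' => (s_bt h hG hi hk hk' hm).1

/-- the structure of `[G, V]` -/
theorem aug_struct (h : OR N ρ A B T) (hG : Gen N A B T) (h3 : 3 ≤ N) {U : Submodule K V}
    (h1 : ∀ i < N, ∀ w, Bv N (oA ρ A) (oA ρ B) (oA ρ T) 0 w →
      be (oA ρ B) (oA ρ T) i w ∈ U ∧ oA ρ A i (be (oA ρ B) (oA ρ T) i w) ∈ U)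
    (h2 : ∀ w, Bv N (oA ρ A) (oA ρ B) (oA ρ T) 0 w →
      de (oA ρ A) (oA ρ B) (oA ρ T) 0 w ∈ U) : aug ρ ⊤ ≤ U := by
  have hMs : ∀ γ : G, ∀ u ∈ aug ρ (⊤ : Submodule K V), ρ γ u ∈ aug ρ (⊤ : Submodule K V) :=
    fun γ u hu => aug_stable ρ (U := ⊤) (fun _ _ _ => Submodule.mem_top) γ hu
  refine (aug_aug h hG h3).trans (aug_le hG hMs ?_ ?_ ?_)
  · intro i hi m hm
    have e : oA ρ A i m = -(oA ρ A i (oA ρ B i (oA ρ A i m))) := by
      rw [(s_ba h hG hi hm).2, neg_neg]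
    obtain ⟨w, hw, hw2⟩ := be_surj h hi (img_B h hG hi (mem_aug ρ (A i) (u := m) trivial))
    rw [e, ← hw2]
    exact U.neg_mem (h1 i hi w hw).2
  · intro i hi m hm
    obtain ⟨w, hw, hw2⟩ := be_surj h hi (img_B h hG hi hm)
    rw [← hw2]
    exact (h1 i hi w hw).1
  · intro i hi m hm
    have e : oA ρ T i m = -(oA ρ T i (oA ρ B i (oA ρ T i m))) := by
      rw [(s_bt h hG (by omega) hi (Or.inl rfl) hm).2, neg_neg]
    obtain ⟨w, hw, hw2⟩ := be_surj h (i := i) (by omega)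
      (img_B h hG (by omega) (mem_aug ρ (T i) (u := m) trivial))
    rw [e, ← hw2, t_eq, de_const h hi hw]
    exact U.neg_mem (U.add_mem (U.add_mem (h1 i (by omega) w hw).2 (h1 (i + 1) hi w hw).2)
      (h2 w hw))

end

end Pool.Agent.Q290.MG
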