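import Mathlib
import Pool.Agent.Q290.MG.Full
import Pool.Agent.Q290.MG.Op5
import Pool.Agent.TH35.MG.Thm
import Pool.Agent.Q290.MG.GamDef

set_option autoImplicit false

/-! The group generated by the twists about `a_i`, `b_i` and the band sums of `a_i` and `a_{i+1}`. -/

namespace Pool.Agent.Q290.MG

open Pool.Agent.H798R3.MG Pool.Agent.H29R2.MG Pool.Agent.TH35.MG

section
variable {g : ℕ}

theorem mk_ha {k : ℕ} (h : k < g) : mk g (ha g k) = gen (Sum.inl ⟨k, h⟩) := by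
  rw [ha, dif_pos h]; rfl

theorem mk_hb {k : ℕ} (h : k < g) : mk g (hb g k) = gen (Sum.inr ⟨k, h⟩) := by
  rw [hb, dif_pos h]; rfl

theorem mk_dd {k : ℕ} (h : k < g) : mk g (dd g k) = comK g k h := by
  rw [dd, map_mul, map_mul, map_mul, map_inv, map_inv, mk_ha h, mk_hb h]; rfl

theorem De_one (k : ℕ) : De g k (k + 1) = dd g k := by
  unfold De
  rw [show k + 1 - k = 1 by omega]
  simp

theorem mk_uT {k : ℕ} (h : k + 1 < g) : mk g (uT g k (k + 1)) = loopU g k h := by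
  rw [uT, De_one, map_mul, map_mul, map_mul, map_inv, mk_dd (by omega), mk_ha h,
    mk_ha (by omega)]; rfl

theorem mk_pT {k : ℕ} (h : k + 1 < g) : mk g (pT g k (k + 1)) = loopP g k h := by
  rw [pT, De_one, map_mul, map_mul, map_mul, map_inv, mk_dd (by omega), mk_ha h,
    mk_ha (by omega)]; rfl

theorem vA (h2 : 2 ≤ g) {k : ℕ} (hk : k < g) (j : Fin g ⊕ Fin g) :
    applyAut g (TQ.qh g (sA g k)) (gen j) = valA g k j := by
  show TQ.qe (sA g k) (mk g (FreeGroup.of j)) = _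
  rw [TQ.qe_mk, sA, mkS_apply (ok_A h2 hk)]
  rcases j with i | i
  · show mk g (hA g k (fa i)) = _
    rw [hA, O3aux.ends_fa]; rfl
  · show mk g (hA g k (fb i)) = if (i : ℕ) = k then _ else _
    rw [hA, O3aux.ends_fb]
    by_cases h : (i : ℕ) = k
    · subst h
      rw [if_pos rfl, if_pos rfl, map_mul, mk_ha hk]; rfl
    · rw [if_neg h, if_neg h]; rfl

theorem vB (h2 : 2 ≤ g) {k : ℕ} (hk : k < g) (j : Fin g ⊕ Fin g) :
    applyAut g (TQ.qh g (sB g k)) (gen j) = valB g k j := by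
  show TQ.qe (sB g k) (mk g (FreeGroup.of j)) = _
  rw [TQ.qe_mk, sB, mkS_apply (ok_B h2 hk)]
  rcases j with i | i
  · show mk g (hB g k (fa i)) = if (i : ℕ) = k then _ else _
    rw [hB, O3aux.ends_fa]
    by_cases h : (i : ℕ) = k
    · subst h
      rw [if_pos rfl, if_pos rfl, map_mul, map_inv, mk_hb hk]; rfl
    · rw [if_neg h, if_neg h]; rfl
  · show mk g (hB g k (fb i)) = _
    rw [hB, O3aux.ends_fb]; rfl

theorem vT (h2 : 2 ≤ g) {k : ℕ} (hk : k + 1 < g) (j : Fin g ⊕ Fin g) :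
    applyAut g (TQ.qh g (sT g k (k + 1))) (gen j) = valT g k hk j := by
  show TQ.qe (sT g k (k + 1)) (mk g (FreeGroup.of j)) = _
  rw [TQ.qe_mk, sT, mkS_apply (ok_T h2 (by omega) (by omega) hk)]
  rcases j with i | i
  · show mk g (hT g k (k + 1) (fa i)) = if (i : ℕ) = k then _ else if (i : ℕ) = k + 1 then _ else _
    rw [hT, O3aux.ends_fa]
    by_cases h : (i : ℕ) = k
    · rw [if_pos h, if_pos h, map_mul, map_mul, map_inv, mk_uT hk]; rfl
    · rw [if_neg h, if_neg h]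
      by_cases h' : (i : ℕ) = k + 1
      · rw [if_pos h', if_pos h', map_mul, map_mul, map_inv, mk_pT hk]; rfl
      · rw [if_neg h', if_neg h']; rfl
  · show mk g (hT g k (k + 1) (fb i)) = if (i : ℕ) = k then _ else if (i : ℕ) = k + 1 then _ else _
    rw [hT, O3aux.ends_fb]
    by_cases h : (i : ℕ) = k
    · rw [if_pos h, if_pos h, map_mul, mk_uT hk]; rfl
    · rw [if_neg h, if_neg h]
      by_cases h' : (i : ℕ) = k + 1
      · rw [if_pos h', if_pos h', map_mul, mk_pT hk]; rfl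
      · rw [if_neg h', if_neg h']; rfl

theorem tau_ext {τ σ : orientedAut g} (h : ∀ j, applyAut g τ (gen j) = applyAut g σ (gen j)) :
    τ = σ := by
  apply Subtype.ext
  apply MulEquiv.ext
  intro y
  have h1 : ((τ : MulAut (SurfaceGroup g)) : SurfaceGroup g →* SurfaceGroup g) =
      ((σ : MulAut (SurfaceGroup g)) : SurfaceGroup g →* SurfaceGroup g) := surface_ext h
  exact DFunLike.congr_fun h1 y

theorem humph_iff (h2 : 2 ≤ g) (T : Mod g) : IsHumph g T ↔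
    (∃ i < g, T = modF g (sA g i) ∨ T = modF g (sB g i)) ∨
      ∃ i, i + 1 < g ∧ T = modF g (sT g i (i + 1)) := by
  constructor
  · rintro ⟨τ, rfl, ⟨k, hk, h⟩ | ⟨k, hk, h⟩ | ⟨k, hk, h⟩⟩
    · have e : τ = TQ.qh g (sA g k) := tau_ext fun j => by rw [h, vA h2 hk]
      exact Or.inl ⟨k, hk, Or.inl (by rw [e]; rfl)⟩
    · have e : τ = TQ.qh g (sB g k) := tau_ext fun j => by rw [h, vB h2 hk]
      exact Or.inl ⟨k, hk, Or.inr (by rw [e]; rfl)⟩
    · have e : τ = TQ.qh g (sT g k (k + 1)) := tau_ext fun j => by rw [h, vT h2 hk]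
      exact Or.inr ⟨k, hk, by rw [e]; rfl⟩
  · rintro (⟨i, hi, rfl | rfl⟩ | ⟨i, hi, rfl⟩)
    · exact ⟨TQ.qh g (sA g i), rfl, Or.inl ⟨i, hi, vA h2 hi⟩⟩
    · exact ⟨TQ.qh g (sB g i), rfl, Or.inr (Or.inl ⟨i, hi, vB h2 hi⟩)⟩
    · exact ⟨TQ.qh g (sT g i (i + 1)), rfl, Or.inr (Or.inr ⟨i, hi, vT h2 hi⟩)⟩

theorem memA (h2 : 2 ≤ g) {i : ℕ} (hi : i < g) : modF g (sA g i) ∈ Gam g :=
  Subgroup.subset_closure ((humph_iff h2 _).2 (Or.inl ⟨i, hi, Or.inl rfl⟩))

theorem memB (h2 : 2 ≤ g) {i : ℕ} (hi : i < g) : modF g (sB g i) ∈ Gam g :=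
  Subgroup.subset_closure ((humph_iff h2 _).2 (Or.inl ⟨i, hi, Or.inr rfl⟩))

theorem memT (h2 : 2 ≤ g) {i : ℕ} (hi : i + 1 < g) : modF g (sT g i (i + 1)) ∈ Gam g :=
  Subgroup.subset_closure ((humph_iff h2 _).2 (Or.inr ⟨i, hi, rfl⟩))

open Classical in
/-- an element of `orSub g` as an element of `Γ` (or `1`) -/
noncomputable def toG (g : ℕ) (x : orSub g) : Gam g :=
  if h : modF g x ∈ Gam g then ⟨modF g x, h⟩ else 1

theorem toG_coe {x : orSub g} (h : modF g x ∈ Gam g) : ((toG g x : Gam g) : Mod g) = modF g x := by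
  unfold toG
  rw [dif_pos h]

/-- the twists in `Γ` -/
noncomputable def gA (g i : ℕ) : Gam g := toG g (sA g i)
/-- the twists in `Γ` -/
noncomputable def gB (g i : ℕ) : Gam g := toG g (sB g i)
/-- the twists in `Γ` -/
noncomputable def gT (g i : ℕ) : Gam g := toG g (sT g i (i + 1))

theorem hr_gam (h2 : 2 ≤ g) : HR g (gA g) (gB g) (gT g) := by
  apply hr_pull (Gam g).subtype (Gam g).subtype_injective
  refine HRel.congr (hr_map (modF g) (hr_full h2)) (fun i hi => toG_coe (memA h2 hi))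
    (fun i hi => toG_coe (memB h2 hi)) (fun _ _ => rfl) (fun _ _ => rfl)
    (fun i hi => toG_coe (memT h2 hi))

theorem x_gam (h2 : 2 ≤ g) : XRel g (gA g) (gB g) (gT g) := by
  apply XRel.pull (Gam g).subtype (Gam g).subtype_injective
  exact XRel.congr (XRel.map (modF g) (x_full h2)) (fun i hi => toG_coe (memA h2 hi))
    (fun i hi => toG_coe (memB h2 hi)) (fun i hi => toG_coe (memT h2 hi))

theorem gen_gam (h2 : 2 ≤ g) : Gen g (gA g) (gB g) (gT g) := by
  have h1 : (Subgroup.closure (((↑) : Gam g → Mod g) ⁻¹' {T | IsHumph g T})) = ⊤ :=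
    Subgroup.closure_closure_coe_preimage
  unfold Gen
  rw [eq_top_iff, ← h1, Subgroup.closure_le]
  intro x hx
  apply Subgroup.subset_closure
  have hx' : IsHumph g (x : Mod g) := hx
  rcases (humph_iff h2 _).1 hx' with ⟨i, hi, h | h⟩ | ⟨i, hi, h⟩
  · exact Or.inl ⟨i, hi, Or.inl (Subtype.ext (by rw [h]; exact (toG_coe (memA h2 hi)).symm))⟩
  · exact Or.inl ⟨i, hi, Or.inr (Subtype.ext (by rw [h]; exact (toG_coe (memB h2 hi)).symm))⟩
  · exact Or.inr ⟨i, hi, Subtype.ext (by rw [h]; exact (toG_coe (memT h2 hi)).symm)⟩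

end

end Pool.Agent.Q290.MG
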