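import Mathlib
import Pool.Agent.TH35.MG.Fin
import Pool.Agent.H29R2.MG.Final

set_option autoImplicit false

/-! The action of the mapping class group on homology. -/

namespace Pool.Agent.Q290.MG

open Pool.Agent.H798R3.MG Pool.Agent.H29R2.MG Pool.Agent.TH35.MG

section
variable {g : ℕ}

/-- the matrix of an automorphism of the surface group on `H_1 = ℤ^{2g}`: the column `j` is the
homology class of the image of the generator `j` -/
def homM (τ : orientedAut g) : Matrix (Fin g ⊕ Fin g) (Fin g ⊕ Fin g) ℤ :=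
  Matrix.of fun i j => homologyClass ((τ : MulAut (SurfaceGroup g)) (gen j)) i

theorem hc_gen (j : Fin g ⊕ Fin g) : homologyClass (gen j) = Pi.single j 1 := by
  rcases j with m | m
  · exact hc_fa m
  · exact hc_fb m

theorem hc_aut (τ : orientedAut g) (x : SurfaceGroup g) :
    homologyClass ((τ : MulAut (SurfaceGroup g)) x) = (homM τ).mulVec (homologyClass x) := by
  obtain ⟨z, rfl⟩ := mk_surjective g x
  induction z using FreeGroup.induction_on with
  | C1 => rw [map_one, map_one, hc_one, Matrix.mulVec_zero]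
  | of j =>
    show homologyClass ((τ : MulAut (SurfaceGroup g)) (gen j)) = (homM τ).mulVec
      (homologyClass (gen j))
    rw [hc_gen, Matrix.mulVec_single_one]
    rfl
  | inv_of j h => rw [map_inv, map_inv, hc_inv, h, hc_inv, Matrix.mulVec_neg]
  | mul x y hx hy => rw [map_mul, map_mul, hc_mul, hx, hy, hc_mul, Matrix.mulVec_add]

/-- the homomorphism to the matrices -/
def homH (g : ℕ) : orientedAut g →* Matrix (Fin g ⊕ Fin g) (Fin g ⊕ Fin g) ℤ where
  toFun := homM
  map_one' := by
    ext i j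
    show homologyClass (gen j) i = _
    rw [hc_gen, Matrix.one_apply, Pi.single_apply]
  map_mul' τ σ := by
    ext i j
    show homologyClass ((τ : MulAut (SurfaceGroup g)) ((σ : MulAut (SurfaceGroup g)) (gen j))) i = _
    rw [hc_aut]
    rfl

theorem homH_inner (g : ℕ) : innerAut g ≤ (homH g).ker := by
  intro τ hτ
  rw [innerAut, Subgroup.mem_subgroupOf] at hτ
  obtain ⟨u, hu⟩ := hτ
  rw [MonoidHom.mem_ker]
  ext i j
  show homologyClass ((τ : MulAut (SurfaceGroup g)) (gen j)) i = _
  rw [← hu, MulAut.conj_apply, hc_mul, hc_mul, hc_inv, hc_gen, Matrix.one_apply]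
  simp [Pi.single_apply]

/-- The action of the mapping class group on `H_1(Σ_g; ℤ) = ℤ^{2g}`, by matrices with respect to
the basis of the classes of the generators. -/
def homMat (g : ℕ) : Mod g →* Matrix (Fin g ⊕ Fin g) (Fin g ⊕ Fin g) ℤ :=
  QuotientGroup.lift (innerAut g) (homH g) (homH_inner g)

theorem homMat_toMod (τ : orientedAut g) : homMat g (toMod g τ) = homM τ := rfl

theorem homMat_modF (x : orSub g) (i j : Fin g ⊕ Fin g) :
    homMat g (modF g x) i j = fcl g ((x : MulAut (FG g)) (FreeGroup.of j)) i := by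
  show homologyClass (TQ.qe x (mk g (FreeGroup.of j))) i = _
  rw [TQ.qe_mk]
  rfl

end

/-! ### families of vectors on which a group acts as on homology -/

section
variable {K V : Type*} [Field K] [AddCommGroup V] [Module K V] {g : ℕ}

/-- the group element `γ` acts on the family `φ` as on the basis of the homology -/
def EQ {Γ : Subgroup (Mod g)} (ρ : Γ →* Module.End K V) (φ : Fin g ⊕ Fin g → V) (γ : Γ) : Prop :=
  ∀ j, ρ γ (φ j) = ∑ i, homMat g γ i j • φ i

variable {Γ : Subgroup (Mod g)} {ρ : Γ →* Module.End K V} {φ : Fin g ⊕ Fin g → V}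

theorem EQ.one : EQ ρ φ 1 := by
  intro j
  rw [map_one, Module.End.one_apply, Subgroup.coe_one, map_one,
    Finset.sum_eq_single j]
  · rw [Matrix.one_apply_eq, one_smul]
  · intro i _ hij
    rw [Matrix.one_apply_ne hij, zero_smul]
  · intro h; exact absurd (Finset.mem_univ j) h

theorem EQ.mul {γ γ' : Γ} (h : EQ ρ φ γ) (h' : EQ ρ φ γ') : EQ ρ φ (γ * γ') := by
  intro j
  rw [map_mul, Module.End.mul_apply, h' j, map_sum, Subgroup.coe_mul, map_mul]
  simp only [map_zsmul, h _, Matrix.mul_apply, Finset.sum_smul, Finset.smul_sum, smul_smul]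
  rw [Finset.sum_comm]
  apply Finset.sum_congr rfl
  intro i _
  apply Finset.sum_congr rfl
  intro k _
  rw [mul_comm]

theorem EQ.inv {γ : Γ} (h : EQ ρ φ γ) : EQ ρ φ γ⁻¹ := by
  have h1 : homMat g γ * homMat g (γ⁻¹ : Γ) = 1 := by
    rw [← map_mul, ← Subgroup.coe_mul, mul_inv_cancel, Subgroup.coe_one, map_one]
  have key : ∀ j, ρ γ (∑ i, homMat g (γ⁻¹ : Γ) i j • φ i) = φ j := by
    intro j
    rw [map_sum]
    simp only [map_zsmul, h _, Finset.smul_sum, smul_smul]
    rw [Finset.sum_comm]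
    have h2 : ∀ i, ∑ k, (homMat g (γ⁻¹ : Γ) k j * homMat g γ i k) • φ i =
        (1 : Matrix (Fin g ⊕ Fin g) (Fin g ⊕ Fin g) ℤ) i j • φ i := by
      intro i
      rw [← h1, Matrix.mul_apply, Finset.sum_smul]
      apply Finset.sum_congr rfl
      intro k _
      rw [mul_comm]
    simp only [h2]
    rw [Finset.sum_eq_single j]
    · rw [Matrix.one_apply_eq, one_smul]
    · intro i _ hij
      rw [Matrix.one_apply_ne hij, zero_smul]
    · intro h; exact absurd (Finset.mem_univ j) h
  intro j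
  conv_lhs => rw [← key j]
  rw [← Module.End.mul_apply, ← map_mul, inv_mul_cancel, map_one, Module.End.one_apply]

/-- the linear extension of a family of vectors to the integral vectors -/
def Lf (φ : Fin g ⊕ Fin g → V) (u : Fin g ⊕ Fin g → ℤ) : V := ∑ i, u i • φ i

theorem Lf_add (u v : Fin g ⊕ Fin g → ℤ) : Lf φ (u + v) = Lf φ u + Lf φ v := by
  unfold Lf
  rw [← Finset.sum_add_distrib]
  apply Finset.sum_congr rfl
  intro i _
  rw [Pi.add_apply, add_smul]

theorem Lf_neg (u : Fin g ⊕ Fin g → ℤ) : Lf φ (-u) = -Lf φ u := by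
  unfold Lf
  rw [← Finset.sum_neg_distrib]
  apply Finset.sum_congr rfl
  intro i _
  rw [Pi.neg_apply, neg_smul]

theorem Lf_sub (u v : Fin g ⊕ Fin g → ℤ) : Lf φ (u - v) = Lf φ u - Lf φ v := by
  rw [sub_eq_add_neg, Lf_add, Lf_neg, ← sub_eq_add_neg]

theorem Lf_zero : Lf φ (0 : Fin g ⊕ Fin g → ℤ) = 0 := by simp [Lf]

theorem Lf_single (j : Fin g ⊕ Fin g) : Lf φ (Pi.single j 1) = φ j := by
  unfold Lf
  rw [Finset.sum_eq_single j]
  · rw [Pi.single_eq_same, one_smul]
  · intro i _ hij
    rw [Pi.single_eq_of_ne hij, zero_smul]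
  · intro h; exact absurd (Finset.mem_univ j) h

theorem EQ_of {x : orSub g} {γ : Γ} (hγ : (γ : Mod g) = modF g x)
    (h : ∀ j, ρ γ (φ j) = Lf φ (fcl g ((x : MulAut (FG g)) (FreeGroup.of j)))) : EQ ρ φ γ := by
  intro j
  rw [h j, hγ]
  unfold Lf
  apply Finset.sum_congr rfl
  intro i _
  rw [homMat_modF]

theorem EQ.apply {x : orSub g} {γ : Γ} (hγ : (γ : Mod g) = modF g x) (h : EQ ρ φ γ)
    (j : Fin g ⊕ Fin g) :
    ρ γ (φ j) = Lf φ (fcl g ((x : MulAut (FG g)) (FreeGroup.of j))) := by
  rw [h j, hγ]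
  unfold Lf
  apply Finset.sum_congr rfl
  intro i _
  rw [homMat_modF]

end

end Pool.Agent.Q290.MG
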