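import Mathlib
import Pool.Agent.Q290.MG.Clo
import Pool.Agent.Q290.MG.Gam
import Pool.Agent.Q290.MG.Hom

set_option autoImplicit false

/-! The chain of twists in terms of the twists about `a_i`, `b_i` and the band sums. -/

namespace Pool.Agent.Q290.MG

open Pool.Agent.H798R3.MG Pool.Agent.H29R2.MG Pool.Agent.TH35.MG

section
variable {g : ℕ}

theorem hA_fa (i : ℕ) (m : Fin g) : hA g i (fa m) = fa m := by
  rw [hA, O3aux.ends_fa]

theorem hA_fb (i : Fin g) : hA g i (fb i) = fb i * fa i := by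
  rw [hA, O3aux.ends_fb, if_pos rfl, ha, dif_pos i.2]

theorem hA_fb' {i m : Fin g} (h : m ≠ i) : hA g i (fb m) = fb m := by
  rw [hA, O3aux.ends_fb, if_neg (fun e => h (Fin.ext e))]

theorem hB_fb (i : ℕ) (m : Fin g) : hB g i (fb m) = fb m := by
  rw [hB, O3aux.ends_fb]

theorem hB_fa (i : Fin g) : hB g i (fa i) = fa i * (fb i)⁻¹ := by
  rw [hB, O3aux.ends_fa, if_pos rfl, hb, dif_pos i.2]

theorem hB_fa' {i m : Fin g} (h : m ≠ i) : hB g i (fa m) = fa m := by
  rw [hB, O3aux.ends_fa, if_neg (fun e => h (Fin.ext e))]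

/-- the rotation of a handle -/
def hH (g i : ℕ) (z : FG g) : FG g := hA g i (hB g i (hA g i (hA g i (hB g i (hA g i z)))))

theorem hH_fa (i : Fin g) : hH g i (fa i) = fb i * (fa i)⁻¹ * (fb i)⁻¹ := by
  unfold hH
  simp only [hA_fa, hB_fa, map_mul, map_inv, hA_fb, hB_fb]
  group

theorem hH_fb (i : Fin g) : hH g i (fb i) = fb i * fa i * (fb i)⁻¹ * (fa i)⁻¹ * (fb i)⁻¹ := by
  unfold hH
  simp only [hA_fa, hB_fa, map_mul, map_inv, hA_fb, hB_fb]
  group

theorem hH_fa' {i m : Fin g} (h : m ≠ i) : hH g i (fa m) = fa m := by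
  unfold hH
  simp only [hA_fa, hB_fa' h]

theorem hH_fb' {i m : Fin g} (h : m ≠ i) : hH g i (fb m) = fb m := by
  unfold hH
  simp only [hA_fb' h, hB_fb]

theorem hH_mul (i : ℕ) (x y : FG g) : hH g i (x * y) = hH g i x * hH g i y := by
  unfold hH; simp only [map_mul]

theorem hH_inv (i : ℕ) (x : FG g) : hH g i x⁻¹ = (hH g i x)⁻¹ := by
  unfold hH; simp only [map_inv]

/-- the rotation of the handle `i` as an element of the group -/
noncomputable def Hh (g i : ℕ) : orSub g :=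
  (sA g i * sB g i * sA g i) * (sA g i * sB g i * sA g i)

theorem Hh_apply (h2 : 2 ≤ g) {i : ℕ} (hi : i < g) (z : FG g) :
    ((Hh g i : orSub g) : MulAut (FG g)) z = hH g i z := by
  unfold Hh hH
  simp only [Subgroup.coe_mul, MulAut.mul_apply]
  simp only [sA, sB, mkS_apply (ok_A h2 hi), mkS_apply (ok_B h2 hi)]

/-- the chain of twists -/
noncomputable def CH (g : ℕ) (j : ℕ) : orSub g :=
  if j = 0 then sA g 0 else if j % 2 = 1 then sB g (j / 2) else
    (Hh g (j / 2 - 1))⁻¹ * sT g (j / 2 - 1) (j / 2 - 1 + 1) * Hh g (j / 2 - 1)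

theorem jl_of {x : orSub g} {j : ℕ} (hj : j < 2 * g)
    (h : ∀ z, (x : MulAut (FG g)) z = fv ⟨j, hj⟩ z) : JL x (vv j) := by
  intro z
  rw [h z]
  exact DFunLike.congr_fun (J_fv ⟨j, hj⟩) z

theorem hom_eq {f f' : FG g →* FG g} (ha : ∀ m, f (fa m) = f' (fa m))
    (hb : ∀ m, f (fb m) = f' (fb m)) (z : FG g) : f z = f' z :=
  DFunLike.congr_fun (free_ext ha hb) z

theorem fv_zero (hg : 0 < g) (z : FG g) : hA g 0 z = fv ⟨0, by omega⟩ z := by
  have e : fv (⟨0, by omega⟩ : Fin (2 * g)) = stepE ⟨0, hg⟩ (ee ⟨0, hg⟩) := by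
    unfold fv
    rw [if_pos (by simp)]
    simp only [Nat.zero_div]
  have e2 : (ee ⟨0, hg⟩ : FG g) = fa ⟨0, hg⟩ := by
    unfold ee
    simp
  rw [e, e2]
  apply hom_eq
  · intro m
    rw [hA_fa, stepE_fa]
    by_cases h : m = ⟨0, hg⟩
    · subst h; rw [if_pos rfl]; group
    · rw [if_neg h]
  · intro m
    rw [stepE_fb]
    by_cases h : m = ⟨0, hg⟩
    · subst h; rw [if_pos rfl]; exact hA_fb ⟨0, hg⟩
    · rw [if_neg h, if_neg (by simp)]
      exact hA_fb' (i := ⟨0, hg⟩) h

theorem fv_odd {i : ℕ} (hi : i < g) (z : FG g) : hB g i z = fv ⟨2 * i + 1, by omega⟩ z := by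
  have e : fv (⟨2 * i + 1, by omega⟩ : Fin (2 * g)) = stepA ⟨i, hi⟩ (fb ⟨i, hi⟩) := by
    unfold fv
    rw [if_neg (by simp only; omega)]
    have : (2 * i + 1) / 2 = i := by omega
    simp only [this]
  rw [e]
  apply hom_eq
  · intro m
    rw [stepA_fa]
    by_cases h : m = ⟨i, hi⟩
    · subst h; rw [if_pos rfl]; exact hB_fa ⟨i, hi⟩
    · rw [if_neg h]; exact hB_fa' (i := ⟨i, hi⟩) h
  · intro m
    rw [stepA_fb, hB_fb]

theorem fv_even {i : ℕ} (hi : i + 1 < g) (z : FG g) :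
    hH g i (fv ⟨2 * i + 2, by omega⟩ z) = hT g i (i + 1) (hH g i z) := by
  set I : Fin g := ⟨i, by omega⟩ with hI
  set I' : Fin g := ⟨i + 1, hi⟩ with hI'
  have hne : I' ≠ I := by
    intro h; have := congrArg Fin.val h; simp [hI, hI'] at this
  have e : fv (⟨2 * i + 2, by omega⟩ : Fin (2 * g)) = stepE I' (ee I') := by
    unfold fv
    rw [if_pos (by simp only; omega)]
    have : (2 * i + 2) / 2 = i + 1 := by omega
    simp only [this]
    rfl
  have e2 : (ee I' : FG g) = fb I * (fa I)⁻¹ * (fb I)⁻¹ * fa I' := by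
    unfold ee
    rw [dif_pos (by simp [hI'])]
    rfl
  have edd : (dd g i : FG g) = fa I * fb I * (fa I)⁻¹ * (fb I)⁻¹ := by
    rw [dd, ha, hb, dif_pos (by omega), dif_pos (by omega)]
  have eu : uT g i (i + 1) = dd g i * fa I' * (dd g i)⁻¹ * fa I := by
    rw [uT, De_one, ha, ha, dif_pos hi, dif_pos (by omega)]
  have ep : pT g i (i + 1) = (dd g i)⁻¹ * fa I * dd g i * fa I' := by
    rw [pT, De_one, ha, ha, dif_pos hi, dif_pos (by omega)]
  have tfa : hT g i (i + 1) (fa I) = (uT g i (i + 1))⁻¹ * fa I * uT g i (i + 1) := by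
    rw [hT, O3aux.ends_fa, if_pos rfl]
  have tfb : hT g i (i + 1) (fb I) = fb I * uT g i (i + 1) := by
    rw [hT, O3aux.ends_fb, if_pos rfl]
  have tfa' : hT g i (i + 1) (fa I') = (pT g i (i + 1))⁻¹ * fa I' * pT g i (i + 1) := by
    rw [hT, O3aux.ends_fa, if_neg (by simp [hI']), if_pos rfl]
  have tfb' : hT g i (i + 1) (fb I') = fb I' * pT g i (i + 1) := by
    rw [hT, O3aux.ends_fb, if_neg (by simp [hI']), if_pos rfl]
  have tm : ∀ m : Fin g, m ≠ I → m ≠ I' → hT g i (i + 1) (fa m) = fa m ∧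
      hT g i (i + 1) (fb m) = fb m := by
    intro m h1 h2
    have h3 : (m : ℕ) ≠ i := fun h => h1 (Fin.ext h)
    have h4 : (m : ℕ) ≠ i + 1 := fun h => h2 (Fin.ext h)
    rw [hT, O3aux.ends_fa, O3aux.ends_fb, if_neg h3, if_neg h4, if_neg h3, if_neg h4]
    exact ⟨rfl, rfl⟩
  have H1 : hH g i (fa I) = fb I * (fa I)⁻¹ * (fb I)⁻¹ := hH_fa I
  have H2 : hH g i (fb I) = fb I * fa I * (fb I)⁻¹ * (fa I)⁻¹ * (fb I)⁻¹ := hH_fb I
  have H3 : ∀ m, m ≠ I → hH g i (fa m) = fa m := fun m h => hH_fa' (i := I) h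
  have H4 : ∀ m, m ≠ I → hH g i (fb m) = fb m := fun m h => hH_fb' (i := I) h
  let hHm : FG g →* FG g :=
    { toFun := hH g i
      map_one' := by unfold hH; simp only [map_one]
      map_mul' := hH_mul i }
  have key : ∀ z, (hHm.comp (fv ⟨2 * i + 2, by omega⟩)) z = ((hT g i (i + 1)).comp hHm) z := by
    apply hom_eq
    · intro m
      show hH g i (fv _ (fa m)) = hT g i (i + 1) (hH g i (fa m))
      rw [e, e2, stepE_fa]
      by_cases h1 : m = I'
      · rw [if_pos h1, h1]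
        simp only [hH_mul, hH_inv, H1, H2, H3 I' hne, tfa', ep, edd]
        group
      · rw [if_neg h1]
        by_cases h2 : m = I
        · rw [h2]
          simp only [H1, map_mul, map_inv, tfa, tfb, eu, edd]
          group
        · rw [H3 m h2, (tm m h2 h1).1]
    · intro m
      show hH g i (fv _ (fb m)) = hT g i (i + 1) (hH g i (fb m))
      rw [e, e2, stepE_fb]
      by_cases h1 : m = I'
      · rw [if_pos h1, h1]
        simp only [hH_mul, hH_inv, H1, H2, H3 I' hne, H4 I' hne, tfb', ep, edd]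
        group
      · rw [if_neg h1]
        by_cases h2 : m = I
        · rw [h2, if_pos rfl]
          simp only [hH_mul, hH_inv, H1, H2, H3 I' hne, map_mul, map_inv, tfa, tfb, eu, edd]
          group
        · rw [if_neg (by
            intro h; apply h2; apply Fin.ext; simp only [hI'] at h; simp only [hI]; omega),
            H4 m h2, (tm m h2 h1).2]
  exact key z

theorem CH_apply (h2 : 2 ≤ g) {j : ℕ} (hj : j < 2 * g) (z : FG g) :
    ((CH g j : orSub g) : MulAut (FG g)) z = fv ⟨j, hj⟩ z := by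
  unfold CH
  by_cases h0 : j = 0
  · subst h0
    rw [if_pos rfl, sA, mkS_apply (ok_A h2 (by omega)), fv_zero (by omega)]
  · rw [if_neg h0]
    by_cases h1 : j % 2 = 1
    · rw [if_pos h1, sB, mkS_apply (ok_B h2 (by omega)), fv_odd (by omega)]
      congr 2
      apply Fin.ext
      simp only
      omega
    · rw [if_neg h1]
      obtain ⟨i, rfl⟩ : ∃ i, j = 2 * i + 2 := ⟨j / 2 - 1, by omega⟩
      have e : (2 * i + 2) / 2 - 1 = i := by omega
      rw [e]
      have h3 := fv_even (g := g) (i := i) (by omega) z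
      rw [← Hh_apply h2 (by omega), ← Hh_apply h2 (by omega)] at h3
      rw [Subgroup.coe_mul, Subgroup.coe_mul, MulAut.mul_apply, MulAut.mul_apply]
      have h4 : ((sT g i (i + 1) : orSub g) : MulAut (FG g))
          (((Hh g i : orSub g) : MulAut (FG g)) z) =
          hT g i (i + 1) (((Hh g i : orSub g) : MulAut (FG g)) z) :=
        mkS_apply (ok_T h2 (by omega) (by omega) (by omega)) _
      rw [h4, ← h3]
      exact MulAut.inv_apply_self _ _ _

theorem jl_CH (h2 : 2 ≤ g) {j : ℕ} (hj : j < 2 * g) : JL (CH g j) (vv j) :=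
  jl_of hj (CH_apply h2 hj)

/-- products of the chain -/
noncomputable def DE (g : ℕ) : ℕ → orSub g
  | 0 => 1
  | n + 1 => DE g n * CH g n

/-- products of the chain -/
noncomputable def DL (g : ℕ) : ℕ → orSub g
  | 0 => 1
  | n + 1 => CH g n * DL g n

theorem jl_DE (h2 : 2 ≤ g) {n : ℕ} (hn : n ≤ 2 * g) : JL (DE g n) (eE n) := by
  induction n with
  | zero => exact JL.one
  | succ n ih => exact (ih (by omega)).mul (jl_CH h2 (by omega))

theorem jl_DL (h2 : 2 ≤ g) {n : ℕ} (hn : n ≤ 2 * g) : JL (DL g n) (eL n) := by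
  induction n with
  | zero => exact JL.one
  | succ n ih => exact (jl_CH h2 (by omega)).mul (ih (by omega))

/-- the last twist -/
theorem jl_A (h2 : 2 ≤ g) : JL (sA g (g - 1)) (wA (2 * g)) := by
  intro z
  rw [sA, mkS_apply (ok_A h2 (by omega))]
  have key : (J g).comp (hA g (g - 1)) = (wA (2 * g)).comp (J g) := by
    apply free_ext
    · intro m
      have := m.2
      rw [MonoidHom.comp_apply, MonoidHom.comp_apply, hA_fa, J_fa, map_mul, map_mul, map_inv,
        wA_w _ _ (by omega), wA_w _ _ (by omega)]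
    · intro m
      have := m.2
      rw [MonoidHom.comp_apply, MonoidHom.comp_apply]
      by_cases h : m = ⟨g - 1, by omega⟩
      · have e : hA g (g - 1) (fb ⟨g - 1, by omega⟩) = fb ⟨g - 1, by omega⟩ * fa ⟨g - 1, by omega⟩ :=
          hA_fb ⟨g - 1, by omega⟩
        rw [h, e, map_mul, J_fa, J_fb]
        simp only
        rw [map_mul, map_inv, show 2 * (g - 1) + 3 = 2 * g + 1 by omega, wA_self,
          wA_w _ _ (by omega), show 2 * (g - 1) + 2 = 2 * g by omega]
        group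
      · have e : hA g (g - 1) (fb m) = fb m := hA_fb' (i := ⟨g - 1, by omega⟩) h
        have h' : (m : ℕ) ≠ g - 1 := fun e => h (Fin.ext e)
        rw [e, J_fb, map_mul, map_inv, wA_w _ _ (by omega), wA_w _ _ (by omega)]
  exact DFunLike.congr_fun key z

/-- the closing relation between the twists -/
theorem closing' (h2 : 2 ≤ g) : modF g (DL g (2 * g) * DE g (2 * g) * sA g (g - 1)) =
    modF g (sA g (g - 1) * (DL g (2 * g) * DE g (2 * g))) :=
  closing (by omega) ((jl_DL h2 le_rfl).mul (jl_DE h2 le_rfl)) (jl_A h2)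

theorem class_last' (h2 : 2 ≤ g) :
    fcl g (((DL g (2 * g) * DE g (2 * g) : orSub g) : MulAut (FG g)) (fa ⟨g - 1, by omega⟩)) =
      -Pi.single (Sum.inl ⟨g - 1, by omega⟩) 1 := by
  rw [class_last (by omega) ((jl_DL h2 le_rfl).mul (jl_DE h2 le_rfl)), O3aux.fcl_fa]

end

end Pool.Agent.Q290.MG
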