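import Mathlib
import Pool.Agent.Q290.MG.Op5

set_option autoImplicit false

/-! The decomposition `V = V^G ⊕ [G, V]`. -/

namespace Pool.Agent.Q290.MG

open Pool.Agent.H798R3.MG Pool.Agent.H29R2.MG Pool.Agent.TH35.MG Module

section
variable {K V : Type*} [Field K] [AddCommGroup V] [Module K V] {N : ℕ}
  {a b t z l : ℕ → Module.End K V}

/-- `u ↦ ∑ a_i β_i u_i + β_i u'_i` -/
def Psi (N : ℕ) (a b t : ℕ → Module.End K V) :
    ((Fin N ⊕ Fin N) → Wi N a b t 0) →ₗ[K] V where
  toFun f := ∑ i : Fin N, (a i (be b t i (f (Sum.inl i) : V)) + be b t i (f (Sum.inr i) : V))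
  map_add' f f' := by
    rw [← Finset.sum_add_distrib]
    apply Finset.sum_congr rfl
    intro i _
    simp only [Pi.add_apply, Submodule.coe_add, map_add]
    abel
  map_smul' c f := by
    rw [Finset.smul_sum]
    apply Finset.sum_congr rfl
    intro i _
    simp only [Pi.smul_apply, Submodule.coe_smul, map_smul, smul_add, RingHom.id_apply]

theorem Psi_apply (f : (Fin N ⊕ Fin N) → Wi N a b t 0) : Psi N a b t f =
    ∑ i : Fin N, (a i (be b t i (f (Sum.inl i) : V)) + be b t i (f (Sum.inr i) : V)) := rfl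

variable (h : OpRel N a b t z l)
include h

theorem Psi_a (f : (Fin N ⊕ Fin N) → Wi N a b t 0) (k : Fin N) :
    a k (Psi N a b t f) = a k (be b t k (f (Sum.inr k) : V)) := by
  rw [Psi_apply, map_sum, Finset.sum_eq_single k]
  · rw [map_add, app0 (h.aa k k.2 k k.2), zero_add]
  · intro i _ hik
    have hik' : (i : ℕ) ≠ k := fun e => hik (Fin.ext e)
    have hv := bv_be h i.2 (f (Sum.inr i)).2
    rw [map_add, app0 (h.aa k k.2 i i.2), hv.ha k k.2 (Ne.symm hik'), add_zero]
  · intro hk; exact absurd (Finset.mem_univ k) hk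

theorem Psi_b (f : (Fin N ⊕ Fin N) → Wi N a b t 0) (k : Fin N) :
    b k (Psi N a b t f) = -(be b t k (f (Sum.inl k) : V)) := by
  rw [Psi_apply, map_sum, Finset.sum_eq_single k]
  · have hv := bv_be h k.2 (f (Sum.inl k)).2
    have hv' := bv_be h k.2 (f (Sum.inr k)).2
    rw [map_add, hv.hba, hv'.hb k k.2, add_zero]
  · intro i _ hik
    have hik' : (i : ℕ) ≠ k := fun e => hik (Fin.ext e)
    have hv := bv_be h i.2 (f (Sum.inr i)).2
    rw [map_add, app0 (h.ba k k.2 i i.2 (Ne.symm hik')), hv.hb k k.2, add_zero]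
  · intro hk; exact absurd (Finset.mem_univ k) hk

theorem Psi_inv (f : (Fin N ⊕ Fin N) → Wi N a b t 0) (hf : Psi N a b t f ∈ inv N a b t) :
    f = 0 := by
  have h0 : ∀ (k : Fin N) (w : Wi N a b t 0), be b t k (w : V) = 0 → w = 0 := by
    intro k w hw
    exact Subtype.ext (be_inj h k.2 w.2 hw)
  funext j
  rcases j with k | k
  · apply h0 k
    have h1 := Psi_b h f k
    rw [(hf.1 k k.2).2] at h1
    exact neg_eq_zero.1 h1.symm
  · apply h0 k
    have h1 := Psi_a h f k
    rw [(hf.1 k k.2).1] at h1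
    have h2 := (bv_be h k.2 (f (Sum.inr k)).2).hba
    rw [← h1, map_zero] at h2
    exact neg_eq_zero.1 h2.symm

end

section
variable {K V G : Type*} [Field K] [AddCommGroup V] [Module K V] [Group G]
variable {ρ : G →* Module.End K V} {A B T : ℕ → G} {N : ℕ}

/-- `δ = 0` -/
def NoD (N : ℕ) (ρ : G →* Module.End K V) (A B T : ℕ → G) : Prop :=
  ∀ w, Bv N (oA ρ A) (oA ρ B) (oA ρ T) 0 w → de (oA ρ A) (oA ρ B) (oA ρ T) 0 w = 0

theorem aug_range (h : OR N ρ A B T) (hG : Gen N A B T) (h3 : 3 ≤ N) (hd : NoD N ρ A B T) :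
    aug ρ ⊤ ≤ LinearMap.range (Psi N (oA ρ A) (oA ρ B) (oA ρ T)) := by
  classical
  refine aug_struct h hG h3 ?_ ?_
  · intro i hi w hw
    constructor
    · refine ⟨Pi.single (Sum.inr ⟨i, hi⟩) ⟨w, hw⟩, ?_⟩
      rw [Psi_apply, Finset.sum_eq_single ⟨i, hi⟩]
      · rw [Pi.single_eq_of_ne (by simp), Pi.single_eq_same]
        simp
      · intro j _ hj
        rw [Pi.single_eq_of_ne (by simp), Pi.single_eq_of_ne (by simpa using hj)]
        simp
      · intro hk; exact absurd (Finset.mem_univ _) hk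
    · refine ⟨Pi.single (Sum.inl ⟨i, hi⟩) ⟨w, hw⟩, ?_⟩
      rw [Psi_apply, Finset.sum_eq_single ⟨i, hi⟩]
      · rw [Pi.single_eq_same, Pi.single_eq_of_ne (by simp)]
        simp
      · intro j _ hj
        rw [Pi.single_eq_of_ne (by simpa using hj), Pi.single_eq_of_ne (by simp)]
        simp
      · intro hk; exact absurd (Finset.mem_univ _) hk
  · intro w hw
    rw [hd w hw]
    exact Submodule.zero_mem _

theorem inv_aug (h : OR N ρ A B T) (hG : Gen N A B T) (h3 : 3 ≤ N) (hd : NoD N ρ A B T) {v : V}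
    (h1 : v ∈ inv N (oA ρ A) (oA ρ B) (oA ρ T)) (h2 : v ∈ aug ρ ⊤) : v = 0 := by
  obtain ⟨f, rfl⟩ := aug_range h hG h3 hd h2
  rw [Psi_inv h f h1, map_zero]

/-- the dual representation -/
def dl (ρ : G →* Module.End K V) : G →* Module.End K (Module.Dual K V) where
  toFun γ := (ρ γ⁻¹).dualMap
  map_one' := by
    rw [inv_one, map_one]
    ext f v
    rfl
  map_mul' x y := by
    rw [mul_inv_rev, map_mul]
    ext f v
    rfl

theorem dl_apply (γ : G) (f : Module.Dual K V) (v : V) : dl ρ γ f v = f (ρ γ⁻¹ v) := rfl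

theorem decomp [FiniteDimensional K V] (h : OR N ρ A B T) (h' : OR N (dl ρ) A B T)
    (hG : Gen N A B T) (h3 : 3 ≤ N) (hd' : NoD N (dl ρ) A B T) :
    inv N (oA ρ A) (oA ρ B) (oA ρ T) ⊔ aug ρ ⊤ = ⊤ := by
  by_contra hne
  obtain ⟨f, hf0, hf⟩ := Submodule.exists_le_ker_of_lt_top _ (lt_top_iff_ne_top.2 hne)
  apply hf0
  have hf1 : ∀ v ∈ inv N (oA ρ A) (oA ρ B) (oA ρ T), f v = 0 := fun v hv =>
    hf (Submodule.mem_sup_left hv)
  have hf2 : ∀ v ∈ aug ρ ⊤, f v = 0 := fun v hv => hf (Submodule.mem_sup_right hv)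
  refine inv_aug h' hG h3 hd' (v := f) ?_ ?_
  · rw [inv_iff hG]
    intro γ
    apply LinearMap.ext
    intro v
    rw [dl_apply]
    have h1 := hf2 _ (mem_aug ρ γ⁻¹ (u := v) (U := ⊤) trivial)
    rw [LinearMap.sub_apply, Module.End.one_apply, map_sub, sub_eq_zero] at h1
    exact h1
  · have h2 : (aug (dl ρ) (⊤ : Submodule K (Module.Dual K V))).dualCoannihilator ≤
        inv N (oA ρ A) (oA ρ B) (oA ρ T) := by
      intro v hv
      rw [Submodule.mem_dualCoannihilator] at hv
      rw [inv_iff hG]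
      intro γ
      rw [← sub_eq_zero, ← Module.forall_dual_apply_eq_zero_iff K]
      intro ψ
      have h4 := hv _ (mem_aug (dl ρ) γ⁻¹ (u := ψ) (U := ⊤) trivial)
      rw [LinearMap.sub_apply, Module.End.one_apply, LinearMap.sub_apply, dl_apply,
        inv_inv] at h4
      rw [map_sub]
      exact h4
    have h3 : aug (dl ρ) (⊤ : Submodule K (Module.Dual K V)) =
        (aug (dl ρ) (⊤ : Submodule K (Module.Dual K V))).dualCoannihilator.dualAnnihilator := by
      rw [Subspace.dualCoannihilator_dualAnnihilator_eq]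
    rw [h3, Submodule.mem_dualAnnihilator]
    intro v hv
    exact hf1 v (h2 hv)

end

end Pool.Agent.Q290.MG
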