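import Mathlib
import Pool.Agent.Q290.MG.Chn
import Pool.Agent.Q290.MG.Op6

set_option autoImplicit false

/-! The vector `δ` vanishes if `2g - 2` is invertible. -/

namespace Pool.Agent.Q290.MG

open Pool.Agent.H798R3.MG Pool.Agent.H29R2.MG Pool.Agent.TH35.MG Module

section
variable {K V : Type*} [Field K] [AddCommGroup V] [Module K V] {g : ℕ}
  {ρ : Gam g →* Module.End K V}

/-- the family of vectors for the chain -/
noncomputable def ph (ρ : Gam g →* Module.End K V) (w : V) : Fin g ⊕ Fin g → V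
  | Sum.inl k => oA ρ (gA g) k (be (oA ρ (gB g)) (oA ρ (gT g)) k w) +
      (k : ℕ) • de (oA ρ (gA g)) (oA ρ (gB g)) (oA ρ (gT g)) 0 w
  | Sum.inr k => be (oA ρ (gB g)) (oA ρ (gT g)) k w

theorem act_eq {G : Type*} [Group G] (σ : G →* Module.End K V) (γ : G) (v : V) :
    σ γ v = v + (σ γ - 1) v := by
  rw [LinearMap.sub_apply, Module.End.one_apply]; abel

variable (h2 : 3 ≤ g) (h : OR g ρ (gA g) (gB g) (gT g)) {w : V}
  (hw : Bv g (oA ρ (gA g)) (oA ρ (gB g)) (oA ρ (gT g)) 0 w)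
include h2 h hw

theorem ph_A {i : ℕ} (hi : i < g) (j : Fin g ⊕ Fin g) : oA ρ (gA g) i (ph ρ w j) =
    match j with
    | Sum.inl _ => 0
    | Sum.inr k => if (k : ℕ) = i then
        oA ρ (gA g) i (be (oA ρ (gB g)) (oA ρ (gT g)) i w) else 0 := by
  have hd := de_inv h (i := 0) (by omega) hw
  rcases j with k | k
  · show oA ρ (gA g) i (oA ρ (gA g) k _ + (k : ℕ) • _) = 0
    rw [map_add, map_nsmul, (hd.1 i hi).1, smul_zero, app0 (h.aa i hi k k.2), add_zero]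
  · show oA ρ (gA g) i (be _ _ k w) = _
    by_cases hk : (k : ℕ) = i
    · subst hk; simp only [if_true]
    · simp only [if_neg hk]
      exact (bv_be h k.2 hw).ha i hi (Ne.symm hk)

theorem ph_B {i : ℕ} (hi : i < g) (j : Fin g ⊕ Fin g) : oA ρ (gB g) i (ph ρ w j) =
    match j with
    | Sum.inl k => if (k : ℕ) = i then -be (oA ρ (gB g)) (oA ρ (gT g)) i w else 0
    | Sum.inr _ => 0 := by
  have hd := de_inv h (i := 0) (by omega) hw
  rcases j with k | k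
  · show oA ρ (gB g) i (oA ρ (gA g) k _ + (k : ℕ) • _) = _
    rw [map_add, map_nsmul, (hd.1 i hi).2, smul_zero, add_zero]
    by_cases hk : (k : ℕ) = i
    · subst hk; simp only [if_true]
      exact (bv_be h k.2 hw).hba
    · simp only [if_neg hk]
      exact app0 (h.ba i hi k k.2 (Ne.symm hk)) _
  · show oA ρ (gB g) i (be _ _ k w) = 0
    exact (bv_be h k.2 hw).hb i hi

theorem ph_T {i : ℕ} (hi : i + 1 < g) (j : Fin g ⊕ Fin g) : oA ρ (gT g) i (ph ρ w j) =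
    match j with
    | Sum.inl _ => 0
    | Sum.inr k => if (k : ℕ) = i ∨ (k : ℕ) = i + 1 then
        oA ρ (gA g) i (be (oA ρ (gB g)) (oA ρ (gT g)) i w) +
          oA ρ (gA g) (i + 1) (be (oA ρ (gB g)) (oA ρ (gT g)) (i + 1) w) +
          de (oA ρ (gA g)) (oA ρ (gB g)) (oA ρ (gT g)) 0 w else 0 := by
  have hd := de_inv h (i := 0) (by omega) hw
  rcases j with k | k
  · show oA ρ (gT g) i (oA ρ (gA g) k _ + (k : ℕ) • _) = 0
    rw [map_add, map_nsmul, hd.2 i hi, smul_zero, app0 (h.ta i hi k k.2), add_zero]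
  · show oA ρ (gT g) i (be _ _ k w) = _
    have e := t_eq (a := oA ρ (gA g)) (b := oA ρ (gB g)) (t := oA ρ (gT g)) (i := i) w
    rw [de_const h hi hw] at e
    by_cases hk : (k : ℕ) = i
    · simp only [hk, true_or, if_true]
      exact e
    · by_cases hk' : (k : ℕ) = i + 1
      · simp only [hk', or_true, if_true]
        rw [t_be h hi hw]
        exact e
      · simp only [hk, hk', or_self, if_false]
        exact (bv_be h k.2 hw).ht i hi (Ne.symm hk) (Ne.symm hk')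

theorem EQ_A0 : EQ ρ (ph ρ w) (gA g 0) := by
  have hg : 0 < g := by omega
  refine EQ_of (toG_coe (memA (by omega) hg)) ?_
  intro j
  have e : ∀ z, ((sA g 0 : orSub g) : MulAut (FG g)) z = hA g 0 z :=
    fun z => mkS_apply (ok_A (by omega) hg) z
  rw [act_eq, e]
  have h1 := ph_A h2 h hw hg j
  have h1' : (ρ (gA g 0) - 1) (ph ρ w j) = _ := h1
  rw [h1']
  rcases j with k | k
  · show _ + 0 = Lf _ (fcl g (hA g 0 (fa k)))
    rw [hA_fa, O3aux.fcl_fa, Lf_single, add_zero]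
  · show _ + (if (k : ℕ) = 0 then _ else 0) = Lf _ (fcl g (hA g 0 (fb k)))
    by_cases hk : k = ⟨0, hg⟩
    · subst hk
      have e2 : hA g 0 (fb ⟨0, hg⟩) = fb ⟨0, hg⟩ * fa ⟨0, hg⟩ := hA_fb ⟨0, hg⟩
      rw [e2, O3aux.fcl_mul, O3aux.fcl_fa, O3aux.fcl_fb, Lf_add, Lf_single, Lf_single, if_pos rfl]
      congr 1
      show _ = oA ρ (gA g) 0 _ + 0 • _
      rw [zero_smul, add_zero]
    · have hk' : (k : ℕ) ≠ 0 := fun e => hk (Fin.ext e)
      rw [hA_fb' (i := ⟨0, hg⟩) hk, O3aux.fcl_fb, Lf_single, if_neg hk', add_zero]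

theorem EQ_B {i : ℕ} (hi : i < g) : EQ ρ (ph ρ w) (gB g i) := by
  refine EQ_of (toG_coe (memB (by omega) hi)) ?_
  intro j
  have e : ∀ z, ((sB g i : orSub g) : MulAut (FG g)) z = hB g i z :=
    fun z => mkS_apply (ok_B (by omega) hi) z
  rw [act_eq, e]
  have h1' : (ρ (gB g i) - 1) (ph ρ w j) = _ := ph_B h2 h hw hi j
  rw [h1']
  rcases j with k | k
  · show _ + (if (k : ℕ) = i then _ else 0) = Lf _ (fcl g (hB g i (fa k)))
    by_cases hk : k = ⟨i, hi⟩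
    · subst hk
      have e2 : hB g i (fa ⟨i, hi⟩) = fa ⟨i, hi⟩ * (fb ⟨i, hi⟩)⁻¹ := hB_fa ⟨i, hi⟩
      rw [e2, O3aux.fcl_mul, O3aux.fcl_inv, O3aux.fcl_fa, O3aux.fcl_fb, Lf_add, Lf_neg,
        Lf_single, Lf_single, if_pos rfl]
      rfl
    · have hk' : (k : ℕ) ≠ i := fun e => hk (Fin.ext e)
      rw [hB_fa' (i := ⟨i, hi⟩) hk, O3aux.fcl_fa, Lf_single, if_neg hk', add_zero]
  · show _ + 0 = Lf _ (fcl g (hB g i (fb k)))
    rw [hB_fb, O3aux.fcl_fb, Lf_single, add_zero]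

omit h2 in
/-- the rotation of a handle -/
theorem rot {i : ℕ} (hi : i < g) :
    ρ (gA g i) (ρ (gB g i) (ρ (gA g i) (ρ (gA g i) (ρ (gB g i) (ρ (gA g i)
      (be (oA ρ (gB g)) (oA ρ (gT g)) i w)))))) = -be (oA ρ (gB g)) (oA ρ (gT g)) i w ∧
    ρ (gA g i) (ρ (gB g i) (ρ (gA g i) (ρ (gA g i) (ρ (gB g i) (ρ (gA g i)
      (oA ρ (gA g) i (be (oA ρ (gB g)) (oA ρ (gT g)) i w))))))) =
      -oA ρ (gA g) i (be (oA ρ (gB g)) (oA ρ (gT g)) i w) := by
  set v := be (oA ρ (gB g)) (oA ρ (gT g)) i w with hv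
  set c := oA ρ (gA g) i v with hc
  have hb := bv_be h hi hw
  have e1 : ρ (gA g i) v = v + c := act_eq _ _ _
  have e2 : ρ (gA g i) c = c := by
    rw [act_eq]
    have : (ρ (gA g i) - 1) c = 0 := app0 (h.aa i hi i hi) v
    rw [this, add_zero]
  have e3 : ρ (gB g i) v = v := by
    rw [act_eq]
    have : (ρ (gB g i) - 1) v = 0 := hb.hb i hi
    rw [this, add_zero]
  have e4 : ρ (gB g i) c = c - v := by
    rw [act_eq]
    have : (ρ (gB g i) - 1) c = -v := hb.hba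
    rw [this]; abel
  constructor
  · simp only [e1, e2, e3, e4, map_add, map_sub]
    abel
  · simp only [e1, e2, e3, e4, map_add, map_sub]
    abel

omit [Field K] [AddCommGroup V] [Module K V] h2 h hw in
/-- the rotation of a handle -/
noncomputable def gH (g i : ℕ) : Gam g :=
  (gA g i * gB g i * gA g i) * (gA g i * gB g i * gA g i)

omit h2 h hw in
theorem gH_act (i : ℕ) (v : V) : ρ (gH g i) v =
    ρ (gA g i) (ρ (gB g i) (ρ (gA g i) (ρ (gA g i) (ρ (gB g i) (ρ (gA g i) v))))) := by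
  unfold gH
  simp only [map_mul, Module.End.mul_apply]

theorem gH_inl {i : ℕ} (hi : i < g) : ρ (gH g i) (ph ρ w (Sum.inl ⟨i, hi⟩)) =
    -oA ρ (gA g) i (be (oA ρ (gB g)) (oA ρ (gT g)) i w) +
      i • de (oA ρ (gA g)) (oA ρ (gB g)) (oA ρ (gT g)) 0 w := by
  have hd := de_inv h (i := 0) (by omega) hw
  set d := de (oA ρ (gA g)) (oA ρ (gB g)) (oA ρ (gT g)) 0 w with hd'
  have e1 : ρ (gA g i) d = d := by
    rw [act_eq]
    have : (ρ (gA g i) - 1) d = 0 := (hd.1 i hi).1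
    rw [this, add_zero]
  have e2 : ρ (gB g i) d = d := by
    rw [act_eq]
    have : (ρ (gB g i) - 1) d = 0 := (hd.1 i hi).2
    rw [this, add_zero]
  rw [gH_act]
  show ρ (gA g i) (ρ (gB g i) (ρ (gA g i) (ρ (gA g i) (ρ (gB g i) (ρ (gA g i)
    (oA ρ (gA g) i (be (oA ρ (gB g)) (oA ρ (gT g)) i w) + i • d)))))) = _
  simp only [map_add, map_nsmul, e1, e2]
  rw [(rot h hw hi).2]

theorem gH_inr {i : ℕ} (hi : i < g) : ρ (gH g i) (ph ρ w (Sum.inr ⟨i, hi⟩)) =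
    -be (oA ρ (gB g)) (oA ρ (gT g)) i w := by
  rw [gH_act]
  exact (rot h hw hi).1

theorem gH_ne {i : ℕ} (hi : i < g) {j : Fin g ⊕ Fin g} (h1 : j ≠ Sum.inl ⟨i, hi⟩)
    (h3 : j ≠ Sum.inr ⟨i, hi⟩) : ρ (gH g i) (ph ρ w j) = ph ρ w j := by
  have e1 : ρ (gA g i) (ph ρ w j) = ph ρ w j := by
    rw [act_eq]
    have e : (ρ (gA g i) - 1) (ph ρ w j) = _ := ph_A h2 h hw hi j
    rw [e]
    rcases j with k | k
    · exact add_zero _
    · have hk : (k : ℕ) ≠ i := fun e => h3 (by rw [← Fin.ext (a := k) (b := ⟨i, hi⟩) e])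
      simp only [if_neg hk, add_zero]
  have e2 : ρ (gB g i) (ph ρ w j) = ph ρ w j := by
    rw [act_eq]
    have e : (ρ (gB g i) - 1) (ph ρ w j) = _ := ph_B h2 h hw hi j
    rw [e]
    rcases j with k | k
    · have hk : (k : ℕ) ≠ i := fun e => h1 (by rw [← Fin.ext (a := k) (b := ⟨i, hi⟩) e])
      simp only [if_neg hk, add_zero]
    · exact add_zero _
  rw [gH_act]
  simp only [e1, e2]

omit h2 h hw in
theorem conj_act {x y : Gam g} {v u : V} (e : ρ y (ρ x v) = ρ x u) :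
    ρ (x⁻¹ * y * x) v = u := by
  rw [map_mul, map_mul, Module.End.mul_apply, Module.End.mul_apply, e, ← Module.End.mul_apply,
    ← map_mul, inv_mul_cancel, map_one, Module.End.one_apply]

omit h h2 hw in
theorem fcl_ee {i : ℕ} (hi : i + 1 < g) : fcl g (ee (⟨i + 1, hi⟩ : Fin g)) =
    Pi.single (Sum.inl ⟨i + 1, hi⟩) 1 - Pi.single (Sum.inl ⟨i, by omega⟩) 1 := by
  have e2 : (ee (⟨i + 1, hi⟩ : Fin g) : FG g) = fb ⟨i, by omega⟩ * (fa ⟨i, by omega⟩)⁻¹ *
      (fb ⟨i, by omega⟩)⁻¹ * fa ⟨i + 1, hi⟩ := by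
    unfold ee
    rw [dif_pos (by simp)]
    rfl
  rw [e2]
  simp only [O3aux.fcl_mul, O3aux.fcl_inv, O3aux.fcl_fa, O3aux.fcl_fb]
  abel

theorem EQ_C {i : ℕ} (hi : i + 1 < g) :
    EQ ρ (ph ρ w) ((gH g i)⁻¹ * gT g i * gH g i) := by
  have hcoe : ((((gH g i)⁻¹ * gT g i * gH g i : Gam g)) : Mod g) = modF g (CH g (2 * i + 2)) := by
    have e : CH g (2 * i + 2) = (Hh g i)⁻¹ * sT g i (i + 1) * Hh g i := by
      unfold CH
      rw [if_neg (by omega), if_neg (by omega)]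
      have e2 : (2 * i + 2) / 2 - 1 = i := by omega
      rw [e2]
    rw [e]
    have hA : ((gA g i : Gam g) : Mod g) = modF g (sA g i) := toG_coe (memA (by omega) (by omega))
    have hB : ((gB g i : Gam g) : Mod g) = modF g (sB g i) := toG_coe (memB (by omega) (by omega))
    have hT : ((gT g i : Gam g) : Mod g) = modF g (sT g i (i + 1)) :=
      toG_coe (memT (by omega) (by omega))
    unfold gH Hh
    simp only [Subgroup.coe_mul, Subgroup.coe_inv, map_mul, map_inv, hA, hB, hT]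
  refine EQ_of hcoe ?_
  intro j
  rw [CH_apply (by omega) (by omega)]
  have hi' : i < g := by omega
  have e0 : fv (⟨2 * i + 2, by omega⟩ : Fin (2 * g)) = stepE ⟨i + 1, hi⟩ (ee ⟨i + 1, hi⟩) := by
    unfold fv
    rw [if_pos (by simp only; omega)]
    have : (2 * i + 2) / 2 = i + 1 := by omega
    simp only [this]
  rw [e0]
  have hd := de_inv h (i := 0) (by omega) hw
  -- the action of `T_i` and of the rotation
  set vi := be (oA ρ (gB g)) (oA ρ (gT g)) i w with hvi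
  set ci := oA ρ (gA g) i vi with hci
  set vj := be (oA ρ (gB g)) (oA ρ (gT g)) (i + 1) w with hvj
  set cj := oA ρ (gA g) (i + 1) vj with hcj
  set d := de (oA ρ (gA g)) (oA ρ (gB g)) (oA ρ (gT g)) 0 w with hd'
  have pi : ph ρ w (Sum.inl ⟨i, hi'⟩) = ci + i • d := rfl
  have pj : ph ρ w (Sum.inl ⟨i + 1, hi⟩) = cj + (i + 1) • d := rfl
  have qi : ph ρ w (Sum.inr ⟨i, hi'⟩) = vi := rfl
  have qj : ph ρ w (Sum.inr ⟨i + 1, hi⟩) = vj := rfl
  have tT : ∀ v, ρ (gT g i) v = v + oA ρ (gT g) i v := fun v => act_eq _ _ _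
  have tc : ρ (gT g i) (ph ρ w (Sum.inl ⟨i, hi'⟩)) = ph ρ w (Sum.inl ⟨i, hi'⟩) := by
    rw [tT, ph_T h2 h hw hi]; exact add_zero _
  have td : ρ (gT g i) d = d := by
    rw [tT, hd.2 i hi, add_zero]
  have tci : ρ (gT g i) ci = ci := by
    rw [tT, app0 (h.ta i hi i hi'), add_zero]
  have tvi : ρ (gT g i) vi = vi + (ci + cj + d) := by
    rw [tT, ← qi, ph_T h2 h hw hi]
    simp only [true_or, if_true]
    rfl
  have tvj : ρ (gT g i) vj = vj + (ci + cj + d) := by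
    rw [tT, ← qj, ph_T h2 h hw hi]
    simp only [or_true, if_true]
    rfl
  have hne1 : (Sum.inl (⟨i + 1, hi⟩ : Fin g) : Fin g ⊕ Fin g) ≠ Sum.inl ⟨i, hi'⟩ := by
    intro e; have := Fin.mk.inj_iff.1 (Sum.inl_injective e); omega
  have hne2 : (Sum.inr (⟨i + 1, hi⟩ : Fin g) : Fin g ⊕ Fin g) ≠ Sum.inr ⟨i, hi'⟩ := by
    intro e; have := Fin.mk.inj_iff.1 (Sum.inr_injective e); omega
  have Hpi : ρ (gH g i) (ph ρ w (Sum.inl ⟨i, hi'⟩)) = -ci + i • d := gH_inl h2 h hw hi'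
  have Hqi : ρ (gH g i) (ph ρ w (Sum.inr ⟨i, hi'⟩)) = -vi := gH_inr h2 h hw hi'
  have Hpj : ρ (gH g i) (ph ρ w (Sum.inl ⟨i + 1, hi⟩)) = ph ρ w (Sum.inl ⟨i + 1, hi⟩) :=
    gH_ne h2 h hw hi' hne1 (by simp)
  have Hqj : ρ (gH g i) (ph ρ w (Sum.inr ⟨i + 1, hi⟩)) = ph ρ w (Sum.inr ⟨i + 1, hi⟩) :=
    gH_ne h2 h hw hi' (by simp) hne2
  apply conj_act
  rcases j with k | k
  · -- the `a_k`
    have e1 : fcl g (stepE ⟨i + 1, hi⟩ (ee ⟨i + 1, hi⟩) (FreeGroup.of (Sum.inl k))) =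
        Pi.single (Sum.inl k) 1 := by
      show fcl g (stepE ⟨i + 1, hi⟩ (ee ⟨i + 1, hi⟩) (fa k)) = _
      rw [stepE_fa]
      by_cases hk : k = ⟨i + 1, hi⟩
      · rw [if_pos hk, O3aux.fcl_mul, O3aux.fcl_mul, O3aux.fcl_inv, O3aux.fcl_fa]
        abel
      · rw [if_neg hk, O3aux.fcl_fa]
    rw [e1, Lf_single]
    by_cases hk : k = ⟨i, hi'⟩
    · rw [hk, Hpi, map_add, map_neg, map_nsmul, tci, td]
    · rw [gH_ne h2 h hw hi' (by simpa using hk) (by simp), tT, ph_T h2 h hw hi]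
      exact add_zero _
  · show ρ (gT g i) _ = ρ (gH g i) (Lf _ (fcl g (stepE ⟨i + 1, hi⟩ (ee ⟨i + 1, hi⟩) (fb k))))
    rw [stepE_fb]
    by_cases hk : k = ⟨i + 1, hi⟩
    · rw [if_pos hk, O3aux.fcl_mul, O3aux.fcl_fb, fcl_ee hi, Lf_add, Lf_sub, Lf_single, Lf_single,
        Lf_single, hk, map_add, map_sub, Hqj, Hpj, Hpi, qj, pj, tvj, add_smul, one_smul]
      abel
    · rw [if_neg hk]
      by_cases hk' : (k : ℕ) + 1 = i + 1
      · have hk2 : k = ⟨i, hi'⟩ := Fin.ext (by simpa using hk')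
        rw [if_pos (by simpa using hk'), O3aux.fcl_mul, O3aux.fcl_inv, O3aux.fcl_fb, fcl_ee hi,
          Lf_add, Lf_neg, Lf_sub, Lf_single, Lf_single, Lf_single, hk2, map_add, map_neg, map_sub,
          Hqi, Hpj, Hpi, map_neg, tvi, pj, add_smul, one_smul]
        abel
      · have hk2 : k ≠ ⟨i, hi'⟩ := fun e => hk' (by rw [e])
        rw [if_neg (by simpa using hk'), O3aux.fcl_fb, Lf_single,
          gH_ne h2 h hw hi' (by simp) (by simpa using hk2), tT, ph_T h2 h hw hi]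
        have h5 : (k : ℕ) ≠ i := fun e => hk2 (Fin.ext e)
        have h6 : (k : ℕ) ≠ i + 1 := fun e => hk (Fin.ext e)
        simp only [h5, h6, or_self, if_false, add_zero]

/-- the chain -/
theorem EQ_CH {j : ℕ} (hj : j < 2 * g) :
    ∃ γ : Gam g, (γ : Mod g) = modF g (CH g j) ∧ EQ ρ (ph ρ w) γ := by
  by_cases h0 : j = 0
  · refine ⟨gA g 0, ?_, EQ_A0 h2 h hw⟩
    have e : CH g j = sA g 0 := by unfold CH; rw [if_pos h0]
    rw [e]
    exact toG_coe (memA (by omega) (by omega))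
  · by_cases h1 : j % 2 = 1
    · refine ⟨gB g (j / 2), ?_, EQ_B h2 h hw (by omega)⟩
      have e : CH g j = sB g (j / 2) := by unfold CH; rw [if_neg h0, if_pos h1]
      rw [e]
      exact toG_coe (memB (by omega) (by omega))
    · obtain ⟨i, rfl⟩ : ∃ i, j = 2 * i + 2 := ⟨j / 2 - 1, by omega⟩
      refine ⟨(gH g i)⁻¹ * gT g i * gH g i, ?_, EQ_C h2 h hw (by omega)⟩
      have e : CH g (2 * i + 2) = (Hh g i)⁻¹ * sT g i (i + 1) * Hh g i := by
        unfold CH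
        rw [if_neg (by omega), if_neg (by omega)]
        have e2 : (2 * i + 2) / 2 - 1 = i := by omega
        rw [e2]
      rw [e]
      have hA : ((gA g i : Gam g) : Mod g) = modF g (sA g i) :=
        toG_coe (memA (by omega) (by omega))
      have hB : ((gB g i : Gam g) : Mod g) = modF g (sB g i) :=
        toG_coe (memB (by omega) (by omega))
      have hT : ((gT g i : Gam g) : Mod g) = modF g (sT g i (i + 1)) :=
        toG_coe (memT (by omega) (by omega))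
      unfold gH Hh
      simp only [Subgroup.coe_mul, Subgroup.coe_inv, map_mul, map_inv, hA, hB, hT]

theorem EQ_DE {n : ℕ} (hn : n ≤ 2 * g) :
    ∃ γ : Gam g, (γ : Mod g) = modF g (DE g n) ∧ EQ ρ (ph ρ w) γ := by
  induction n with
  | zero => exact ⟨1, by rw [Subgroup.coe_one, DE, map_one], EQ.one⟩
  | succ n ih =>
    obtain ⟨γ, e, hγ⟩ := ih (by omega)
    obtain ⟨γ', e', hγ'⟩ := EQ_CH h2 h hw (j := n) (by omega)
    exact ⟨γ * γ', by rw [Subgroup.coe_mul, e, e', DE, map_mul], hγ.mul hγ'⟩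

theorem EQ_DL {n : ℕ} (hn : n ≤ 2 * g) :
    ∃ γ : Gam g, (γ : Mod g) = modF g (DL g n) ∧ EQ ρ (ph ρ w) γ := by
  induction n with
  | zero => exact ⟨1, by rw [Subgroup.coe_one, DL, map_one], EQ.one⟩
  | succ n ih =>
    obtain ⟨γ, e, hγ⟩ := ih (by omega)
    obtain ⟨γ', e', hγ'⟩ := EQ_CH h2 h hw (j := n) (by omega)
    exact ⟨γ' * γ, by rw [Subgroup.coe_mul, e, e', DL, map_mul], hγ'.mul hγ⟩

/-- `(2g - 2) δ = 0` -/
theorem two_d : (2 * (g - 1)) • de (oA ρ (gA g)) (oA ρ (gB g)) (oA ρ (gT g)) 0 w = 0 := by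
  obtain ⟨γ1, e1, q1⟩ := EQ_DL h2 h hw le_rfl
  obtain ⟨γ2, e2, q2⟩ := EQ_DE h2 h hw le_rfl
  obtain ⟨γ, hγ⟩ : ∃ γ, γ = γ1 * γ2 := ⟨_, rfl⟩
  have eγ : (γ : Mod g) = modF g (DL g (2 * g) * DE g (2 * g)) := by
    rw [hγ, Subgroup.coe_mul, e1, e2, map_mul]
  have qγ : EQ ρ (ph ρ w) γ := by rw [hγ]; exact q1.mul q2
  have hg1 : g - 1 < g := by omega
  have hG := gen_gam (g := g) (by omega)
  -- the relation
  have hrel : γ * gA g (g - 1) = gA g (g - 1) * γ := by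
    apply Subtype.ext
    rw [Subgroup.coe_mul, Subgroup.coe_mul, eγ]
    have hA : ((gA g (g - 1) : Gam g) : Mod g) = modF g (sA g (g - 1)) :=
      toG_coe (memA (by omega) hg1)
    rw [hA, ← map_mul, ← map_mul]
    exact closing' (by omega)
  have hact := EQ.apply eγ qγ (Sum.inl ⟨g - 1, hg1⟩)
  have hcl : fcl g (((DL g (2 * g) * DE g (2 * g) : orSub g) : MulAut (FG g))
      (FreeGroup.of (Sum.inl ⟨g - 1, hg1⟩))) = -Pi.single (Sum.inl ⟨g - 1, hg1⟩) 1 :=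
    class_last' (by omega)
  rw [hcl, Lf_neg, Lf_single] at hact
  have hd := de_inv h (i := 0) (by omega) hw
  set d := de (oA ρ (gA g)) (oA ρ (gB g)) (oA ρ (gT g)) 0 w with hd'
  set v := be (oA ρ (gB g)) (oA ρ (gT g)) (g - 1) w with hv
  have hbv := bv_be h hg1 hw
  have ep : ph ρ w (Sum.inl ⟨g - 1, hg1⟩) = oA ρ (gA g) (g - 1) v + (g - 1) • d := rfl
  have hdγ : ρ γ d = d := (inv_iff hG d).1 hd γ
  rw [ep, map_add, map_nsmul, hdγ] at hact
  have hc : ρ γ (oA ρ (gA g) (g - 1) v) = oA ρ (gA g) (g - 1) (ρ γ v) := by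
    show ρ γ ((ρ (gA g (g - 1)) - 1) v) = (ρ (gA g (g - 1)) - 1) (ρ γ v)
    have h9 := congrArg (fun x => ρ x v) hrel
    simp only [map_mul, Module.End.mul_apply] at h9
    simp only [LinearMap.sub_apply, Module.End.one_apply, map_sub]
    rw [h9]
  rw [hc] at hact
  set m : V := -(v + ρ γ v) with hm
  have key : (2 * (g - 1)) • d = oA ρ (gA g) (g - 1) m := by
    rw [hm, map_neg, map_add]
    have h5 : oA ρ (gA g) (g - 1) (ρ γ v) = -(oA ρ (gA g) (g - 1) v + (g - 1) • d) -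
        (g - 1) • d := by rw [← hact]; abel
    rw [h5, two_mul, add_smul]
    abel
  have hvm : v ∈ aug ρ ⊤ := by
    have h6 : v = -((ρ (gB g (g - 1)) - 1) (oA ρ (gA g) (g - 1) v)) := by
      have := hbv.hba
      have h7 : (ρ (gB g (g - 1)) - 1) (oA ρ (gA g) (g - 1) v) = -v := this
      rw [h7, neg_neg]
    rw [h6]
    exact Submodule.neg_mem _ (mem_aug ρ _ trivial)
  have hmm : m ∈ aug ρ ⊤ := Submodule.neg_mem _ (Submodule.add_mem _ hvm
    (aug_stable ρ (U := ⊤) (fun _ _ _ => Submodule.mem_top) γ hvm))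
  have h8 := (s_ba h hG hg1 hmm).2
  have hi2 : (2 * (g - 1)) • d ∈ inv g (oA ρ (gA g)) (oA ρ (gB g)) (oA ρ (gT g)) :=
    Submodule.smul_of_tower_mem _ _ hd
  rw [← key, (hi2.1 (g - 1) hg1).2, map_zero] at h8
  exact neg_eq_zero.1 h8.symm

omit hw in
/-- `δ = 0` if `2g - 2` is invertible -/
theorem noD (hK : (2 * (g : K) - 2) ≠ 0) : NoD g ρ (gA g) (gB g) (gT g) := by
  intro w hw
  have h1 := two_d h2 h hw
  rw [← Nat.cast_smul_eq_nsmul K] at h1
  rcases smul_eq_zero.1 h1 with h3 | h3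
  · exfalso
    apply hK
    rw [← h3]
    push_cast [Nat.cast_sub (show 1 ≤ g by omega)]
    ring
  · exact h3

end

end Pool.Agent.Q290.MG
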