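import Mathlib
import Pool.Agent.Q290.MG.Nod

set_option autoImplicit false

/-! Classification of the small representations. -/

namespace Pool.Agent.Q290.MG

open Pool.Agent.H798R3.MG Pool.Agent.H29R2.MG Pool.Agent.TH35.MG Module

/-! ### extension of scalars -/

section
variable {K L V G : Type*} [Field K] [Field L] [Algebra K L] [AddCommGroup V] [Module K V]
  [Group G]

/-- extension of scalars for endomorphisms -/
noncomputable def bc (K L V : Type*) [Field K] [Field L] [Algebra K L] [AddCommGroup V]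
    [Module K V] : Module.End K V →+* Module.End L (TensorProduct K L V) :=
  (Module.End.baseChangeHom K L V : Module.End K V →ₐ[K] Module.End L (TensorProduct K L V))

theorem bc_inj : Function.Injective (bc K L V) := by
  rw [injective_iff_map_eq_zero]
  intro f hf
  ext v
  have h1 : (1 : L) ⊗ₜ[K] (f v) = 0 := by
    have h2 := LinearMap.congr_fun hf ((1 : L) ⊗ₜ[K] v)
    exact h2
  have h3 : Function.Injective (TensorProduct.mk K L V 1) :=
    Module.Flat.tensorProduct_mk_injective K V L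
  apply h3
  rw [LinearMap.zero_apply, map_zero]
  exact h1

omit [Algebra K L] in
theorem E_map {V' : Type*} [AddCommGroup V'] [Module L V'] (F : Module.End K V →+* Module.End L V')
    (ρ : G →* Module.End K V) {A B : ℕ → G} {N : ℕ} (t : Fin N → List Bool) :
    F (E ρ A B t) = E ((F : Module.End K V →* Module.End L V').comp ρ) A B t := by
  unfold E ev
  rw [map_list_prod, List.map_map]
  congr 1
  apply List.map_congr_left
  intro i _
  rw [Function.comp_apply, map_list_prod, List.map_map]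
  congr 1
  apply List.map_congr_left
  intro c _
  rw [Function.comp_apply]
  unfold lt
  split_ifs
  · rw [map_sub, map_one]; rfl
  · rw [map_sub, map_one]; rfl

/-- the vanishing theorem over an arbitrary field -/
theorem van' [FiniteDimensional K V] {ρ : G →* Module.End K V} {A B T : ℕ → G} {N : ℕ}
    (r : HR N A B T) {m : ℕ} (hm : 1 ≤ m) (hm2 : m + 2 ≤ N)
    (hd : finrank K V < 2 ^ m * N.choose m) (hd2 : finrank K V < 2 ^ (N - 2)) :
    ∀ t : Fin N → List Bool, m ≤ (sp t).card → E ρ A B t = 0 := by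
  intro t ht
  apply bc_inj (L := AlgebraicClosure K)
  rw [map_zero, E_map]
  apply van r hm hm2 _ _ t ht
  · rwa [Module.finrank_baseChange]
  · rwa [Module.finrank_baseChange]

end

/-! ### numbers -/

theorem num {g : ℕ} (hg : 10 ≤ g) : 2 * g * (g - 1) ≤ 2 ^ (g - 2) := by
  obtain ⟨n, rfl⟩ := Nat.exists_eq_add_of_le hg
  induction n with
  | zero => norm_num
  | succ n ih =>
    have h1 := ih (by omega)
    have e1 : 10 + n - 1 = n + 9 := by omega
    have e2 : 10 + n - 2 = n + 8 := by omega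
    have e3 : 10 + (n + 1) - 1 = n + 10 := by omega
    have e4 : 10 + (n + 1) - 2 = n + 8 + 1 := by omega
    rw [e1, e2] at h1
    rw [e3, e4, pow_succ]
    nlinarith

theorem num2 (g : ℕ) : 2 ^ 2 * g.choose 2 = 2 * g * (g - 1) := by
  rw [Nat.choose_two_right]
  have h : 2 ∣ g * (g - 1) := (Nat.even_mul_pred_self g).two_dvd
  obtain ⟨c, hc⟩ := h
  rw [hc, Nat.mul_div_cancel_left c (by norm_num), mul_assoc, hc]
  ring

/-! ### the equivariance under all the twists -/

section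
variable {K V : Type*} [Field K] [AddCommGroup V] [Module K V] {g : ℕ}
  {ρ : Gam g →* Module.End K V} (h2 : 3 ≤ g) (h : OR g ρ (gA g) (gB g) (gT g)) {w : V}
  (hw : Bv g (oA ρ (gA g)) (oA ρ (gB g)) (oA ρ (gT g)) 0 w)
  (hd0 : de (oA ρ (gA g)) (oA ρ (gB g)) (oA ρ (gT g)) 0 w = 0)
include h2 h hw hd0

theorem EQ_A {i : ℕ} (hi : i < g) : EQ ρ (ph ρ w) (gA g i) := by
  refine EQ_of (toG_coe (memA (by omega) hi)) ?_
  intro j
  have e : ∀ z, ((sA g i : orSub g) : MulAut (FG g)) z = hA g i z :=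
    fun z => mkS_apply (ok_A (by omega) hi) z
  rw [act_eq, e]
  have h1' : (ρ (gA g i) - 1) (ph ρ w j) = _ := ph_A h2 h hw hi j
  rw [h1']
  rcases j with k | k
  · show _ + 0 = Lf _ (fcl g (hA g i (fa k)))
    rw [hA_fa, O3aux.fcl_fa, Lf_single, add_zero]
  · show _ + (if (k : ℕ) = i then _ else 0) = Lf _ (fcl g (hA g i (fb k)))
    by_cases hk : k = ⟨i, hi⟩
    · subst hk
      have e2 : hA g i (fb ⟨i, hi⟩) = fb ⟨i, hi⟩ * fa ⟨i, hi⟩ := hA_fb ⟨i, hi⟩
      rw [e2, O3aux.fcl_mul, O3aux.fcl_fa, O3aux.fcl_fb, Lf_add, Lf_single, Lf_single, if_pos rfl]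
      congr 1
      show _ = oA ρ (gA g) i _ + i • _
      rw [hd0, smul_zero, add_zero]
    · have hk' : (k : ℕ) ≠ i := fun e => hk (Fin.ext e)
      rw [hA_fb' (i := ⟨i, hi⟩) hk, O3aux.fcl_fb, Lf_single, if_neg hk', add_zero]

theorem EQ_T {i : ℕ} (hi : i + 1 < g) : EQ ρ (ph ρ w) (gT g i) := by
  refine EQ_of (toG_coe (memT (by omega) hi)) ?_
  intro j
  have hi' : i < g := by omega
  have e : ∀ z, ((sT g i (i + 1) : orSub g) : MulAut (FG g)) z = hT g i (i + 1) z :=
    fun z => mkS_apply (ok_T (by omega) (by omega) (by omega) hi) z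
  rw [act_eq, e]
  have h1' : (ρ (gT g i) - 1) (ph ρ w j) = _ := ph_T h2 h hw hi j
  rw [h1']
  have cu : fcl g (uT g i (i + 1)) =
      Pi.single (Sum.inl ⟨i + 1, hi⟩) 1 + Pi.single (Sum.inl ⟨i, hi'⟩) 1 := by
    rw [uT]
    simp only [O3aux.fcl_mul, O3aux.fcl_inv, O3aux.fcl_ha hi, O3aux.fcl_ha hi']
    abel
  have cp : fcl g (pT g i (i + 1)) =
      Pi.single (Sum.inl ⟨i, hi'⟩) 1 + Pi.single (Sum.inl ⟨i + 1, hi⟩) 1 := by
    rw [pT]
    simp only [O3aux.fcl_mul, O3aux.fcl_inv, O3aux.fcl_ha hi, O3aux.fcl_ha hi']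
    abel
  have pi : ph ρ w (Sum.inl ⟨i, hi'⟩) =
      oA ρ (gA g) i (be (oA ρ (gB g)) (oA ρ (gT g)) i w) := by
    show _ + i • _ = _
    rw [hd0, smul_zero, add_zero]
  have pj : ph ρ w (Sum.inl ⟨i + 1, hi⟩) =
      oA ρ (gA g) (i + 1) (be (oA ρ (gB g)) (oA ρ (gT g)) (i + 1) w) := by
    show _ + (i + 1) • _ = _
    rw [hd0, smul_zero, add_zero]
  rcases j with k | k
  · show _ + 0 = Lf _ (fcl g (hT g i (i + 1) (fa k)))
    have e3 : fcl g (hT g i (i + 1) (fa k)) = Pi.single (Sum.inl k) 1 := by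
      rw [hT, O3aux.ends_fa]
      split_ifs
      · simp only [O3aux.fcl_mul, O3aux.fcl_inv, O3aux.fcl_fa]; abel
      · simp only [O3aux.fcl_mul, O3aux.fcl_inv, O3aux.fcl_fa]; abel
      · rw [O3aux.fcl_fa]
    rw [e3, Lf_single, add_zero]
  · show _ + (if (k : ℕ) = i ∨ (k : ℕ) = i + 1 then _ else 0) =
      Lf _ (fcl g (hT g i (i + 1) (fb k)))
    rw [hT, O3aux.ends_fb]
    by_cases hk : (k : ℕ) = i
    · rw [if_pos (Or.inl hk), if_pos hk, O3aux.fcl_mul, O3aux.fcl_fb, cu, Lf_add, Lf_add,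
        Lf_single, Lf_single, Lf_single, pi, pj, hd0]
      abel
    · by_cases hk' : (k : ℕ) = i + 1
      · rw [if_pos (Or.inr hk'), if_neg hk, if_pos hk', O3aux.fcl_mul, O3aux.fcl_fb, cp, Lf_add,
          Lf_add, Lf_single, Lf_single, Lf_single, pi, pj, hd0]
        abel
      · rw [if_neg (by tauto), if_neg hk, if_neg hk', O3aux.fcl_fb, Lf_single, add_zero]

theorem EQ_all (γ : Gam g) : EQ ρ (ph ρ w) γ :=
  (gen_gam (g := g) (by omega)).ind (fun γ => EQ ρ (ph ρ w) γ)
    (fun _ hi => EQ_A h2 h hw hd0 hi) (fun _ hi => EQ_B h2 h hw hi)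
    (fun _ hi => EQ_T h2 h hw hd0 hi) EQ.one (fun _ _ hx hy => hx.mul hy) (fun _ hx => hx.inv) γ

end

end Pool.Agent.Q290.MG
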