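import Mathlib
import Pool.Agent.Q290.MG.Cls

set_option autoImplicit false

/-! Classification of the small representations, second part. -/

namespace Pool.Agent.Q290.MG

open Pool.Agent.H798R3.MG Pool.Agent.H29R2.MG Pool.Agent.TH35.MG Module

section
variable {K V : Type*} [Field K] [AddCommGroup V] [Module K V] [FiniteDimensional K V] {g : ℕ}
  {ρ : Gam g →* Module.End K V}

/-- small representations satisfy the relations of level one -/
theorem or_of_dim (h4 : 4 ≤ g) (hd : finrank K V < 2 * g * (g - 1))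
    (hd2 : finrank K V < 2 ^ (g - 2)) : OR g ρ (gA g) (gB g) (gT g) := by
  refine opRel (hr_gam (by omega)) (x_gam (by omega)) (by omega) ?_
  exact van' (hr_gam (by omega)) (m := 2) (by omega) (by omega) (by rw [num2]; exact hd) hd2

/-- the sum of the two maps -/
noncomputable def Th (ρ : Gam g →* Module.End K V) :
    (((Fin g ⊕ Fin g) → Wi g (oA ρ (gA g)) (oA ρ (gB g)) (oA ρ (gT g)) 0) ×
      inv g (oA ρ (gA g)) (oA ρ (gB g)) (oA ρ (gT g))) →ₗ[K] V :=
  (Psi g (oA ρ (gA g)) (oA ρ (gB g)) (oA ρ (gT g))).coprod (Submodule.subtype _)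

/-- the classification: the core -/
theorem classify_core (h3 : 3 ≤ g) (h : OR g ρ (gA g) (gB g) (gT g))
    (hN : NoD g ρ (gA g) (gB g) (gT g))
    (hdec : inv g (oA ρ (gA g)) (oA ρ (gB g)) (oA ρ (gT g)) ⊔ aug ρ ⊤ = ⊤) :
    ∃ (a b : ℕ) (v : Basis ((Fin b × (Fin g ⊕ Fin g)) ⊕ Fin a) K V), ∀ γ : Gam g,
      (∀ k j, ρ γ (v (Sum.inl (k, j))) = ∑ i, homMat g γ i j • v (Sum.inl (k, i))) ∧
      ∀ k, ρ γ (v (Sum.inr k)) = v (Sum.inr k) := by
  classical
  have hG := gen_gam (g := g) (by omega)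
  -- the isomorphism
  have hinj : Function.Injective (Th ρ) := by
    rw [← LinearMap.ker_eq_bot, Submodule.eq_bot_iff]
    rintro ⟨f, x⟩ hfx
    have h1 : Psi g (oA ρ (gA g)) (oA ρ (gB g)) (oA ρ (gT g)) f + (x : V) = 0 := hfx
    have h2 : Psi g (oA ρ (gA g)) (oA ρ (gB g)) (oA ρ (gT g)) f ∈
        inv g (oA ρ (gA g)) (oA ρ (gB g)) (oA ρ (gT g)) := by
      rw [eq_neg_of_add_eq_zero_left h1]
      exact Submodule.neg_mem _ x.2
    have h3 := Psi_inv h f h2
    subst h3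
    rw [map_zero, zero_add] at h1
    exact Prod.ext rfl (Subtype.ext h1)
  have hsurj : Function.Surjective (Th ρ) := by
    intro v
    have hv : v ∈ inv g (oA ρ (gA g)) (oA ρ (gB g)) (oA ρ (gT g)) ⊔ aug ρ ⊤ := by
      rw [hdec]; trivial
    obtain ⟨x, hx, y, hy, rfl⟩ := Submodule.mem_sup.1 hv
    obtain ⟨f, rfl⟩ := aug_range h hG (by omega) hN hy
    exact ⟨(f, ⟨x, hx⟩), add_comm _ _⟩
  let Θ := LinearEquiv.ofBijective (Th ρ) ⟨hinj, hsurj⟩
  let bW := Module.finBasis K (Wi g (oA ρ (gA g)) (oA ρ (gB g)) (oA ρ (gT g)) 0)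
  let bI := Module.finBasis K (inv g (oA ρ (gA g)) (oA ρ (gB g)) (oA ρ (gT g)))
  let b1 := (Pi.basis (fun _ : Fin g ⊕ Fin g => bW)).prod bI
  let b2 := b1.map Θ
  let e : ((Σ _ : Fin g ⊕ Fin g, Fin (finrank K (Wi g (oA ρ (gA g)) (oA ρ (gB g))
      (oA ρ (gT g)) 0))) ⊕ Fin (finrank K (inv g (oA ρ (gA g)) (oA ρ (gB g)) (oA ρ (gT g))))) ≃
      ((Fin (finrank K (Wi g (oA ρ (gA g)) (oA ρ (gB g)) (oA ρ (gT g)) 0)) ×
        (Fin g ⊕ Fin g)) ⊕ Fin (finrank K (inv g (oA ρ (gA g)) (oA ρ (gB g))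
          (oA ρ (gT g))))) :=
    Equiv.sumCongr ((Equiv.sigmaEquivProd _ _).trans (Equiv.prodComm _ _)) (Equiv.refl _)
  refine ⟨_, _, b2.reindex e, ?_⟩
  have hv1 : ∀ k j, (b2.reindex e) (Sum.inl (k, j)) = ph ρ (bW k : V) j := by
    intro k j
    rw [Basis.reindex_apply]
    have e1 : e.symm (Sum.inl (k, j)) = Sum.inl ⟨j, k⟩ := rfl
    rw [e1]
    show Th ρ (b1 (Sum.inl ⟨j, k⟩)) = _
    have e2 : b1 (Sum.inl ⟨j, k⟩) = (Pi.single j (bW k), 0) := by
      show ((Pi.basis (fun _ : Fin g ⊕ Fin g => bW)).prod bI) (Sum.inl ⟨j, k⟩) = _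
      rw [Basis.prod_apply, Sum.elim_inl, Function.comp_apply, Pi.basis_apply]
      rfl
    rw [e2]
    show Psi g (oA ρ (gA g)) (oA ρ (gB g)) (oA ρ (gT g)) (Pi.single j (bW k)) + ((0 : inv g
      (oA ρ (gA g)) (oA ρ (gB g)) (oA ρ (gT g))) : V) = _
    rw [Submodule.coe_zero, add_zero, Psi_apply]
    rcases j with i | i
    · rw [Finset.sum_eq_single i]
      · rw [Pi.single_eq_same, Pi.single_eq_of_ne (by simp)]
        show _ = _ + (i : ℕ) • _
        rw [hN _ (bW k).2, smul_zero]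
        simp
      · intro m _ hm
        rw [Pi.single_eq_of_ne (by simpa using hm), Pi.single_eq_of_ne (by simp)]
        simp
      · intro hk; exact absurd (Finset.mem_univ _) hk
    · rw [Finset.sum_eq_single i]
      · rw [Pi.single_eq_of_ne (by simp), Pi.single_eq_same]
        show _ = be _ _ i _
        simp
      · intro m _ hm
        rw [Pi.single_eq_of_ne (by simp), Pi.single_eq_of_ne (by simpa using hm)]
        simp
      · intro hk; exact absurd (Finset.mem_univ _) hk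
  have hv2 : ∀ k, (b2.reindex e) (Sum.inr k) = (bI k : V) := by
    intro k
    rw [Basis.reindex_apply]
    have e1 : e.symm (Sum.inr k) = Sum.inr k := rfl
    rw [e1]
    show Th ρ (b1 (Sum.inr k)) = _
    have e2 : b1 (Sum.inr k) = (0, bI k) := by
      show ((Pi.basis (fun _ : Fin g ⊕ Fin g => bW)).prod bI) (Sum.inr k) = _
      rw [Basis.prod_apply]
      rfl
    rw [e2]
    show Psi g (oA ρ (gA g)) (oA ρ (gB g)) (oA ρ (gT g)) 0 + (bI k : V) = _
    rw [map_zero, zero_add]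
  intro γ
  refine ⟨fun k j => ?_, fun k => ?_⟩
  · simp only [hv1]
    exact EQ_all (by omega) h (bW k).2 (hN _ (bW k).2) γ j
  · rw [hv2]
    exact (inv_iff hG _).1 (bI k).2 γ

/-- the classification -/
theorem classify (h4 : 4 ≤ g) (hd : finrank K V < 2 * g * (g - 1))
    (hd2 : finrank K V < 2 ^ (g - 2)) (hK : (2 * (g : K) - 2) ≠ 0) :
    ∃ (a b : ℕ) (v : Basis ((Fin b × (Fin g ⊕ Fin g)) ⊕ Fin a) K V), ∀ γ : Gam g,
      (∀ k j, ρ γ (v (Sum.inl (k, j))) = ∑ i, homMat g γ i j • v (Sum.inl (k, i))) ∧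
      ∀ k, ρ γ (v (Sum.inr k)) = v (Sum.inr k) := by
  have h := or_of_dim (ρ := ρ) h4 hd hd2
  have h' : OR g (dl ρ) (gA g) (gB g) (gT g) := by
    apply or_of_dim h4
    · rwa [Subspace.dual_finrank_eq]
    · rwa [Subspace.dual_finrank_eq]
  have hG := gen_gam (g := g) (by omega)
  have hN := noD (by omega) h hK
  have hN' := noD (by omega) h' hK
  exact classify_core (by omega) h hN (decomp h h' hG (by omega) hN')

end

end Pool.Agent.Q290.MG
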