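import Mathlib
import Pool.Agent.Q290.MG.Cls2
import Pool.Agent.Q290.MG.StdDef

set_option autoImplicit false

/-! The completely reducible case. -/

namespace Pool.Agent.Q290.MG

open Pool.Agent.H798R3.MG Pool.Agent.H29R2.MG Pool.Agent.TH35.MG Module

section
variable {K V G : Type*} [Field K] [AddCommGroup V] [Module K V] [Group G]

/-- in a completely reducible representation the invariants meet `[G, V]` trivially -/
theorem ss_inv (σ : G →* Module.End K V) (hS : ComplRed σ) {x : V} (hx : ∀ γ, σ γ x = x)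
    (hx' : x ∈ aug σ ⊤) : x = 0 := by
  let I : Submodule K V :=
    { carrier := {v | ∀ γ, σ γ v = v}
      add_mem' := fun {a b} ha hb γ => by rw [map_add, ha γ, hb γ]
      zero_mem' := fun γ => map_zero _
      smul_mem' := fun c a ha γ => by rw [map_smul, ha γ] }
  obtain ⟨C, hC, h1, h2⟩ := hS I (fun γ v hv => by
    have e : σ γ v = v := hv γ
    rw [e]; exact hv)
  have hle : aug σ ⊤ ≤ C := by
    unfold aug
    rw [Submodule.span_le]
    rintro _ ⟨γ, u, -, rfl⟩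
    have hu : u ∈ I ⊔ C := by rw [h1]; trivial
    obtain ⟨y, hy, c, hc, rfl⟩ := Submodule.mem_sup.1 hu
    have e : σ γ y = y := hy γ
    have e2 : (σ γ - 1) (y + c) = σ γ c - c := by
      rw [LinearMap.sub_apply, Module.End.one_apply, map_add, e, add_sub_add_left_eq_sub]
    show (σ γ - 1) (y + c) ∈ C
    rw [e2]
    exact Submodule.sub_mem _ (hC γ c hc) hc
  have h3 : x ∈ I ⊓ C := ⟨hx, hle hx'⟩
  rw [h2] at h3
  exact h3

/-- a completely reducible representation is the sum of the invariants and `[G, V]` -/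
theorem ss_sup (σ : G →* Module.End K V) (hS : ComplRed σ) (v : V) :
    ∃ x y, (∀ γ, σ γ x = x) ∧ y ∈ aug σ ⊤ ∧ v = x + y := by
  obtain ⟨C, hC, h1, h2⟩ := hS (aug σ ⊤)
    (fun γ x hx => aug_stable σ (U := ⊤) (fun _ _ _ => Submodule.mem_top) γ hx)
  have hv : v ∈ aug σ ⊤ ⊔ C := by rw [h1]; trivial
  obtain ⟨y, hy, x, hx, rfl⟩ := Submodule.mem_sup.1 hv
  refine ⟨x, y, fun γ => ?_, hy, add_comm _ _⟩
  have h3 : (σ γ - 1) x ∈ aug σ ⊤ ⊓ C := by
    refine ⟨mem_aug σ γ trivial, ?_⟩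
    exact Submodule.sub_mem _ (hC γ x hx) hx
  rw [h2] at h3
  exact sub_eq_zero.1 h3

end

section
variable {K V : Type*} [Field K] [AddCommGroup V] [Module K V] {g : ℕ}
  {ρ : Gam g →* Module.End K V}

/-- the vector `δ` lies in `[G, V]` -/
theorem de_aug (w : V) : de (oA ρ (gA g)) (oA ρ (gB g)) (oA ρ (gT g)) 0 w ∈ aug ρ ⊤ := by
  rw [de_apply]
  exact Submodule.sub_mem _ (Submodule.sub_mem _ (mem_aug ρ _ trivial) (mem_aug ρ _ trivial))
    (mem_aug ρ _ trivial)

theorem noD_ss (h2 : 3 ≤ g) (h : OR g ρ (gA g) (gB g) (gT g)) (hS : ComplRed ρ) :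
    NoD g ρ (gA g) (gB g) (gT g) := by
  intro w hw
  have h1 := de_inv h (i := 0) (by omega) hw
  have hG := gen_gam (g := g) (by omega)
  exact ss_inv ρ hS ((inv_iff hG _).1 h1) (de_aug w)

theorem decomp_ss (h2 : 3 ≤ g) (hS : ComplRed ρ) :
    inv g (oA ρ (gA g)) (oA ρ (gB g)) (oA ρ (gT g)) ⊔ aug ρ ⊤ = ⊤ := by
  have hG := gen_gam (g := g) (by omega)
  rw [eq_top_iff]
  intro v _
  obtain ⟨x, y, hx, hy, e⟩ := ss_sup ρ hS v
  rw [e]
  exact Submodule.add_mem_sup ((inv_iff hG _).2 hx) hy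

/-- the classification of the completely reducible representations -/
theorem classify_ss [FiniteDimensional K V] (h4 : 4 ≤ g) (hd : finrank K V < 2 * g * (g - 1))
    (hd2 : finrank K V < 2 ^ (g - 2)) (hS : ComplRed ρ) :
    ∃ (a b : ℕ) (v : Basis ((Fin b × (Fin g ⊕ Fin g)) ⊕ Fin a) K V), ∀ γ : Gam g,
      (∀ k j, ρ γ (v (Sum.inl (k, j))) = ∑ i, homMat g γ i j • v (Sum.inl (k, i))) ∧
      ∀ k, ρ γ (v (Sum.inr k)) = v (Sum.inr k) :=
  classify_core (by omega) (or_of_dim h4 hd hd2)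
    (noD_ss (by omega) (or_of_dim h4 hd hd2) hS) (decomp_ss (by omega) hS)

end

end Pool.Agent.Q290.MG
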