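import Mathlib
import Pool.Agent.Q290.MG.Cls

set_option autoImplicit false

/-! The action of the mapping class group on the exterior powers of the homology. -/

namespace Pool.Agent.Q290.MG

open Pool.Agent.H798R3.MG Pool.Agent.H29R2.MG Pool.Agent.TH35.MG Module

section
variable {g : ℕ} {K : Type*} [Field K]

/-- `T` is the class of the automorphism `b_k ↦ b_k a_k` of the surface group, fixing the other
generators: the Dehn twist about `a_k` -/
def IsTwistA (g k : ℕ) (T : Mod g) : Prop :=
  ∃ τ : orientedAut g, classOf g τ = T ∧ ∀ j, applyAut g τ (gen j) = valA g k j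

/-- `T` is the class of the automorphism `a_k ↦ a_k b_k⁻¹` of the surface group, fixing the other
generators: the Dehn twist about `b_k` -/
def IsTwistB (g k : ℕ) (T : Mod g) : Prop :=
  ∃ τ : orientedAut g, classOf g τ = T ∧ ∀ j, applyAut g τ (gen j) = valB g k j

theorem isTwistA_iff (h2 : 2 ≤ g) {k : ℕ} (hk : k < g) (T : Mod g) :
    IsTwistA g k T ↔ T = modF g (sA g k) := by
  constructor
  · rintro ⟨τ, rfl, h⟩
    have e : τ = TQ.qh g (sA g k) := tau_ext fun j => by rw [h, vA h2 hk]
    rw [e]; rfl
  · rintro rfl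
    exact ⟨TQ.qh g (sA g k), rfl, vA h2 hk⟩

theorem isTwistB_iff (h2 : 2 ≤ g) {k : ℕ} (hk : k < g) (T : Mod g) :
    IsTwistB g k T ↔ T = modF g (sB g k) := by
  constructor
  · rintro ⟨τ, rfl, h⟩
    have e : τ = TQ.qh g (sB g k) := tau_ext fun j => by rw [h, vB h2 hk]
    rw [e]; rfl
  · rintro rfl
    exact ⟨TQ.qh g (sB g k), rfl, vB h2 hk⟩

/-- the action on `H_1(Σ_g; K) = K^{2g}` -/
noncomputable def hK (g : ℕ) (K : Type*) [Field K] :
    Mod g →* Module.End K (Fin g ⊕ Fin g → K) where
  toFun γ := Matrix.toLin' ((homMat g γ).map (Int.castRingHom K))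
  map_one' := by
    rw [map_one, Matrix.map_one _ (map_zero _) (map_one _), Matrix.toLin'_one]
    rfl
  map_mul' x y := by
    rw [map_mul, Matrix.map_mul, Matrix.toLin'_mul]
    rfl

theorem hK_single (γ : Mod g) (j : Fin g ⊕ Fin g) :
    hK g K γ (Pi.single j 1) = fun i => ((homMat g γ i j : ℤ) : K) := by
  have e : hK g K γ = Matrix.toLin' ((homMat g γ).map (Int.castRingHom K)) := rfl
  rw [e, Matrix.toLin'_apply, Matrix.mulVec_single_one]
  rfl

theorem homMat_tw {k : ℕ} {T : Mod g} (hT : IsTwistA g k T) (i j : Fin g ⊕ Fin g) :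
    homMat g T i j = (Pi.single j 1 : Fin g ⊕ Fin g → ℤ) i +
      (match j with
        | Sum.inl _ => 0
        | Sum.inr l => if (l : ℕ) = k then (Pi.single (Sum.inl l) 1 : Fin g ⊕ Fin g → ℤ) i
            else 0) := by
  obtain ⟨τ, rfl, h⟩ := hT
  have e : homMat g (classOf g τ) i j = homologyClass (applyAut g τ (gen j)) i := rfl
  rw [e, h]
  rcases j with l | l
  · show homologyClass (gen (Sum.inl l)) i = _ + 0
    rw [hc_gen, add_zero]
  · show homologyClass (if (l : ℕ) = k then _ else _) i = _ + (if (l : ℕ) = k then _ else _)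
    by_cases hl : (l : ℕ) = k
    · rw [if_pos hl, if_pos hl, hc_mul, hc_gen, hc_gen]
      rfl
    · rw [if_neg hl, if_neg hl, hc_gen, add_zero]

theorem hK_inl {k : ℕ} {T : Mod g} (hT : IsTwistA g k T) (l : Fin g) :
    hK g K T (Pi.single (Sum.inl l) 1) = Pi.single (Sum.inl l) 1 := by
  rw [hK_single]
  funext i
  rw [homMat_tw hT]
  simp only [add_zero, Pi.single_apply]
  split_ifs <;> simp

theorem hK_inr_ne {k : ℕ} {T : Mod g} (hT : IsTwistA g k T) {l : Fin g} (hl : (l : ℕ) ≠ k) :
    hK g K T (Pi.single (Sum.inr l) 1) = Pi.single (Sum.inr l) 1 := by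
  rw [hK_single]
  funext i
  rw [homMat_tw hT]
  simp only [if_neg hl, add_zero, Pi.single_apply]
  split_ifs <;> simp

theorem hK_inr {l : Fin g} {T : Mod g} (hT : IsTwistA g l T) :
    hK g K T (Pi.single (Sum.inr l) 1) = Pi.single (Sum.inr l) 1 + Pi.single (Sum.inl l) 1 := by
  rw [hK_single]
  funext i
  rw [homMat_tw hT]
  simp only [if_true, Pi.add_apply, Pi.single_apply, Int.cast_add]
  split_ifs <;> simp

/-- the action on the exterior power `Λ^m H_1(Σ_g; K)` -/
noncomputable def lam (g m : ℕ) (K : Type*) [Field K] :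
    Mod g →* Module.End K (⋀[K]^m (Fin g ⊕ Fin g → K)) where
  toFun γ := exteriorPower.map m (hK g K γ)
  map_one' := by
    rw [map_one]
    exact exteriorPower.map_id
  map_mul' x y := by
    rw [map_mul]
    exact exteriorPower.map_comp _ _

/-- the vector with entries `a_{s k}` for `k ∈ S` and `b_{s k}` otherwise -/
def stv (g : ℕ) {m : ℕ} (K : Type*) [Field K] (s : Fin m → Fin g) (S : Finset (Fin m)) :
    Fin m → (Fin g ⊕ Fin g → K) := fun k =>
  if k ∈ S then Pi.single (Sum.inl (s k)) 1 else Pi.single (Sum.inr (s k)) 1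

theorem lam_step {m : ℕ} {s : Fin m → Fin g} (hs : Function.Injective s) {k : Fin m} {T : Mod g}
    (hT : IsTwistA g (s k) T) {S : Finset (Fin m)} (hk : k ∉ S) :
    (lam g m K T - 1) (exteriorPower.ιMulti K m (stv g K s S)) =
      exteriorPower.ιMulti K m (stv g K s (insert k S)) := by
  have e1 : lam g m K T (exteriorPower.ιMulti K m (stv g K s S)) =
      exteriorPower.ιMulti K m (hK g K T ∘ stv g K s S) :=
    exteriorPower.map_apply_ιMulti _ _
  have e2 : (hK g K T ∘ stv g K s S) = Function.update (stv g K s S) k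
      (stv g K s S k + Pi.single (Sum.inl (s k)) 1) := by
    funext j
    rw [Function.comp_apply]
    by_cases hj : j = k
    · subst hj
      rw [Function.update_self]
      simp only [stv, if_neg hk]
      exact hK_inr hT
    · rw [Function.update_of_ne hj]
      simp only [stv]
      split_ifs with h
      · exact hK_inl hT _
      · refine hK_inr_ne hT ?_
        intro e
        exact hj (hs (Fin.ext e))
  have e3 : stv g K s (insert k S) = Function.update (stv g K s S) k
      (Pi.single (Sum.inl (s k)) 1) := by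
    funext j
    by_cases hj : j = k
    · subst hj
      rw [Function.update_self]
      simp [stv]
    · rw [Function.update_of_ne hj]
      simp [stv, hj]
  rw [LinearMap.sub_apply, Module.End.one_apply, e1, e2, AlternatingMap.map_update_add,
    Function.update_eq_self, add_sub_cancel_left, e3]

theorem lam_list {m : ℕ} {s : Fin m → Fin g} (hs : Function.Injective s) {T : Fin m → Mod g}
    (hT : ∀ k, IsTwistA g (s k) (T k)) (l : List (Fin m)) (hl : l.Nodup) :
    (l.map fun k => lam g m K (T k) - 1).prod (exteriorPower.ιMulti K m (stv g K s ∅)) =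
      exteriorPower.ιMulti K m (stv g K s l.toFinset) := by
  induction l with
  | nil => simp
  | cons k l ih =>
    rw [List.nodup_cons] at hl
    rw [List.map_cons, List.prod_cons, Module.End.mul_apply, ih hl.2,
      lam_step hs (hT k) (by simpa using hl.1)]
    simp

/-- the product of the twist operators of `m` handles is not zero on `Λ^m H_1` -/
theorem lam_ne {m : ℕ} {s : Fin m → Fin g} (hs : Function.Injective s) {T : Fin m → Mod g}
    (hT : ∀ k, IsTwistA g (s k) (T k)) :
    ((List.finRange m).map fun k => lam g m K (T k) - 1).prod ≠ 0 := by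
  intro h
  have h1 := lam_list (K := K) hs hT _ (List.nodup_finRange m)
  rw [h, LinearMap.zero_apply] at h1
  let P : (Fin g ⊕ Fin g → K) →ₗ[K] (Fin m → K) :=
    LinearMap.pi fun k => LinearMap.proj (Sum.inl (s k))
  let D : (Fin g ⊕ Fin g → K) [⋀^Fin m]→ₗ[K] K :=
    (Matrix.detRowAlternating : (Fin m → K) [⋀^Fin m]→ₗ[K] K).compLinearMap P
  have h2 := congrArg (exteriorPower.alternatingMapLinearEquiv D) h1
  rw [map_zero, exteriorPower.alternatingMapLinearEquiv_apply_ιMulti] at h2
  have h3 : D (stv g K s (List.finRange m).toFinset) = 1 := by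
    show Matrix.detRowAlternating (fun k => P (stv g K s (List.finRange m).toFinset k)) = 1
    have h4 : (fun k => P (stv g K s (List.finRange m).toFinset k)) =
        (1 : Matrix (Fin m) (Fin m) K) := by
      funext k i
      show stv g K s (List.finRange m).toFinset k (Sum.inl (s i)) = _
      simp only [stv, List.mem_toFinset, List.mem_finRange, if_true, Matrix.one_apply,
        Pi.single_apply, Sum.inl.injEq]
      by_cases hki : k = i
      · subst hki; simp
      · rw [if_neg hki, if_neg (fun e => hki (hs e).symm)]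
    rw [h4]
    exact Matrix.det_one
  rw [h3] at h2
  exact zero_ne_one h2

theorem lam_dim (g m : ℕ) (K : Type*) [Field K] :
    finrank K (⋀[K]^m (Fin g ⊕ Fin g → K)) = (2 * g).choose m := by
  rw [exteriorPower.finrank_eq]
  simp [two_mul]

end

end Pool.Agent.Q290.MG
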