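import Mathlib
import Pool.Agent.Q290.MG.Cls3
import Pool.Agent.Q290.MG.Lam

set_option autoImplicit false

/-! Direct sums of copies of the homology and of the trivial representation. -/

namespace Pool.Agent.Q290.MG

open Pool.Agent.H798R3.MG Pool.Agent.H29R2.MG Pool.Agent.TH35.MG Module

section
variable {K V : Type*} [Field K] [AddCommGroup V] [Module K V] {g : ℕ}

theorem homBlock_iff (ρ : Gam g →* Module.End K V) (v : Fin g ⊕ Fin g → V) :
    HomBlock ρ v ↔ ∀ γ : Gam g, ∀ j, ρ γ (v j) = ∑ i, homMat g γ i j • v i := by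
  constructor
  · intro h γ j
    obtain ⟨τ, hτ⟩ := QuotientGroup.mk_surjective (γ : Mod g)
    rw [h γ τ hτ j, ← hτ]
    rfl
  · intro h γ τ hτ j
    rw [h γ j, ← hτ]
    rfl

theorem stdSum_of [FiniteDimensional K V] (hg : 10 ≤ g) {ρ : Gam g →* Module.End K V}
    (hd : finrank K V < 2 * g * (g - 1)) (h : 2 * (g : K) - 2 ≠ 0 ∨ ComplRed ρ) : StdSum ρ := by
  have hd2 : finrank K V < 2 ^ (g - 2) := lt_of_lt_of_le hd (num hg)
  have key : ∃ (a b : ℕ) (v : Basis ((Fin b × (Fin g ⊕ Fin g)) ⊕ Fin a) K V), ∀ γ : Gam g,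
      (∀ k j, ρ γ (v (Sum.inl (k, j))) = ∑ i, homMat g γ i j • v (Sum.inl (k, i))) ∧
      ∀ k, ρ γ (v (Sum.inr k)) = v (Sum.inr k) := by
    rcases h with h | h
    · exact classify (by omega) hd hd2 h
    · exact classify_ss (by omega) hd hd2 h
  obtain ⟨a, b, v, hv⟩ := key
  exact ⟨a, b, v, fun k => (homBlock_iff _ _).2 fun γ j => (hv γ).1 k j, fun k γ => (hv γ).2 k⟩

/-- a sum of copies of the homology and of the trivial representation is trivial on the Torelli
group -/
theorem std_torelli {ρ : Gam g →* Module.End K V} (h : StdSum ρ) : TorelliTrivial ρ := by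
  classical
  intro γ τ hτ hj
  have hγ : homMat g γ = 1 := by
    ext i j
    rw [← hτ]
    show homologyClass (applyAut g τ (gen j)) i = _
    rw [hj, hc_gen, Matrix.one_apply, Pi.single_apply]
  obtain ⟨a, b, v, hv⟩ := h
  apply v.ext
  rintro (⟨k, j⟩ | k)
  · have e := (homBlock_iff _ _).1 (hv.1 k) γ j
    rw [e, hγ, Module.End.one_apply, Finset.sum_eq_single j]
    · rw [Matrix.one_apply_eq, one_smul]
    · intro i _ hi
      rw [Matrix.one_apply_ne hi, zero_smul]
    · intro hj; exact absurd (Finset.mem_univ _) hj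
  · rw [hv.2 k γ, Module.End.one_apply]

theorem gA_tw (h2 : 2 ≤ g) {i : ℕ} (hi : i < g) : IsTwistA g i (gA g i : Mod g) :=
  (isTwistA_iff h2 hi _).2 (toG_coe (memA h2 hi))

/-- the image of a basis vector under a twist operator -/
theorem std_tw (h2 : 2 ≤ g) {ρ : Gam g →* Module.End K V} {a b : ℕ}
    {v : Basis ((Fin b × (Fin g ⊕ Fin g)) ⊕ Fin a) K V}
    (hv' : (∀ k, HomBlock ρ fun j => v (Sum.inl (k, j))) ∧
      ∀ k γ, ρ γ (v (Sum.inr k)) = v (Sum.inr k)) {i : ℕ} (hi : i < g) :
    (∀ k l, (ρ (gA g i) - 1) (v (Sum.inl (k, Sum.inl l))) = 0) ∧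
    (∀ k l, (ρ (gA g i) - 1) (v (Sum.inl (k, Sum.inr l))) =
      if (l : ℕ) = i then v (Sum.inl (k, Sum.inl l)) else 0) ∧
    ∀ k, (ρ (gA g i) - 1) (v (Sum.inr k)) = 0 := by
  classical
  have hT := gA_tw h2 hi
  have hv : ∀ γ : Gam g,
      (∀ k j, ρ γ (v (Sum.inl (k, j))) = ∑ i, homMat g γ i j • v (Sum.inl (k, i))) ∧
      ∀ k, ρ γ (v (Sum.inr k)) = v (Sum.inr k) :=
    fun γ => ⟨fun k j => (homBlock_iff _ _).1 (hv'.1 k) γ j, fun k => hv'.2 k γ⟩
  refine ⟨fun k l => ?_, fun k l => ?_, fun k => ?_⟩
  · rw [LinearMap.sub_apply, Module.End.one_apply, (hv _).1, sub_eq_zero,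
      Finset.sum_eq_single (Sum.inl l)]
    · rw [homMat_tw hT]; simp
    · intro j _ hj
      rw [homMat_tw hT]; simp [hj]
    · intro h; exact absurd (Finset.mem_univ _) h
  · rw [LinearMap.sub_apply, Module.End.one_apply, (hv _).1]
    have e : ∀ j, homMat g (gA g i : Mod g) j (Sum.inr l) • v (Sum.inl (k, j)) =
        (if j = Sum.inr l then v (Sum.inl (k, j)) else 0) +
          (if j = Sum.inl l then (if (l : ℕ) = i then v (Sum.inl (k, j)) else 0) else 0) := by
      intro j
      rw [homMat_tw hT]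
      simp only [Pi.single_apply, add_smul]
      split_ifs <;> simp
    simp only [e, Finset.sum_add_distrib, Finset.sum_ite_eq', Finset.mem_univ, if_true]
    rw [add_sub_cancel_left]
  · rw [LinearMap.sub_apply, Module.End.one_apply, (hv _).2, sub_self]

theorem std_two (h2 : 2 ≤ g) {ρ : Gam g →* Module.End K V} (h : StdSum ρ) :
    (ρ (gA g 0) - 1) * (ρ (gA g 1) - 1) = 0 := by
  obtain ⟨a, b, v, hv⟩ := h
  have h0 := std_tw h2 hv (i := 0) (by omega)
  have h1 := std_tw h2 hv (i := 1) (by omega)
  apply v.ext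
  rintro (⟨k, l | l⟩ | k)
  · rw [Module.End.mul_apply, h1.1, map_zero, LinearMap.zero_apply]
  · rw [Module.End.mul_apply, h1.2.1, LinearMap.zero_apply]
    split_ifs
    · exact h0.1 _ _
    · exact map_zero _
  · rw [Module.End.mul_apply, h1.2.2, map_zero, LinearMap.zero_apply]

/-- the exterior square of the homology is not a sum of copies of the homology and of the trivial
representation -/
theorem not_std (K : Type*) [Field K] (h2 : 2 ≤ g) :
    ¬ StdSum ((lam g 2 K).comp (Gam g).subtype) := by
  intro h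
  have h1 := std_two h2 h
  have hs : Function.Injective (Fin.castLE h2 : Fin 2 → Fin g) := Fin.castLE_injective h2
  have h3 := lam_ne (K := K) hs (T := fun k => (gA g k : Mod g))
    (fun k => gA_tw h2 (by omega))
  apply h3
  rw [List.finRange_succ, List.finRange_succ, List.finRange_zero]
  simpa using h1

theorem transp {V' : Type*} [AddCommGroup V'] [Module K V'] (F : Module.End K V →+* Module.End K V')
    (hF : Function.Injective F) {x y : Module.End K V} (h : (F x - 1) * (F y - 1) = 0) :
    (x - 1) * (y - 1) = 0 := by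
  apply hF
  rw [map_zero, map_mul, map_sub, map_sub, map_one, h]

/-- transport of a representation -/
theorem exists_nonstd (K : Type*) [Field K] (h2 : 2 ≤ g) :
    ∃ ρ : Gam g →* Module.End K (Fin (g * (2 * g - 1)) → K), ¬ StdSum ρ := by
  have hd : finrank K (⋀[K]^2 (Fin g ⊕ Fin g → K)) = finrank K (Fin (g * (2 * g - 1)) → K) := by
    rw [lam_dim, Nat.choose_two_right, mul_assoc, Nat.mul_div_cancel_left _ (by norm_num),
      finrank_fintype_fun_eq_card, Fintype.card_fin]
  let e := LinearEquiv.ofFinrankEq _ _ hd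
  let F : Module.End K (⋀[K]^2 (Fin g ⊕ Fin g → K)) →+*
      Module.End K (Fin (g * (2 * g - 1)) → K) :=
    { toFun := fun x => e.conj x
      map_one' := by rw [Module.End.one_eq_id, LinearEquiv.conj_id]; rfl
      map_mul' := fun x y => by rw [Module.End.mul_eq_comp, LinearEquiv.conj_comp]; rfl
      map_zero' := map_zero _
      map_add' := fun x y => map_add _ _ _ }
  have hF : Function.Injective F := e.conj.injective
  refine ⟨(F : Module.End K (⋀[K]^2 (Fin g ⊕ Fin g → K)) →* _).comp
    ((lam g 2 K).comp (Gam g).subtype), ?_⟩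
  intro h
  have h1 := std_two h2 h
  have hs : Function.Injective (Fin.castLE h2 : Fin 2 → Fin g) := Fin.castLE_injective h2
  have h3 := lam_ne (K := K) hs (T := fun k => (gA g k : Mod g))
    (fun k => gA_tw h2 (by omega))
  apply h3
  have h4 := transp F hF h1
  rw [List.finRange_succ, List.finRange_succ, List.finRange_zero]
  simpa using h4

theorem Irred.compl {G : Type*} [Group G] {σ : G →* Module.End K V} (h : Irred σ) :
    ComplRed σ := by
  intro W hW
  rcases h.2 W hW with rfl | rfl
  · exact ⟨⊤, fun _ _ _ => trivial, bot_sup_eq _, bot_inf_eq _⟩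
  · exact ⟨⊥, fun γ x hx => by
      rw [Submodule.mem_bot] at hx ⊢
      rw [hx, map_zero], top_sup_eq _, top_inf_eq _⟩

/-- an irreducible sum of copies of the homology and of the trivial representation -/
theorem std_irr {ρ : Gam g →* Module.End K V} (h : StdSum ρ) (hI : Irred ρ) :
    TrivRep ρ ∨ HomRep ρ := by
  obtain ⟨a, b, v, hv'⟩ := h
  have hv : ∀ γ : Gam g,
      (∀ k j, ρ γ (v (Sum.inl (k, j))) = ∑ i, homMat g γ i j • v (Sum.inl (k, i))) ∧
      ∀ k, ρ γ (v (Sum.inr k)) = v (Sum.inr k) :=
    fun γ => ⟨fun k j => (homBlock_iff _ _).1 (hv'.1 k) γ j, fun k => hv'.2 k γ⟩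
  obtain ⟨x, hx⟩ := hI.1
  rcases Nat.eq_zero_or_pos a with ha | ha
  · subst ha
    rcases Nat.eq_zero_or_pos b with hb | hb
    · subst hb
      exfalso
      apply hx
      have : IsEmpty ((Fin 0 × (Fin g ⊕ Fin g)) ⊕ Fin 0) := inferInstance
      have h1 := v.sum_repr x
      rw [Finset.univ_eq_empty, Finset.sum_empty] at h1
      exact h1.symm
    · -- the first copy
      let z : Fin b := ⟨0, hb⟩
      let W : Submodule K V := Submodule.span K (Set.range fun j => v (Sum.inl (z, j)))
      have hW : ∀ γ, ∀ y ∈ W, ρ γ y ∈ W := by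
        intro γ y hy
        have h2 : W ≤ W.comap (ρ γ) := by
          rw [Submodule.span_le]
          rintro _ ⟨j, rfl⟩
          show ρ γ (v (Sum.inl (z, j))) ∈ W
          rw [(hv γ).1]
          refine Submodule.sum_mem _ fun i _ => ?_
          exact Submodule.smul_of_tower_mem _ _ (Submodule.subset_span ⟨i, rfl⟩)
        exact h2 hy
      have hli : LinearIndependent K (fun j => v (Sum.inl (z, j))) :=
        v.linearIndependent.comp (fun j => (Sum.inl (z, j) : (Fin b × (Fin g ⊕ Fin g)) ⊕ Fin 0))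
          (fun i j hij => by simpa using hij)
      rcases hI.2 W hW with h3 | h3
      · -- `g = 0`
        have h4 : IsEmpty (Fin g ⊕ Fin g) := by
          by_contra hne
          rw [not_isEmpty_iff] at hne
          obtain ⟨j⟩ := hne
          have h5 : v (Sum.inl (z, j)) ∈ W := Submodule.subset_span ⟨j, rfl⟩
          rw [h3, Submodule.mem_bot] at h5
          exact v.ne_zero _ h5
        exfalso
        apply hx
        have : IsEmpty ((Fin b × (Fin g ⊕ Fin g)) ⊕ Fin 0) := inferInstance
        have h1 := v.sum_repr x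
        rw [Finset.univ_eq_empty, Finset.sum_empty] at h1
        exact h1.symm
      · right
        refine ⟨Basis.mk hli (by rw [← h3]), ?_⟩
        rw [homBlock_iff]
        intro γ j
        simp only [Basis.mk_apply]
        exact (hv γ).1 z j
  · left
    let z : Fin a := ⟨0, ha⟩
    let W : Submodule K V := Submodule.span K {v (Sum.inr z)}
    have hW' : ∀ γ, ∀ y ∈ W, ρ γ y = y := by
      intro γ y hy
      obtain ⟨c, rfl⟩ := Submodule.mem_span_singleton.1 hy
      rw [map_smul, (hv γ).2]
    rcases hI.2 W (fun γ y hy => by rw [hW' γ y hy]; exact hy) with h3 | h3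
    · exfalso
      have h5 : v (Sum.inr z) ∈ W := Submodule.subset_span rfl
      rw [h3, Submodule.mem_bot] at h5
      exact v.ne_zero _ h5
    · constructor
      · rw [← finrank_top K V, ← h3]
        exact finrank_span_singleton (v.ne_zero _)
      · intro γ
        ext1 y
        rw [hW' γ y (by rw [h3]; trivial), Module.End.one_apply]

theorem lam2_dim (g : ℕ) (K : Type*) [Field K] :
    finrank K (⋀[K]^2 (Fin g ⊕ Fin g → K)) = g * (2 * g - 1) := by
  rw [lam_dim, Nat.choose_two_right, mul_assoc, Nat.mul_div_cancel_left _ (by norm_num)]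

end

end Pool.Agent.Q290.MG
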