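import Mathlib
import Pool.Agent.Q290.MG.Std
import Pool.Agent.Q290.MG.CgDef

set_option autoImplicit false

/-! The kernels of the small representations are congruence subgroups. -/

namespace Pool.Agent.Q290.MG

open Pool.Agent.H798R3.MG Pool.Agent.H29R2.MG Pool.Agent.TH35.MG Module

section
variable {g : ℕ}

/-- the action on homology of an endomorphism of the surface group -/
theorem hc_end (φ : SurfaceGroup g →* SurfaceGroup g) (x : SurfaceGroup g)
    (i : Fin g ⊕ Fin g) : homologyClass (φ x) i =
      ∑ j, homologyClass (φ (gen j)) i * homologyClass x j := by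
  classical
  obtain ⟨z, rfl⟩ := mk_surjective g x
  induction z using FreeGroup.induction_on with
  | C1 => rw [map_one, map_one, hc_one]; simp
  | of j =>
    show homologyClass (φ (gen j)) i = ∑ k, homologyClass (φ (gen k)) i * homologyClass (gen j) k
    rw [hc_gen, Finset.sum_eq_single j]
    · simp
    · intro k _ hk; rw [Pi.single_eq_of_ne hk, mul_zero]
    · intro h; exact absurd (Finset.mem_univ _) h
  | inv_of j h =>
    rw [map_inv, map_inv, hc_inv, hc_inv]
    simp only [Pi.neg_apply, mul_neg, Finset.sum_neg_distrib]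
    rw [h]
  | mul x y hx hy =>
    rw [map_mul, map_mul, hc_mul, hc_mul, Pi.add_apply, hx, hy, ← Finset.sum_add_distrib]
    apply Finset.sum_congr rfl
    intro j _
    rw [Pi.add_apply, mul_add]

/-- the elements of the surface group whose homology class is divisible by `p` -/
def levP (g p : ℕ) : Subgroup (SurfaceGroup g) where
  carrier := {x | ∀ i, (p : ℤ) ∣ homologyClass x i}
  one_mem' := fun i => by rw [hc_one]; exact dvd_zero _
  mul_mem' := fun {a b} ha hb i => by
    rw [hc_mul, Pi.add_apply]; exact dvd_add (ha i) (hb i)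
  inv_mem' := fun {a} ha i => by
    rw [hc_inv, Pi.neg_apply]; exact (dvd_neg).2 (ha i)

theorem levP_char (p : ℕ) : (levP g p).Characteristic := by
  rw [Subgroup.characteristic_iff_le_comap]
  intro φ x hx i
  show (p : ℤ) ∣ homologyClass ((φ : SurfaceGroup g →* SurfaceGroup g) x) i
  rw [hc_end]
  exact Finset.dvd_sum fun j _ => Dvd.dvd.mul_left (hx j) _

theorem levP_fi (p : ℕ) (hp : p ≠ 0) : (levP g p).FiniteIndex := by
  have : NeZero p := ⟨hp⟩
  let F : SurfaceGroup g →* Multiplicative (Fin g ⊕ Fin g → ZMod p) :=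
    (AddMonoidHom.toMultiplicative (((Int.castAddHom (ZMod p)).compLeft (Fin g ⊕ Fin g)))).comp
      (homologyHom g)
  have hF : F.ker = levP g p := by
    ext x
    rw [MonoidHom.mem_ker]
    have e : F x = 1 ↔ ∀ i, ((homologyClass x i : ℤ) : ZMod p) = 0 := by
      constructor
      · intro h i
        exact congrFun (show Multiplicative.toAdd (F x) = 0 from h) i
      · intro h
        apply Multiplicative.toAdd.injective
        funext i
        exact h i
    rw [e]
    exact forall_congr' fun i => ZMod.intCast_zmod_eq_zero_iff_dvd _ _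
  rw [← hF]
  exact Subgroup.finiteIndex_ker F

/-- an element of the mapping class group which is inner modulo `levP g p` acts trivially on the
homology modulo `p` -/
theorem triv_of_inner {p : ℕ} {T : Mod g} (h : InnerMod (levP g p) T) : ActsTrivMod g p T := by
  obtain ⟨τ, hτ, u, hu⟩ := h
  refine ⟨τ, hτ, fun x i => ?_⟩
  have h1 := hu x i
  rw [hc_mul, hc_inv, hc_mul, hc_mul, hc_inv] at h1
  simp only [Pi.add_apply, Pi.neg_apply] at h1
  have e : homologyClass (applyAut g τ x) i +
      -(homologyClass u i + homologyClass x i + -homologyClass u i) =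
      homologyClass (applyAut g τ x) i - homologyClass x i := by ring
  rwa [e] at h1

theorem triv_iff (p : ℕ) (T : Mod g) : ActsTrivMod g p T ↔
    ∀ i j, (p : ℤ) ∣ homMat g T i j - (1 : Matrix (Fin g ⊕ Fin g) (Fin g ⊕ Fin g) ℤ) i j := by
  classical
  constructor
  · rintro ⟨τ, rfl, h⟩ i j
    have h1 := h (gen j) i
    rw [hc_gen] at h1
    rw [Matrix.one_apply]
    rw [Pi.single_apply] at h1
    exact h1
  · intro h
    obtain ⟨τ, hτ⟩ := QuotientGroup.mk_surjective T
    refine ⟨τ, hτ, fun x i => ?_⟩
    have e1 : homologyClass (applyAut g τ x) i =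
        ∑ j, homMat g T i j * homologyClass x j := by
      rw [← hτ]
      exact hc_end ((τ : MulAut (SurfaceGroup g)) : SurfaceGroup g →* SurfaceGroup g) x i
    have e2 : homologyClass x i =
        ∑ j, (1 : Matrix (Fin g ⊕ Fin g) (Fin g ⊕ Fin g) ℤ) i j * homologyClass x j := by
      have := congrFun (Matrix.one_mulVec (homologyClass x)) i
      exact this.symm
    have e3 : homologyClass (applyAut g τ x) i - homologyClass x i =
        ∑ j, (homMat g T i j - (1 : Matrix (Fin g ⊕ Fin g) (Fin g ⊕ Fin g) ℤ) i j) *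
          homologyClass x j := by
      simp only [sub_mul]
      rw [Finset.sum_sub_distrib, ← e1, ← e2]
    rw [e3]
    exact Finset.dvd_sum fun j _ => Dvd.dvd.mul_right (h i j) _

end

section
variable {K V : Type*} [Field K] [AddCommGroup V] [Module K V] {g : ℕ}

/-- the kernel of a sum of copies of the homology and of the trivial representation -/
theorem std_ker {ρ : Gam g →* Module.End K V} (h : StdSum ρ) :
    (∀ γ, ρ γ = 1) ∨ ∀ γ : Gam g, ρ γ = 1 ↔ ActsTrivMod g (ringChar K) γ := by
  classical
  obtain ⟨a, b, v, hv⟩ := h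
  rcases Nat.eq_zero_or_pos b with hb | hb
  · subst hb
    left
    intro γ
    apply v.ext
    rintro (⟨k, j⟩ | k)
    · exact Fin.elim0 k
    · rw [hv.2 k γ, Module.End.one_apply]
  · right
    intro γ
    rw [triv_iff]
    have key : (∀ i j, ((ringChar K : ℕ) : ℤ) ∣ homMat g (γ : Mod g) i j -
        (1 : Matrix (Fin g ⊕ Fin g) (Fin g ⊕ Fin g) ℤ) i j) ↔
        ∀ i j, ((homMat g (γ : Mod g) i j : ℤ) : K) =
          (1 : Matrix (Fin g ⊕ Fin g) (Fin g ⊕ Fin g) K) i j := by
      refine forall_congr' fun i => forall_congr' fun j => ?_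
      rw [← CharP.intCast_eq_zero_iff K (ringChar K), Int.cast_sub, sub_eq_zero,
        Matrix.one_apply, Matrix.one_apply]
      split_ifs <;> simp
    rw [key]
    have hz : ∀ (k : Fin b) j, ρ γ (v (Sum.inl (k, j))) =
        ∑ i, ((homMat g (γ : Mod g) i j : ℤ) : K) • v (Sum.inl (k, i)) := by
      intro k j
      rw [(homBlock_iff _ _).1 (hv.1 k) γ j]
      apply Finset.sum_congr rfl
      intro i _
      rw [Int.cast_smul_eq_zsmul]
    constructor
    · intro h1 i j
      have h2 := hz ⟨0, hb⟩ j
      rw [h1, Module.End.one_apply] at h2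
      have h3 := congrArg (fun y => v.repr y (Sum.inl (⟨0, hb⟩, i))) h2
      simp only [map_sum, map_smul, Basis.repr_self, Finsupp.coe_finsetSum, Finset.sum_apply,
        Finsupp.smul_apply, Finsupp.single_apply, smul_eq_mul] at h3
      rw [Finset.sum_eq_single i] at h3
      · rw [Matrix.one_apply]
        by_cases hij : i = j
        · subst hij; simpa using h3.symm
        · rw [if_neg hij]
          rw [if_neg (by simpa using fun e => hij e.symm)] at h3
          simpa using h3.symm
      · intro k _ hk
        rw [if_neg (by simpa using hk), mul_zero]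
      · intro hi; exact absurd (Finset.mem_univ _) hi
    · intro h1
      apply v.ext
      rintro (⟨k, j⟩ | k)
      · rw [hz, Module.End.one_apply, Finset.sum_eq_single j]
        · rw [h1, Matrix.one_apply_eq, one_smul]
        · intro i _ hi
          rw [h1, Matrix.one_apply_ne hi, zero_smul]
        · intro hj; exact absurd (Finset.mem_univ _) hj
      · rw [hv.2 k γ, Module.End.one_apply]

/-- the powers of the twist about `a_0` -/
theorem homMat_pow (h2 : 2 ≤ g) (n : ℕ) : homMat g ((gA g 0 : Mod g) ^ n)
    (Sum.inl ⟨0, by omega⟩) (Sum.inr ⟨0, by omega⟩) = n := by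
  classical
  have hT := gA_tw (g := g) h2 (i := 0) (by omega)
  obtain ⟨N, hN⟩ : ∃ N, N = homMat g (gA g 0 : Mod g) - 1 := ⟨_, rfl⟩
  have e : ∀ i j, N i j = (match j with
      | Sum.inl _ => 0
      | Sum.inr l => if (l : ℕ) = 0 then (Pi.single (Sum.inl l) 1 : Fin g ⊕ Fin g → ℤ) i
          else 0) := by
    intro i j
    rw [hN, Matrix.sub_apply, homMat_tw hT, Matrix.one_apply, Pi.single_apply, add_sub_cancel_left]
    rcases j with j | j <;> rfl
  have hNN : N * N = 0 := by
    ext i k
    rw [Matrix.mul_apply, Matrix.zero_apply]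
    apply Finset.sum_eq_zero
    rintro (j | j) _
    · rw [e i (Sum.inl j), zero_mul]
    · have h0 : N (Sum.inr j) k = 0 := by
        rw [e]
        rcases k with k | k
        · rfl
        · simp
      rw [h0, mul_zero]
  have hpow : ∀ n : ℕ, homMat g ((gA g 0 : Mod g) ^ n) = 1 + n • N := by
    intro n
    induction n with
    | zero => rw [pow_zero, map_one, zero_smul, add_zero]
    | succ n ih =>
      have hM : homMat g (gA g 0 : Mod g) = 1 + N := by rw [hN]; abel
      have h5 : (1 + N) * (1 + n • N) = 1 + (n + 1) • N + n • (N * N) := by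
        rw [add_mul, one_mul, mul_add, mul_one, mul_smul_comm, succ_nsmul]
        abel
      rw [pow_succ', map_mul, ih, hM, h5, hNN, smul_zero, add_zero]
  rw [hpow, Matrix.add_apply, Matrix.one_apply_ne (by simp), zero_add, Matrix.smul_apply, e]
  simp

/-- a small representation with kernel of finite index -/
theorem std_fin (h2 : 2 ≤ g) {ρ : Gam g →* Module.End K V} (h : StdSum ρ)
    (hf : ρ.ker.FiniteIndex) : (∀ γ, ρ γ = 1) ∨ (ringChar K).Prime := by
  rcases std_ker h with h1 | h1
  · exact Or.inl h1
  · right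
    rcases CharP.char_is_prime_or_zero K (ringChar K) with hp | hp
    · exact hp
    · exfalso
      obtain ⟨n, hn0, -, hn⟩ := Subgroup.exists_pow_mem_of_index_ne_zero hf.index_ne_zero (gA g 0)
      have h3 : ρ (gA g 0 ^ n) = 1 := hn
      rw [h1, triv_iff, hp] at h3
      have h4 := h3 (Sum.inl ⟨0, by omega⟩) (Sum.inr ⟨0, by omega⟩)
      rw [Subgroup.coe_pow, homMat_pow h2, Matrix.one_apply_ne (by simp)] at h4
      simp at h4
      omega

theorem cong_of {ρ : Gam g →* Module.End K V} {p : ℕ} (hp : p ≠ 0)
    (h : ∀ γ : Gam g, ρ γ = 1 ↔ ActsTrivMod g p γ) : IsCongruence ρ.ker := by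
  refine ⟨levP g p, levP_char p, levP_fi p hp, ?_⟩
  intro γ hγ
  exact (h γ).2 (triv_of_inner hγ)

theorem std_cong (h2 : 2 ≤ g) {ρ : Gam g →* Module.End K V} (h : StdSum ρ)
    (hf : ρ.ker.FiniteIndex) : IsCongruence ρ.ker := by
  rcases std_fin h2 h hf with h1 | h1
  · refine ⟨⊤, inferInstance, inferInstance, ?_⟩
    intro γ _
    exact h1 γ
  · rcases std_ker h with h3 | h3
    · refine ⟨⊤, inferInstance, inferInstance, ?_⟩
      intro γ _
      exact h3 γ
    · exact cong_of h1.ne_zero h3

end

end Pool.Agent.Q290.MG
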