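import Mathlib
import Pool.Agent.Q290.MG.Lam

set_option autoImplicit false

/-! The action of the mapping class group on the symmetric powers of the homology. -/

namespace Pool.Agent.Q290.MG

open Pool.Agent.H798R3.MG Pool.Agent.H29R2.MG Pool.Agent.TH35.MG Module MvPolynomial

section
variable {R : Type*} [CommRing R]

/-- the difference operator of an endomorphism `x ↦ x + y`, `y ↦ y` -/
theorem diff_pow (D : AddMonoid.End R) (Φ : R →+* R) {x y : R} (hx : Φ x = x + y) (hy : Φ y = y)
    (hD : ∀ z, D z = Φ z - z) (n : ℕ) : ∀ r : ℕ,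
    (D ^ n) (x ^ n * y ^ r) = (n.factorial : R) * y ^ (n + r) ∧
      ∀ k, n < k → (D ^ k) (x ^ n * y ^ r) = 0 := by
  induction n using Nat.strong_induction_on with
  | _ n ih =>
  intro r
  have key : D (x ^ n * y ^ r) = ∑ j ∈ Finset.range n,
      (n.choose j) • (x ^ j * y ^ (n - j + r)) := by
    rw [hD, map_mul, map_pow, map_pow, hx, hy, add_pow, Finset.sum_range_succ]
    simp only [Nat.sub_self, pow_zero, mul_one, Nat.choose_self, Nat.cast_one]
    rw [add_mul, add_sub_cancel_right, Finset.sum_mul]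
    apply Finset.sum_congr rfl
    intro j _
    rw [nsmul_eq_mul, pow_add]
    ring
  have step : ∀ k, (D ^ (k + 1)) (x ^ n * y ^ r) = ∑ j ∈ Finset.range n,
      (n.choose j) • (D ^ k) (x ^ j * y ^ (n - j + r)) := by
    intro k
    rw [pow_succ]
    show (D ^ k) (D (x ^ n * y ^ r)) = _
    rw [key, map_sum]
    apply Finset.sum_congr rfl
    intro j _
    rw [map_nsmul]
  constructor
  · rcases Nat.eq_zero_or_pos n with rfl | hn
    · simp
    · obtain ⟨k, rfl⟩ : ∃ k, n = k + 1 := ⟨n - 1, by omega⟩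
      rw [step k, Finset.sum_range_succ, Finset.sum_eq_zero]
      · rw [zero_add, (ih k (by omega) _).1, nsmul_eq_mul, Nat.choose_succ_self_right,
          Nat.factorial_succ]
        have e : k + (k + 1 - k + r) = k + 1 + r := by omega
        rw [e]
        push_cast
        ring
      · intro j hj
        rw [(ih j (by have := Finset.mem_range.1 hj; omega) _).2 k (Finset.mem_range.1 hj),
          smul_zero]
  · intro k hk
    obtain ⟨l, rfl⟩ : ∃ l, k = l + 1 := ⟨k - 1, by omega⟩
    rw [step l]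
    apply Finset.sum_eq_zero
    intro j hj
    rw [(ih j (Finset.mem_range.1 hj) _).2 l (by have := Finset.mem_range.1 hj; omega), smul_zero]

end

section
variable {g : ℕ} {K : Type*} [Field K]

/-- the linear form which is the image of the variable `j` -/
noncomputable def lf (g : ℕ) (K : Type*) [Field K] (M : Matrix (Fin g ⊕ Fin g) (Fin g ⊕ Fin g) ℤ)
    (j : Fin g ⊕ Fin g) : MvPolynomial (Fin g ⊕ Fin g) K :=
  ∑ i, C ((M i j : ℤ) : K) * X i

/-- the action on the polynomials in the homology classes -/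
noncomputable def sAct (g : ℕ) (K : Type*) [Field K]
    (M : Matrix (Fin g ⊕ Fin g) (Fin g ⊕ Fin g) ℤ) :
    MvPolynomial (Fin g ⊕ Fin g) K →ₐ[K] MvPolynomial (Fin g ⊕ Fin g) K :=
  aeval (lf g K M)

theorem sAct_one : sAct g K 1 = AlgHom.id K _ := by
  apply MvPolynomial.algHom_ext
  intro j
  rw [sAct, aeval_X, lf, Finset.sum_eq_single j]
  · rw [Matrix.one_apply_eq]; simp
  · intro i _ hi
    rw [Matrix.one_apply_ne hi]; simp
  · intro h; exact absurd (Finset.mem_univ _) h

theorem sAct_mul (M N : Matrix (Fin g ⊕ Fin g) (Fin g ⊕ Fin g) ℤ) :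
    sAct g K (M * N) = (sAct g K M).comp (sAct g K N) := by
  apply MvPolynomial.algHom_ext
  intro j
  rw [AlgHom.comp_apply, sAct, aeval_X, sAct, sAct, aeval_X, lf, lf, map_sum]
  simp only [map_mul, aeval_X, lf, Matrix.mul_apply, Int.cast_sum, Int.cast_mul, map_sum,
    Finset.sum_mul, Finset.mul_sum, ← algebraMap_eq, AlgHom.commutes]
  rw [Finset.sum_comm]
  apply Finset.sum_congr rfl
  intro k _
  apply Finset.sum_congr rfl
  intro i _
  ring

theorem sAct_hom (M : Matrix (Fin g ⊕ Fin g) (Fin g ⊕ Fin g) ℤ) {m : ℕ}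
    {p : MvPolynomial (Fin g ⊕ Fin g) K} (hp : p ∈ homogeneousSubmodule (Fin g ⊕ Fin g) K m) :
    sAct g K M p ∈ homogeneousSubmodule (Fin g ⊕ Fin g) K m := by
  rw [mem_homogeneousSubmodule] at hp ⊢
  have h1 : ∀ j, (lf g K M j).IsHomogeneous 1 := by
    intro j
    apply IsHomogeneous.sum
    intro i _
    exact (isHomogeneous_C_mul_X _ _)
  have h2 := hp.aeval (lf g K M) h1
  rwa [one_mul] at h2

/-- the action on the homogeneous polynomials of degree `m`, that is on `Sym^m H_1(Σ_g; K)` -/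
noncomputable def sym (g m : ℕ) (K : Type*) [Field K] :
    Mod g →* Module.End K (homogeneousSubmodule (Fin g ⊕ Fin g) K m) where
  toFun γ := (sAct g K (homMat g γ)).toLinearMap.restrict (fun _ hp => sAct_hom _ hp)
  map_one' := by
    ext1 p
    apply Subtype.ext
    show sAct g K (homMat g 1) p = p
    rw [map_one, sAct_one]
    rfl
  map_mul' x y := by
    ext1 p
    apply Subtype.ext
    show sAct g K (homMat g (x * y)) p = sAct g K (homMat g x) (sAct g K (homMat g y) p)
    rw [map_mul, sAct_mul]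
    rfl

theorem sAct_inl {k : ℕ} {T : Mod g} (hT : IsTwistA g k T) (l : Fin g) :
    sAct g K (homMat g T) (X (Sum.inl l)) = X (Sum.inl l) := by
  rw [sAct, aeval_X, lf, Finset.sum_eq_single (Sum.inl l)]
  · rw [homMat_tw hT]; simp
  · intro i _ hi
    rw [homMat_tw hT]; simp [hi]
  · intro h; exact absurd (Finset.mem_univ _) h

theorem sAct_inr {l : Fin g} {T : Mod g} (hT : IsTwistA g l T) :
    sAct g K (homMat g T) (X (Sum.inr l)) = X (Sum.inr l) + X (Sum.inl l) := by
  rw [sAct, aeval_X, lf]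
  have e : ∀ i, C ((homMat g T i (Sum.inr l) : ℤ) : K) * X i =
      (if i = Sum.inr l then (X i : MvPolynomial (Fin g ⊕ Fin g) K) else 0) +
        (if i = Sum.inl l then X i else 0) := by
    intro i
    rw [homMat_tw hT]
    simp only [if_true, Pi.single_apply, Int.cast_add, map_add, add_mul]
    split_ifs <;> simp
  simp only [e, Finset.sum_add_distrib, Finset.sum_ite_eq', Finset.mem_univ, if_true]

/-- the twist has a Jordan block of size `m + 1` on `Sym^m H_1` -/
theorem sym_ne {m : ℕ} (hm : (m.factorial : K) ≠ 0) {l : Fin g} {T : Mod g}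
    (hT : IsTwistA g l T) : (sym g m K T - 1) ^ m ≠ 0 := by
  intro h
  let D : AddMonoid.End (MvPolynomial (Fin g ⊕ Fin g) K) :=
    (show AddMonoid.End (MvPolynomial (Fin g ⊕ Fin g) K) from
      (sAct g K (homMat g T)).toLinearMap.toAddMonoidHom) - 1
  have hD : ∀ z, D z = (sAct g K (homMat g T) : MvPolynomial (Fin g ⊕ Fin g) K →+* _) z - z :=
    fun z => rfl
  have h1 := (diff_pow D (sAct g K (homMat g T) : MvPolynomial (Fin g ⊕ Fin g) K →+* _)
    (x := X (Sum.inr l)) (y := X (Sum.inl l)) (sAct_inr hT) (sAct_inl hT l) hD m 0).1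
  have hx : (X (Sum.inr l) : MvPolynomial (Fin g ⊕ Fin g) K) ^ m ∈
      homogeneousSubmodule (Fin g ⊕ Fin g) K m := by
    rw [mem_homogeneousSubmodule]
    have := (isHomogeneous_X K (Sum.inr l : Fin g ⊕ Fin g)).pow m
    rwa [one_mul] at this
  have h2 : ∀ k, ∀ p : homogeneousSubmodule (Fin g ⊕ Fin g) K m,
      ((((sym g m K T - 1) ^ k) p : homogeneousSubmodule (Fin g ⊕ Fin g) K m) :
        MvPolynomial (Fin g ⊕ Fin g) K) = (D ^ k) (p : MvPolynomial (Fin g ⊕ Fin g) K) := by
    intro k
    induction k with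
    | zero => intro p; rfl
    | succ k ih =>
      intro p
      rw [pow_succ, pow_succ, Module.End.mul_apply, ih]
      rfl
  have h3 := h2 m ⟨_, hx⟩
  rw [h] at h3
  simp only [pow_zero, mul_one, add_zero] at h1
  rw [h1] at h3
  have h4 : ((m.factorial : ℕ) : MvPolynomial (Fin g ⊕ Fin g) K) = C ((m.factorial : ℕ) : K) := by
    rw [map_natCast]
  rw [LinearMap.zero_apply, Submodule.coe_zero, h4] at h3
  have h5 := congrArg (eval (fun _ : Fin g ⊕ Fin g => (1 : K))) h3
  simp only [map_zero, map_mul, eval_C, map_pow, eval_X, one_pow, mul_one] at h5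
  exact hm h5.symm

theorem sym_dim (g m : ℕ) (K : Type*) [Field K] :
    finrank K (homogeneousSubmodule (Fin g ⊕ Fin g) K m) = (2 * g + m - 1).choose m := by
  classical
  rw [homogeneousSubmodule_eq_finsupp_supported]
  let e1 : Sym (Fin g ⊕ Fin g) m ≃ {d : (Fin g ⊕ Fin g) →₀ ℕ | d.degree = m} :=
    (Sym.equivNatSum (Fin g ⊕ Fin g) m).trans (Equiv.subtypeEquivRight fun P => by
      rw [Set.mem_ofPred_eq, Finsupp.degree_apply, Finsupp.sum]
      rfl)
  have : Fintype {d : (Fin g ⊕ Fin g) →₀ ℕ | d.degree = m} := Fintype.ofEquiv _ e1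
  rw [(AddMonoidAlgebra.supportedEquivFinsupp (R := K) (S := K)
    {d : (Fin g ⊕ Fin g) →₀ ℕ | d.degree = m}).finrank_eq, finrank_finsupp_self,
    ← Fintype.card_congr e1, Sym.card_sym_eq_choose]
  simp [two_mul]

end

end Pool.Agent.Q290.MG
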