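import Mathlib
import Pool.Agent.Q290.MG.Sy

set_option autoImplicit false

/-! The least dimension of a representation of a given level. -/

namespace Pool.Agent.Q290.MG

open Pool.Agent.H798R3.MG Pool.Agent.H29R2.MG Pool.Agent.TH35.MG Module Filter Topology

section
variable {K V G : Type*} [Field K] [AddCommGroup V] [Module K V] [Group G]

/-- the bound on the Jordan blocks over an arbitrary field -/
theorem unip_m' [FiniteDimensional K V] {ρ : G →* Module.End K V} {A B T : ℕ → G} {N : ℕ}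
    (r : HR N A B T) {m : ℕ} (hm : 1 ≤ m) (hm2 : m + 2 ≤ N)
    (hd : finrank K V < 2 ^ m * N.choose m) (hd2 : finrank K V < 2 ^ (N - 2)) :
    (ρ (A 0) - 1) ^ m = 0 := by
  have e : finrank (AlgebraicClosure K) (TensorProduct K (AlgebraicClosure K) V) = finrank K V :=
    Module.finrank_baseChange
  have h := unip_m (K := AlgebraicClosure K)
    (ρ := ((bc K (AlgebraicClosure K) V : Module.End K V →+* _) :
      Module.End K V →* Module.End (AlgebraicClosure K) (TensorProduct K (AlgebraicClosure K) V)).comp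
      ρ) r hm hm2 (by rw [e]; exact hd) (by rw [e]; exact hd2)
  apply bc_inj (L := AlgebraicClosure K)
  rw [map_zero, map_pow, map_sub, map_one]
  exact h

end

section
variable {K V : Type*} [Field K] [AddCommGroup V] [Module K V] [FiniteDimensional K V] {g : ℕ}

theorem pow_zero_of (ρ : Mod g →* Module.End K V) {m : ℕ} (hm : 1 ≤ m) (hm2 : m + 2 ≤ g)
    (hd : finrank K V < 2 ^ m * g.choose m) (hd2 : finrank K V < 2 ^ (g - 2)) {T : Mod g}
    (hT : IsTwistA g 0 T) : (ρ T - 1) ^ m = 0 := by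
  rw [(isTwistA_iff (by omega) (by omega) T).1 hT]
  exact unip_m' (ρ := ρ.comp (modF g)) (hr_full (by omega)) hm hm2 hd hd2

theorem prod_zero_of (ρ : Mod g →* Module.End K V) {m : ℕ} (hm : 1 ≤ m) (hm2 : m + 2 ≤ g)
    (hd : finrank K V < 2 ^ m * g.choose m) (hd2 : finrank K V < 2 ^ (g - 2))
    {s : Fin m → Fin g} (hs : Function.Injective s) {T : Fin m → Mod g}
    (hT : ∀ k, IsTwistA g (s k) (T k)) :
    ((List.finRange m).map fun k => ρ (T k) - 1).prod = 0 := by
  have hv := van' (ρ := ρ.comp (modF g)) (hr_full (g := g) (by omega)) hm hm2 hd hd2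
  have e1 : ((List.finRange m).map fun k => ρ (T k) - 1) =
      ((List.finRange m).map fun k => ((s k : Fin g) : ℕ)).map
        (fun i => ev (ρ.comp (modF g)) (sA g) (sB g) i [true]) := by
    rw [List.map_map]
    apply List.map_congr_left
    intro k _
    rw [Function.comp_apply, ev_one, (isTwistA_iff (by omega) (s k).2 (T k)).1 (hT k)]
    rfl
  rw [e1, list_E (hr_full (g := g) (by omega)) (fun _ => [true])]
  · apply hv
    have h2 : (Finset.univ.image s) ⊆ sp (fun i : Fin g =>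
        if (i : ℕ) ∈ ((List.finRange m).map fun k => ((s k : Fin g) : ℕ)) then [true] else []) := by
      intro i hi
      obtain ⟨k, _, rfl⟩ := Finset.mem_image.1 hi
      rw [mem_sp, if_pos]
      · simp
      · exact List.mem_map.2 ⟨k, List.mem_finRange k, rfl⟩
    have h3 := Finset.card_le_card h2
    rwa [Finset.card_image_of_injective _ hs, Finset.card_univ, Fintype.card_fin] at h3
  · rw [List.nodup_map_iff]
    · exact List.nodup_finRange m
    · intro a b hab
      exact hs (Fin.ext hab)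
  · intro i hi
    obtain ⟨k, _, rfl⟩ := List.mem_map.1 hi
    exact (s k).2

end

/-! ### matrices -/

section
variable {g d : ℕ} {K : Type*} [Field K]

/-- a matrix representation as a representation by endomorphisms -/
noncomputable def mrep (f : Mod g →* Matrix.GeneralLinearGroup (Fin d) K) :
    Mod g →* Module.End K (Fin d → K) :=
  (((Matrix.toLinAlgEquiv' : Matrix (Fin d) (Fin d) K ≃ₐ[K] _) : Matrix (Fin d) (Fin d) K →* _).comp
    (Units.coeHom (Matrix (Fin d) (Fin d) K))).comp f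

theorem mrep_apply (f : Mod g →* Matrix.GeneralLinearGroup (Fin d) K) (γ : Mod g) :
    mrep f γ = (Matrix.toLinAlgEquiv' : Matrix (Fin d) (Fin d) K ≃ₐ[K] _)
      (f γ : Matrix (Fin d) (Fin d) K) := rfl

/-- the product of the operators `f(T_k) - 1` -/
def twistProd {m : ℕ} (f : Mod g →* Matrix.GeneralLinearGroup (Fin d) K) (T : Fin m → Mod g) :
    Matrix (Fin d) (Fin d) K :=
  ((List.finRange m).map fun k => (f (T k) : Matrix (Fin d) (Fin d) K) - 1).prod

/-- `T_1, ..., T_m` are the twists about `m` different curves among `a_0, ..., a_{g-1}` -/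
def DisjTwists (g m : ℕ) (T : Fin m → Mod g) : Prop :=
  ∃ s : Fin m → Fin g, Function.Injective s ∧ ∀ k, IsTwistA g (s k) (T k)

theorem twistProd_map {m : ℕ} (f : Mod g →* Matrix.GeneralLinearGroup (Fin d) K)
    (T : Fin m → Mod g) : (Matrix.toLinAlgEquiv' : Matrix (Fin d) (Fin d) K ≃ₐ[K] _)
      (twistProd f T) = ((List.finRange m).map fun k => mrep f (T k) - 1).prod := by
  rw [twistProd, map_list_prod, List.map_map]
  congr 1
  apply List.map_congr_left
  intro k _
  rw [Function.comp_apply, map_sub, map_one]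
  rfl

/-- a matrix representation from a representation by endomorphisms -/
theorem exists_mat {V : Type*} [AddCommGroup V] [Module K V] [FiniteDimensional K V]
    (ρ : Mod g →* Module.End K V) (hd : finrank K V = d) :
    ∃ f : Mod g →* Matrix.GeneralLinearGroup (Fin d) K,
      (∀ (m : ℕ) (T : Fin m → Mod g), twistProd f T = 0 →
        ((List.finRange m).map fun k => ρ (T k) - 1).prod = 0) ∧
      ∀ (m : ℕ) (T : Mod g), ((f T : Matrix (Fin d) (Fin d) K) - 1) ^ m = 0 →
        (ρ T - 1) ^ m = 0 := by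
  subst hd
  let e := LinearMap.toMatrixAlgEquiv (Module.finBasis K V)
  refine ⟨(((e : Module.End K V →* Matrix _ _ K)).comp ρ).toHomUnits, ?_, ?_⟩
  · intro m T h
    apply e.injective
    rw [map_zero, map_list_prod, ← h, twistProd, List.map_map]
    congr 1
    apply List.map_congr_left
    intro k _
    rw [Function.comp_apply, map_sub, map_one]
    rfl
  · intro m T h
    apply e.injective
    rw [map_zero, map_pow, map_sub, map_one, ← h]
    rfl

/-- the dimensions of the representations for which a product of `m` disjoint twist operators is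
not zero -/
def prodDims (m g : ℕ) (K : Type*) [Field K] : Set ℕ :=
  {d | ∃ f : Mod g →* Matrix.GeneralLinearGroup (Fin d) K, ∃ T : Fin m → Mod g,
    DisjTwists g m T ∧ twistProd f T ≠ 0}

/-- the dimensions of the representations for which a Dehn twist has a Jordan block of size
greater than `m` -/
def jordanDims (m g : ℕ) (K : Type*) [Field K] : Set ℕ :=
  {d | ∃ f : Mod g →* Matrix.GeneralLinearGroup (Fin d) K, ∃ T : Mod g, IsTwistA g 0 T ∧
    ((f T : Matrix (Fin d) (Fin d) K) - 1) ^ m ≠ 0}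

theorem prod_lower {m : ℕ} (hm : 1 ≤ m) (hg : m + 2 ≤ g) (h : d ∈ prodDims m g K) :
    min (2 ^ m * g.choose m) (2 ^ (g - 2)) ≤ d := by
  obtain ⟨f, T, ⟨s, hs, hT⟩, hne⟩ := h
  by_contra hlt
  rw [not_le, lt_min_iff] at hlt
  apply hne
  apply (Matrix.toLinAlgEquiv' : Matrix (Fin d) (Fin d) K ≃ₐ[K] _).injective
  rw [twistProd_map, map_zero]
  exact prod_zero_of (mrep f) hm hg (by simpa using hlt.1) (by simpa using hlt.2) hs hT

theorem jordan_lower {m : ℕ} (hm : 1 ≤ m) (hg : m + 2 ≤ g) (h : d ∈ jordanDims m g K) :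
    min (2 ^ m * g.choose m) (2 ^ (g - 2)) ≤ d := by
  obtain ⟨f, T, hT, hne⟩ := h
  by_contra hlt
  rw [not_le, lt_min_iff] at hlt
  apply hne
  apply (Matrix.toLinAlgEquiv' : Matrix (Fin d) (Fin d) K ≃ₐ[K] _).injective
  rw [map_zero, map_pow, map_sub, map_one, ← mrep_apply]
  exact pow_zero_of (mrep f) hm hg (by simpa using hlt.1) (by simpa using hlt.2) hT

theorem exists_twistA (h2 : 2 ≤ g) {k : ℕ} (hk : k < g) : ∃ T : Mod g, IsTwistA g k T :=
  ⟨_, (isTwistA_iff h2 hk _).2 rfl⟩

theorem prod_upper {m : ℕ} (h2 : 2 ≤ g) (hg : m ≤ g) : (2 * g).choose m ∈ prodDims m g K := by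
  obtain ⟨f, hf, -⟩ := exists_mat (lam g m K) (lam_dim g m K)
  have hT : ∀ k : Fin m, ∃ T : Mod g, IsTwistA g (Fin.castLE hg k) T := fun k =>
    exists_twistA h2 (Fin.castLE hg k).2
  choose T hT using hT
  refine ⟨f, T, ⟨Fin.castLE hg, Fin.castLE_injective hg, hT⟩, ?_⟩
  intro h0
  exact lam_ne (K := K) (Fin.castLE_injective hg) hT (hf m T h0)

theorem jordan_upper {m : ℕ} (h2 : 2 ≤ g) (hm : (m.factorial : K) ≠ 0) :
    (2 * g + m - 1).choose m ∈ jordanDims m g K := by
  have hfd : FiniteDimensional K (MvPolynomial.homogeneousSubmodule (Fin g ⊕ Fin g) K m) := by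
    rw [MvPolynomial.homogeneousSubmodule_eq_finsupp_supported]
    have : Finite {d : (Fin g ⊕ Fin g) →₀ ℕ | d.degree = m} :=
      Finite.of_equiv _ ((Sym.equivNatSum (Fin g ⊕ Fin g) m).trans
        (Equiv.subtypeEquivRight fun P => by
          rw [Set.mem_ofPred_eq, Finsupp.degree_apply, Finsupp.sum]
          rfl))
    exact LinearEquiv.finiteDimensional (AddMonoidAlgebra.supportedEquivFinsupp (R := K) (S := K)
      {d : (Fin g ⊕ Fin g) →₀ ℕ | d.degree = m}).symm
  obtain ⟨f, -, hf⟩ := exists_mat (sym g m K) (sym_dim g m K)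
  obtain ⟨T, hT⟩ := exists_twistA h2 (k := 0) (by omega)
  refine ⟨f, T, hT, ?_⟩
  intro h0
  exact sym_ne (K := K) (g := g) hm (l := ⟨0, by omega⟩) hT (hf m T h0)

/-! ### the limit -/

theorem low_eventually (m : ℕ) : ∀ᶠ g : ℕ in atTop, 2 ^ m * g.choose m ≤ 2 ^ (g - 2) := by
  have h1 : Tendsto (fun g : ℕ => ((g : ℝ)) ^ m / 2 ^ g) atTop (𝓝 0) :=
    tendsto_pow_const_div_const_pow_of_one_lt m (by norm_num)
  have h2 : ∀ᶠ g : ℕ in atTop, ((g : ℝ)) ^ m / 2 ^ g < 1 / 2 ^ (m + 2) :=
    h1.eventually (gt_mem_nhds (by positivity))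
  filter_upwards [h2, eventually_ge_atTop 2] with g hg hg2
  have h3 : ((g : ℝ)) ^ m * 2 ^ (m + 2) < 2 ^ g := by
    rw [div_lt_div_iff₀ (by positivity) (by positivity)] at hg
    linarith
  have h4 : (g : ℕ) ^ m * 2 ^ (m + 2) < 2 ^ g := by exact_mod_cast h3
  have h5 : g.choose m ≤ g ^ m := Nat.choose_le_pow g m
  have h6 : 2 ^ g = 2 ^ (g - 2) * 4 := by
    rw [show (4 : ℕ) = 2 ^ 2 by norm_num, ← pow_add]
    congr 1; omega
  rw [h6, pow_add] at h4
  have h7 : 2 ^ m * g.choose m ≤ 2 ^ m * g ^ m := Nat.mul_le_mul_left _ h5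
  nlinarith

theorem low_limit (m : ℕ) : Tendsto (fun g : ℕ => ((2 ^ m * g.choose m : ℕ) : ℝ) / (g : ℝ) ^ m)
    atTop (𝓝 (2 ^ m / m.factorial)) := by
  have h1 : ∀ c : ℝ, Tendsto (fun g : ℕ => (((g : ℝ) + c) / g) ^ m) atTop (𝓝 1) := by
    intro c
    have h2 : Tendsto (fun g : ℕ => 1 + c / (g : ℝ)) atTop (𝓝 (1 + 0)) :=
      tendsto_const_nhds.add (tendsto_const_div_atTop_nhds_zero_nat c)
    have h3 := h2.pow m
    rw [add_zero, one_pow] at h3
    refine h3.congr' ?_
    filter_upwards [eventually_ge_atTop 1] with g hg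
    have : (g : ℝ) ≠ 0 := by positivity
    congr 1
    field_simp
  have hlow : Tendsto (fun g : ℕ => (2 ^ m / m.factorial : ℝ) *
      (((g : ℝ) + (1 - m)) / g) ^ m) atTop (𝓝 (2 ^ m / m.factorial)) := by
    have := (h1 (1 - m)).const_mul (2 ^ m / m.factorial : ℝ)
    rwa [mul_one] at this
  refine tendsto_of_tendsto_of_tendsto_of_le_of_le' hlow
    (tendsto_const_nhds (x := (2 ^ m / m.factorial : ℝ))) ?_ ?_
  · filter_upwards [eventually_ge_atTop (m + 1)] with g hg
    have h3 : ((g + 1 - m : ℕ) : ℝ) ^ m ≤ (g.descFactorial m : ℝ) := by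
      exact_mod_cast Nat.pow_sub_le_descFactorial g m
    have h4 : ((g + 1 - m : ℕ) : ℝ) = (g : ℝ) + (1 - m) := by
      rw [Nat.cast_sub (by omega)]; push_cast; ring
    have h5 : (g.descFactorial m : ℝ) = m.factorial * g.choose m := by
      exact_mod_cast Nat.descFactorial_eq_factorial_mul_choose g m
    rw [h4, h5] at h3
    have hf : (0 : ℝ) < m.factorial := by exact_mod_cast m.factorial_pos
    have hg' : (0 : ℝ) < (g : ℝ) ^ m := by
      have : 0 < g := by omega
      positivity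
    rw [div_pow, div_mul_div_comm, div_le_div_iff₀ (by positivity) hg']
    push_cast
    have h6 : 2 ^ m * ((g : ℝ) + (1 - m)) ^ m * (g : ℝ) ^ m ≤
        2 ^ m * (m.factorial * g.choose m) * (g : ℝ) ^ m := by
      apply mul_le_mul_of_nonneg_right _ hg'.le
      apply mul_le_mul_of_nonneg_left h3 (by positivity)
    calc 2 ^ m * ((g : ℝ) + (1 - m)) ^ m * (g : ℝ) ^ m ≤ _ := h6
      _ = 2 ^ m * (g.choose m : ℝ) * (m.factorial * (g : ℝ) ^ m) := by ring
  · filter_upwards [eventually_ge_atTop 1] with g hg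
    have hf : (0 : ℝ) < m.factorial := by exact_mod_cast m.factorial_pos
    have hg' : (0 : ℝ) < (g : ℝ) ^ m := by
      have : 0 < g := by omega
      positivity
    have h3 : (g.choose m : ℝ) ≤ (g : ℝ) ^ m / m.factorial := Nat.choose_le_pow_div m g
    rw [div_le_div_iff₀ hg' hf]
    push_cast
    rw [le_div_iff₀ hf] at h3
    calc 2 ^ m * (g.choose m : ℝ) * m.factorial = 2 ^ m * ((g.choose m : ℝ) * m.factorial) := by
          ring
      _ ≤ 2 ^ m * (g : ℝ) ^ m := mul_le_mul_of_nonneg_left h3 (by positivity)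

theorem up_limit (m c : ℕ) : ∀ᶠ g : ℕ in atTop, ((2 * g + c).choose m : ℝ) / (g : ℝ) ^ m ≤
    (2 ^ m / m.factorial : ℝ) * (1 + c / (g : ℝ)) ^ m := by
  filter_upwards [eventually_ge_atTop 1] with g hg
  have hf : (0 : ℝ) < m.factorial := by exact_mod_cast m.factorial_pos
  have hg0 : (0 : ℝ) < g := by exact_mod_cast hg
  have hg' : (0 : ℝ) < (g : ℝ) ^ m := by positivity
  have h3 : ((2 * g + c).choose m : ℝ) ≤ ((2 * g + c : ℕ) : ℝ) ^ m / m.factorial :=
    Nat.choose_le_pow_div m _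
  rw [div_le_iff₀ hg']
  refine h3.trans ?_
  have h4 : ((2 * g + c : ℕ) : ℝ) ≤ 2 * (g * (1 + c / g)) := by
    push_cast
    rw [mul_add, mul_one, mul_div_cancel₀ _ hg0.ne']
    have : (0 : ℝ) ≤ c := Nat.cast_nonneg c
    linarith
  calc ((2 * g + c : ℕ) : ℝ) ^ m / m.factorial ≤ (2 * (g * (1 + c / g))) ^ m / m.factorial := by
        apply div_le_div_of_nonneg_right _ hf.le
        exact pow_le_pow_left₀ (by positivity) h4 m
    _ = _ := by rw [mul_pow, mul_pow]; ring

theorem up_limit' (m c : ℕ) : Tendsto (fun g : ℕ =>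
    (2 ^ m / m.factorial : ℝ) * (1 + c / (g : ℝ)) ^ m) atTop (𝓝 (2 ^ m / m.factorial)) := by
  have h2 : Tendsto (fun g : ℕ => 1 + (c : ℝ) / (g : ℝ)) atTop (𝓝 (1 + 0)) :=
    tendsto_const_nhds.add (tendsto_const_div_atTop_nhds_zero_nat _)
  have h3 := (h2.pow m).const_mul (2 ^ m / m.factorial : ℝ)
  rwa [add_zero, one_pow, mul_one] at h3

theorem lim_of {m c : ℕ} {S : ℕ → Set ℕ}
    (h1 : ∀ g, m + 2 ≤ g → ∀ d ∈ S g, min (2 ^ m * g.choose m) (2 ^ (g - 2)) ≤ d)
    (h2 : ∀ g, m + 2 ≤ g → (2 * g + c).choose m ∈ S g) :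
    Tendsto (fun g : ℕ => ((sInf (S g) : ℕ) : ℝ) / (g : ℝ) ^ m) atTop (𝓝 (2 ^ m / m.factorial)) := by
  refine tendsto_of_tendsto_of_tendsto_of_le_of_le' (low_limit m) (up_limit' m c) ?_ ?_
  · filter_upwards [low_eventually m, eventually_ge_atTop (m + 2)] with g hg1 hg2
    have h3 : 2 ^ m * g.choose m ≤ sInf (S g) := by
      have h4 := h1 g hg2 (sInf (S g)) (Nat.sInf_mem ⟨_, h2 g hg2⟩)
      rwa [min_eq_left hg1] at h4
    apply div_le_div_of_nonneg_right _ (by positivity)
    exact_mod_cast h3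
  · filter_upwards [up_limit m c, eventually_ge_atTop (m + 2)] with g hg1 hg2
    refine le_trans ?_ hg1
    apply div_le_div_of_nonneg_right _ (by positivity)
    exact_mod_cast Nat.sInf_le (h2 g hg2)

end

end Pool.Agent.Q290.MG
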