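import Mathlib
import Pool.Agent.Q290.MG.Cgr
import Pool.Agent.Q290.MG.Shp

set_option autoImplicit false

/-! Representations with finite image in characteristic zero. -/

namespace Pool.Agent.Q290.MG

open Pool.Agent.H798R3.MG Pool.Agent.H29R2.MG Pool.Agent.TH35.MG Module

section
variable {K R : Type*} [Field K] [CharZero K] [Ring R] [Algebra K R]

/-- a unipotent element of finite order is trivial in characteristic zero -/
theorem unip_fin (K : Type*) [Field K] [CharZero K] [Algebra K R] {x : R} {m n : ℕ}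
    (h1 : (x - 1) ^ m = 0) (hn : 0 < n) (h2 : x ^ n = 1) : x = 1 := by
  have hnil : IsNilpotent (x - 1) := ⟨m, h1⟩
  have e1 : (∑ i ∈ Finset.range n, x ^ i) = (n : R) +
      (∑ i ∈ Finset.range n, ∑ j ∈ Finset.range i, x ^ j) * (x - 1) := by
    rw [Finset.sum_mul]
    simp only [geom_sum_mul]
    rw [Finset.sum_sub_distrib]
    simp
  have hc : Commute (∑ i ∈ Finset.range n, ∑ j ∈ Finset.range i, x ^ j) (x - 1) := by
    apply Commute.sub_right
    · apply Commute.sum_left
      intro i _
      apply Commute.sum_left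
      intro j _
      exact Commute.pow_self x j
    · exact Commute.one_right _
  have hnil2 : IsNilpotent ((∑ i ∈ Finset.range n, ∑ j ∈ Finset.range i, x ^ j) * (x - 1)) :=
    hc.isNilpotent_mul_left hnil
  have hu : IsUnit (n : R) := by
    have h3 : IsUnit ((n : K)) := (Nat.cast_ne_zero.2 hn.ne').isUnit
    have h4 := h3.map (algebraMap K R)
    rwa [map_natCast] at h4
  have hS : IsUnit (∑ i ∈ Finset.range n, x ^ i) := by
    rw [e1]
    exact hnil2.isUnit_add_left_of_commute hu (Nat.cast_commute n _).symm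
  have h5 := geom_sum_mul x n
  rw [h2, sub_self] at h5
  have h6 := (hS.mul_right_eq_zero).1 h5
  exact sub_eq_zero.1 h6

end

section
variable {K V G : Type*} [Field K] [AddCommGroup V] [Module K V] [Group G]
  {ρ : G →* Module.End K V} {A B T : ℕ → G} {N : ℕ}

theorem one_braid {x y : G} (h : x * y * x = y * x * y) (hx : ρ x = 1) : ρ y = 1 := by
  have h1 := congrArg ρ h
  rw [map_mul, map_mul, map_mul, map_mul, hx, one_mul, mul_one] at h1
  have h2 : ρ y * ρ y⁻¹ = 1 := by rw [← map_mul, mul_inv_cancel, map_one]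
  calc ρ y = ρ y * (ρ y * ρ y⁻¹) := by rw [h2, mul_one]
    _ = ρ y * ρ y * ρ y⁻¹ := by rw [mul_assoc]
    _ = ρ y * ρ y⁻¹ := by rw [← h1]
    _ = 1 := h2

/-- a representation which is trivial on one twist is trivial -/
theorem all_one (r : HR N A B T) (hG : Gen N A B T) (hN : 0 < N) (h0 : ρ (A 0) = 1) :
    ∀ γ, ρ γ = 1 := by
  have hB : ∀ i, i < N → ρ (B i) = 1 := by
    intro i
    induction i with
    | zero => intro _; exact one_braid (r.braidAB 0 hN) h0
    | succ i ih =>
      intro hi
      have h1 : ρ (T i) = 1 := one_braid (r.braidTBi i hi).symm (ih (by omega))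
      exact one_braid (r.braidTBj i hi) h1
  refine hG.ind (fun γ => ρ γ = 1) (fun i hi => one_braid (r.braidAB i hi).symm (hB i hi)) hB
    (fun i hi => one_braid (r.braidTBi i hi).symm (hB i (by omega))) (map_one _) ?_ ?_
  · intro x y hx hy
    rw [map_mul, hx, hy, one_mul]
  · intro x hx
    have h2 : ρ x⁻¹ * ρ x = 1 := by rw [← map_mul, inv_mul_cancel, map_one]
    rwa [hx, mul_one] at h2

end

section
variable {K V : Type*} [Field K] [AddCommGroup V] [Module K V] [FiniteDimensional K V] {g : ℕ}

/-- in characteristic zero, a representation with finite image of dimension less than `2^(g-2)` is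
trivial -/
theorem fin_char0 [CharZero K] (hg : 3 ≤ g) {ρ : Gam g →* Module.End K V}
    (hd : finrank K V < 2 ^ (g - 2)) (hf : ρ.ker.FiniteIndex) : ∀ γ, ρ γ = 1 := by
  have r := hr_gam (g := g) (by omega)
  have h1 : (ρ (gA g 0) - 1) ^ (g - 2) = 0 := by
    apply unip_m' r (by omega) (by omega) _ hd
    refine lt_of_lt_of_le hd ?_
    exact Nat.le_mul_of_pos_right _ (Nat.choose_pos (by omega))
  obtain ⟨n, hn0, -, hn⟩ := Subgroup.exists_pow_mem_of_index_ne_zero hf.index_ne_zero (gA g 0)
  have h3 : ρ (gA g 0) ^ n = 1 := by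
    rw [← map_pow]; exact hn
  exact all_one r (gen_gam (by omega)) (by omega) (unip_fin K h1 hn0 h3)

end

end Pool.Agent.Q290.MG
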